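import Mathlib

set_option autoImplicit false

/-!
# A poset of graphs without uncountable cliques

Vertices are elements of `Z`, divided into classes by `cls : Z → J`.
-/

open Set Cardinal

namespace Pool.Agent.helper57.SG

/-- A graph with vertex set `dom ⊆ Z`, whose edges join vertices of different classes. -/
structure PG {Z J : Type} (cls : Z → J) : Type where
  /-- the set of vertices -/
  dom : Set Z
  /-- adjacency -/
  adj : Z → Z → Prop
  symm : ∀ {x y}, adj x y → adj y x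
  left : ∀ {x y}, adj x y → x ∈ dom
  cls_ne : ∀ {x y}, adj x y → cls x ≠ cls y

variable {Z J : Type} {cls : Z → J}

namespace PG

/-- The set of neighbours. -/
def nb (p : PG cls) (x : Z) : Set Z := {y | p.adj x y}

theorem mem_nb {p : PG cls} {x y : Z} : y ∈ p.nb x ↔ p.adj x y := Iff.rfl

theorem right (p : PG cls) {x y : Z} (h : p.adj x y) : y ∈ p.dom := p.left (p.symm h)

theorem ne (p : PG cls) {x y : Z} (h : p.adj x y) : x ≠ y := fun hxy =>
  p.cls_ne h (by rw [hxy])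

/-- `q` extends `p`: `p` is the induced subgraph of `q` on `p.dom`, and each new vertex has either
finitely many neighbours in `p.dom`, or almost all of its neighbours in `p.dom` are neighbours of a
vertex of `p` of the same class. -/
structure Ext (q p : PG cls) : Prop where
  dom : p.dom ⊆ q.dom
  restrict : ∀ {x y}, x ∈ p.dom → y ∈ p.dom → q.adj x y → p.adj x y
  extend : ∀ {x y}, p.adj x y → q.adj x y
  new : ∀ x ∈ q.dom, x ∉ p.dom → (q.nb x ∩ p.dom).Finite ∨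
    ∃ x' ∈ p.dom, cls x' = cls x ∧ ((q.nb x ∩ p.dom) \ p.nb x').Finite

theorem Ext.refl (p : PG cls) : Ext p p := ⟨Subset.rfl, fun _ _ h => h, fun h => h,
  fun _ h h' => absurd h h'⟩

theorem Ext.trans {r q p : PG cls} (h : Ext r q) (h' : Ext q p) : Ext r p := by
  refine ⟨h'.dom.trans h.dom, fun hx hy hxy =>
    h'.restrict hx hy (h.restrict (h'.dom hx) (h'.dom hy) hxy), fun hxy => h.extend (h'.extend hxy),
    fun x hx hxp => ?_⟩
  by_cases hxq : x ∈ q.dom
  · have key : r.nb x ∩ p.dom = q.nb x ∩ p.dom := by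
      ext y
      constructor
      · rintro ⟨h1, h2⟩
        exact ⟨h.restrict hxq (h'.dom h2) h1, h2⟩
      · rintro ⟨h1, h2⟩
        exact ⟨h.extend h1, h2⟩
    rw [key]
    exact h'.new x hxq hxp
  · rcases h.new x hx hxq with h1 | ⟨x', hx', hc, hfin⟩
    · exact Or.inl (h1.subset (inter_subset_inter_right _ h'.dom))
    · by_cases hx'p : x' ∈ p.dom
      · refine Or.inr ⟨x', hx'p, hc, hfin.subset ?_⟩
        rintro y ⟨⟨h1, h2⟩, h3⟩
        exact ⟨⟨h1, h'.dom h2⟩, fun h4 => h3 (h'.restrict hx'p h2 h4)⟩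
      · rcases h'.new x' hx' hx'p with h1 | ⟨x'', hx'', hc'', hfin''⟩
        · refine Or.inl ((hfin.union h1).subset ?_)
          rintro y ⟨h2, h3⟩
          by_cases hy : y ∈ q.nb x'
          · exact Or.inr ⟨hy, h3⟩
          · exact Or.inl ⟨⟨h2, h'.dom h3⟩, hy⟩
        · refine Or.inr ⟨x'', hx'', hc''.trans hc, (hfin.union hfin'').subset ?_⟩
          rintro y ⟨⟨h2, h3⟩, h4⟩
          by_cases hy : y ∈ q.nb x'
          · exact Or.inr ⟨⟨hy, h3⟩, h4⟩
          · exact Or.inl ⟨⟨h2, h'.dom h3⟩, hy⟩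

instance : Preorder (PG cls) where
  le := Ext
  le_refl := Ext.refl
  le_trans _ _ _ h h' := Ext.trans h h'

theorem le_def {q p : PG cls} : q ≤ p ↔ Ext q p := Iff.rfl

theorem le_dom {q p : PG cls} (h : q ≤ p) : p.dom ⊆ q.dom := Ext.dom h

theorem le_adj {q p : PG cls} (h : q ≤ p) {x y : Z} (hx : x ∈ p.dom) (hy : y ∈ p.dom) :
    q.adj x y ↔ p.adj x y := ⟨fun h' => Ext.restrict h hx hy h', fun h' => Ext.extend h h'⟩

/-- The union of a family of graphs. -/
def uni {I : Type} (p : I → PG cls) (S : Set I) : PG cls where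
  dom := ⋃ i ∈ S, (p i).dom
  adj x y := ∃ i ∈ S, (p i).adj x y
  symm := fun ⟨i, hi, h⟩ => ⟨i, hi, (p i).symm h⟩
  left := fun ⟨i, hi, h⟩ => mem_iUnion₂.2 ⟨i, hi, (p i).left h⟩
  cls_ne := fun ⟨i, _, h⟩ => (p i).cls_ne h

theorem mem_uni {I : Type} {p : I → PG cls} {S : Set I} {x : Z} :
    x ∈ (uni p S).dom ↔ ∃ i ∈ S, x ∈ (p i).dom := by
  simp [uni]

theorem uni_adj {I : Type} {p : I → PG cls} {S : Set I} {x y : Z} :
    (uni p S).adj x y ↔ ∃ i ∈ S, (p i).adj x y := Iff.rfl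

section Chain

variable {I : Type} [LinearOrder I] {p : I → PG cls}

/-- The union of a decreasing family of conditions extends all of them. -/
theorem uni_le {S : Set I} (hS : ∀ i ∈ S, ∀ j ∈ S, i ≤ j → p j ≤ p i) {i : I} (hi : i ∈ S) :
    uni p S ≤ p i := by
  have hadj : ∀ x y, x ∈ (p i).dom → y ∈ (p i).dom → (uni p S).adj x y → (p i).adj x y := by
    rintro x y hx hy ⟨j, hj, hxy⟩
    rcases le_total i j with h | h
    · exact (le_adj (hS i hi j hj h) hx hy).1 hxy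
    · exact Ext.extend (hS j hj i hi h) hxy
  refine ⟨fun x hx => mem_uni.2 ⟨i, hi, hx⟩, fun hx hy h => hadj _ _ hx hy h,
    fun h => ⟨i, hi, h⟩, fun x hx hxi => ?_⟩
  obtain ⟨j, hj, hxj⟩ := mem_uni.1 hx
  have hij : i ≤ j := by
    by_contra hcon
    exact hxi (le_dom (hS j hj i hi (le_of_not_ge hcon)) hxj)
  have key : (uni p S).nb x ∩ (p i).dom = (p j).nb x ∩ (p i).dom := by
    ext y
    constructor
    · rintro ⟨⟨k, hk, h1⟩, h2⟩
      refine ⟨?_, h2⟩
      rcases le_total j k with h | h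
      · exact (le_adj (hS j hj k hk h) hxj (le_dom (hS i hi j hj hij) h2)).1 h1
      · exact Ext.extend (hS k hk j hj h) h1
    · rintro ⟨h1, h2⟩
      exact ⟨⟨j, hj, h1⟩, h2⟩
  rw [key]
  exact Ext.new (hS i hi j hj hij) x hxj hxi

/-- In a family such that each condition extends the union of the previous ones, the conditions
decrease. -/
theorem chain_le [WellFoundedLT I] {S : Set I} (hlow : ∀ i ∈ S, ∀ j < i, j ∈ S)
    (h : ∀ i ∈ S, p i ≤ uni p (Iio i)) : ∀ i ∈ S, ∀ j ∈ S, i ≤ j → p j ≤ p i := by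
  have key : ∀ j, j ∈ S → ∀ i, i ≤ j → p j ≤ p i := by
    intro j
    induction j using WellFoundedLT.induction with
    | _ j ih =>
      intro hj i hij
      rcases hij.lt_or_eq with hlt | rfl
      · have h1 : uni p (Iio j) ≤ p i := by
          refine uni_le (fun a ha b hb hab => ?_) hlt
          exact ih b hb (hlow j hj b hb) a hab
        exact (h j hj).trans h1
      · exact le_rfl
  exact fun i _ j hj hij => key j hj i hij

/-- The union of a decreasing family extends the unions of its initial segments. -/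
theorem uni_le_uni {S : Set I}
    (h : ∀ i ∈ S, p i ≤ uni p (Iio i)) (hS : ∀ i ∈ S, ∀ j ∈ S, i ≤ j → p j ≤ p i)
    {i : I} (hi : i ∈ S) : uni p S ≤ uni p (Iio i) :=
  (uni_le hS hi).trans (h i hi)

end Chain

/-- There is no uncountable clique. -/
def NoClique (p : PG cls) : Prop :=
  ∀ K : Set Z, (∀ x ∈ K, ∀ y ∈ K, x ≠ y → p.adj x y) → K.Countable

/-- The union of a decreasing family of graphs without uncountable cliques, such that each graph
extends the union of the previous ones, has no uncountable clique. -/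
theorem uni_noClique {I : Type} [LinearOrder I] [WellFoundedLT I] {p : I → PG cls} {S : Set I}
    (hlow : ∀ i ∈ S, ∀ j < i, j ∈ S) (h : ∀ i ∈ S, p i ≤ uni p (Iio i))
    (hN : ∀ i ∈ S, NoClique (p i)) : NoClique (uni p S) := by
  intro K hK
  by_contra hunc
  have hinf : K.Infinite := fun hfin => hunc hfin.countable
  obtain ⟨z₀, hz₀⟩ := hinf.nonempty
  have : Nonempty Z := ⟨z₀⟩
  set V := uni p S with hVdef
  have hdec : ∀ i ∈ S, ∀ j ∈ S, i ≤ j → p j ≤ p i := chain_le hlow h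
  have hV : ∀ i ∈ S, V ≤ p i := fun i hi => uni_le hdec hi
  have hVU : ∀ i ∈ S, V ≤ uni p (Iio i) := fun i hi => uni_le_uni h hdec hi
  have hKdom : ∀ x ∈ K, ∃ k ∈ S, x ∈ (p k).dom := by
    intro x hx
    have : ∃ y ∈ K, y ≠ x := by
      by_contra hcon
      push Not at hcon
      exact hunc ((Set.countable_singleton x).mono fun y hy => hcon y hy)
    obtain ⟨y, hy, hyx⟩ := this
    exact mem_uni.1 (V.left (hK x hx y hy hyx.symm))
  have hcount : ∀ i ∈ S, (K ∩ (p i).dom).Countable := by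
    intro i hi
    refine hN i hi _ ?_
    rintro x ⟨hx, hxi⟩ y ⟨hy, hyi⟩ hxy
    exact (le_adj (hV i hi) hxi hyi).1 (hK x hx y hy hxy)
  have : Nonempty I := ⟨(hKdom z₀ hz₀).choose⟩
  choose! r hrS hr using hKdom
  -- countable subsets of `S` are bounded
  have hA : ∀ C ⊆ S, C.Countable → ∃ b ∈ S, ∀ i ∈ C, i < b := by
    intro C hC hCc
    by_contra hcon
    push Not at hcon
    refine hunc ((hCc.biUnion fun i hi => hcount i (hC hi)).mono fun x hx => ?_)
    obtain ⟨i, hi, hle⟩ := hcon (r x) (hrS x hx)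
    exact mem_iUnion₂.2 ⟨i, hi, hx, le_dom (hdec _ (hrS x hx) _ (hC hi) hle) (hr x hx)⟩
  -- some `p α₀` contains infinitely many elements of `K`
  obtain ⟨α₀, hα₀, hKα₀⟩ : ∃ α₀ ∈ S, (K ∩ (p α₀).dom).Infinite := by
    let e := hinf.natEmbedding
    obtain ⟨b, hb, hbC⟩ := hA (range fun n => r (e n))
      (by rintro _ ⟨n, rfl⟩; exact hrS _ (e n).2) (Set.countable_range _)
    refine ⟨b, hb, ?_⟩
    refine (Set.infinite_range_of_injective (f := fun n => (e n : Z))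
      (fun a c hac => e.injective (Subtype.ext hac))).mono ?_
    rintro _ ⟨n, rfl⟩
    refine ⟨(e n).2, ?_⟩
    exact le_dom (hdec _ (hrS _ (e n).2) _ hb (hbC _ ⟨n, rfl⟩).le) (hr _ (e n).2)
  have hsubU : ∀ α ∈ S, ∀ γ < α, (p γ).dom ⊆ (uni p (Iio α)).dom :=
    fun α _ γ hγ x hx => mem_uni.2 ⟨γ, hγ, hx⟩
  have hx : ∀ α ∈ S, ∃ x ∈ K, x ∉ (uni p (Iio α)).dom := by
    intro α hα
    by_contra hcon
    push Not at hcon
    exact hunc ((hcount α hα).mono fun y hy =>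
      (⟨hy, le_dom (h α hα) (hcon y hy)⟩ : y ∈ K ∩ (p α).dom))
  choose! x hxK hxU using hx
  have hx' : ∀ α ∈ S, α₀ < α → ∃ x' ∈ (uni p (Iio α)).dom, cls x' = cls (x α) ∧
      ((V.nb (x α) ∩ (uni p (Iio α)).dom) \ (uni p (Iio α)).nb x').Finite := by
    intro α hα hlt
    have hxV : x α ∈ V.dom := mem_uni.2 ⟨_, hrS _ (hxK α hα), hr _ (hxK α hα)⟩
    rcases Ext.new (hVU α hα) (x α) hxV (hxU α hα) with h1 | h1
    · exfalso
      refine hKα₀ (h1.subset ?_)
      rintro y ⟨hy, hyα⟩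
      have hyU := hsubU α hα α₀ hlt hyα
      refine ⟨hK _ (hxK α hα) y hy ?_, hyU⟩
      rintro rfl
      exact hxU α hα hyU
    · exact h1
  choose! x' hx'U hcls hF using hx'
  set F : I → Set Z := fun α => (V.nb (x α) ∩ (uni p (Iio α)).dom) \ (uni p (Iio α)).nb (x' α)
    with hFdef
  have hF : ∀ α ∈ S, α₀ < α → (F α).Finite := hF
  -- regressivity
  have hbd : ∀ α ∈ S, α₀ < α → ∀ A : Set Z, A.Finite → (∀ a ∈ A, ∃ γ < α, a ∈ (p γ).dom) →
      ∃ γ < α, α₀ ≤ γ ∧ A ⊆ (p γ).dom := by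
    intro α hα hlt A hA
    induction A, hA using Set.Finite.induction_on with
    | empty => exact fun _ => ⟨α₀, hlt, le_rfl, empty_subset _⟩
    | insert _ _ ih =>
      intro hA
      obtain ⟨γ, hγ, h0, hsub⟩ := ih fun a ha => hA a (mem_insert_of_mem _ ha)
      obtain ⟨δ, hδ, hmem⟩ := hA _ (mem_insert _ _)
      have hγS := hlow α hα γ hγ
      have hδS := hlow α hα δ hδ
      refine ⟨max γ δ, max_lt hγ hδ, h0.trans (le_max_left _ _), insert_subset ?_ ?_⟩
      · exact le_dom (hdec _ hδS _ (hlow α hα _ (max_lt hγ hδ)) (le_max_right _ _)) hmem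
      · exact hsub.trans (le_dom (hdec _ hγS _ (hlow α hα _ (max_lt hγ hδ)) (le_max_left _ _)))
  have hC : ∀ α ∈ S, α₀ < α → ∃ γ < α, α₀ ≤ γ ∧ x' α ∈ (p γ).dom ∧ F α ⊆ (p γ).dom := by
    intro α hα hlt
    obtain ⟨γ, hγ, h0, hsub⟩ := hbd α hα hlt (insert (x' α) (F α)) ((hF α hα hlt).insert _) (by
      intro a ha
      rcases ha with rfl | ha
      · obtain ⟨γ, hγ, h1⟩ := mem_uni.1 (hx'U α hα hlt)
        exact ⟨γ, hγ, h1⟩
      · obtain ⟨γ, hγ, h1⟩ := mem_uni.1 ha.1.2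
        exact ⟨γ, hγ, h1⟩)
    exact ⟨γ, hγ, h0, hsub (mem_insert _ _), (subset_insert _ _).trans hsub⟩
  -- pressing down
  obtain ⟨γ, hγS, hγ0, hγ⟩ : ∃ γ ∈ S, α₀ ≤ γ ∧ ∀ b ∈ S, ∃ α ∈ S, b < α ∧ γ < α ∧
      x' α ∈ (p γ).dom ∧ F α ⊆ (p γ).dom := by
    by_contra hcon
    push Not at hcon
    choose! g hgS hg using hcon
    have hs : ∀ γ ∈ S, α₀ ≤ γ → ∃ b ∈ S, γ < b ∧ g γ < b := by
      intro γ hγ hγ0
      obtain ⟨b, hb, hb'⟩ := hA {γ, g γ} (by
        rintro _ (rfl | rfl)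
        · exact hγ
        · exact hgS γ hγ hγ0) (by simp)
      exact ⟨b, hb, hb' _ (by simp), hb' _ (by simp)⟩
    choose! s hsS hs1 hs2 using hs
    let u : ℕ → I := fun n => s^[n] α₀
    have hu : ∀ n, u n ∈ S ∧ α₀ ≤ u n := by
      intro n
      induction n with
      | zero => exact ⟨hα₀, le_rfl⟩
      | succ n ih =>
        have h1 : u (n + 1) = s (u n) := Function.iterate_succ_apply' s n α₀
        rw [h1]
        exact ⟨hsS _ ih.1 ih.2, ih.2.trans (hs1 _ ih.1 ih.2).le⟩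
    have hu1 : ∀ n, u (n + 1) = s (u n) := fun n => Function.iterate_succ_apply' s n α₀
    obtain ⟨b₀, hb₀S, hb₀⟩ := hA (range u) (by rintro _ ⟨n, rfl⟩; exact (hu n).1)
      (Set.countable_range _)
    let B : Set I := {b | b ∈ S ∧ ∀ n, u n < b}
    obtain ⟨α, hαB, hαmin⟩ := WellFounded.has_min (wellFounded_lt (α := I)) B
      ⟨b₀, hb₀S, fun n => hb₀ _ ⟨n, rfl⟩⟩
    obtain ⟨hαS, hαu⟩ := hαB
    obtain ⟨γ, hγα, hγ0, h1, h2⟩ := hC α hαS (hαu 0)
    have hγS := hlow α hαS γ hγα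
    have : ∃ n, γ ≤ u n := by
      by_contra hcon
      push Not at hcon
      exact hαmin γ ⟨hγS, hcon⟩ hγα
    obtain ⟨n, hn⟩ := this
    have hsub := le_dom (hdec _ hγS _ (hu n).1 hn)
    refine hg (u n) (hu n).1 (hu n).2 α hαS ?_ (hαu n) (hsub h1) (h2.trans hsub)
    exact (hs2 _ (hu n).1 (hu n).2).trans (by rw [← hu1]; exact hαu (n + 1))
  set W : Set I := {α | α ∈ S ∧ γ < α ∧ x' α ∈ (p γ).dom ∧ F α ⊆ (p γ).dom} with hW
  have hWub : ∀ b ∈ S, ∃ α ∈ W, b < α := by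
    intro b hb
    obtain ⟨α, h1, h2, h3⟩ := hγ b hb
    exact ⟨α, ⟨h1, h3⟩, h2⟩
  let Q : Set (Set I) := {T | T ⊆ W ∧ ∀ α ∈ T, ∀ β ∈ T, α < β →
    x α ∈ (uni p (Iio β)).dom ∧ x' β ∉ F α}
  obtain ⟨T, hTmax⟩ := zorn_subset Q (by
    intro c hc hchain
    refine ⟨⋃₀ c, ⟨Set.sUnion_subset fun s hs => (hc hs).1, ?_⟩, fun s hs =>
      Set.subset_sUnion_of_mem hs⟩
    rintro α ⟨s, hs, hαs⟩ β ⟨t, ht, hβt⟩ hlt
    rcases hchain.total hs ht with hst | hst
    · exact (hc ht).2 α (hst hαs) β hβt hlt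
    · exact (hc hs).2 α hαs β (hst hβt) hlt)
  obtain ⟨hTW, hTQ⟩ := hTmax.1
  have hclsK : Set.InjOn cls K := by
    intro a ha b hb hab
    by_contra hne
    exact V.cls_ne (hK a ha b hb hne) hab
  have hTunc : ¬ T.Countable := by
    intro hTc
    obtain ⟨b, hbS, hb⟩ := hA (T ∪ (fun α => r (x α)) '' T) (by
      rintro _ (hi | ⟨α, hα, rfl⟩)
      · exact (hTW hi).1
      · exact hrS _ (hxK α (hTW hα).1)) (hTc.union (hTc.image _))
    have hFall : (⋃ α ∈ T, F α).Countable := hTc.biUnion fun α hα =>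
      (hF α (hTW hα).1 (hγ0.trans_lt (hTW hα).2.1)).countable
    obtain ⟨β, hβW, hbβ, hβF⟩ : ∃ β ∈ W, b < β ∧ x' β ∉ ⋃ α ∈ T, F α := by
      by_contra hcon
      push Not at hcon
      have hXc : (x '' {β | β ∈ W ∧ b < β}).Countable := by
        refine Set.countable_of_injective_of_countable_image (f := cls)
          (hclsK.mono ?_) ((hFall.image cls).mono ?_)
        · rintro _ ⟨β, hβ, rfl⟩
          exact hxK β hβ.1.1
        · rintro _ ⟨_, ⟨β, hβ, rfl⟩, rfl⟩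
          exact ⟨x' β, hcon β hβ.1 hβ.2, hcls β hβ.1.1 (hγ0.trans_lt hβ.1.2.1)⟩
      obtain ⟨b', hb'S, hb'⟩ := hA ({b} ∪ (fun z => r z) '' (x '' {β | β ∈ W ∧ b < β})) (by
        rintro _ (rfl | ⟨_, ⟨β, hβ, rfl⟩, rfl⟩)
        · exact hbS
        · exact hrS _ (hxK β hβ.1.1)) ((Set.countable_singleton b).union (hXc.image _))
      obtain ⟨β, hβW, hβ⟩ := hWub b' hb'S
      have hbβ : b < β := (hb' b (Or.inl rfl)).trans hβ
      have h1 : r (x β) < b' := hb' _ (Or.inr ⟨x β, ⟨β, ⟨hβW, hbβ⟩, rfl⟩, rfl⟩)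
      exact hxU β hβW.1 (hsubU β hβW.1 _ (h1.trans hβ) (hr _ (hxK β hβW.1)))
    have hins : insert β T ∈ Q := by
      refine ⟨insert_subset hβW hTW, ?_⟩
      rintro α (rfl | hα) β' (rfl | hβ') hlt
      · exact absurd hlt (lt_irrefl _)
      · exact absurd (hlt.trans (hb β' (Or.inl hβ'))) (not_lt_of_gt hbβ)
      · refine ⟨hsubU _ hβW.1 (r (x α)) ((hb _ (Or.inr ⟨α, hα, rfl⟩)).trans hbβ)
          (hr _ (hxK α (hTW hα).1)), fun hmem => hβF (mem_iUnion₂.2 ⟨α, hα, hmem⟩)⟩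
      · exact hTQ α hα β' hβ' hlt
    have hβT : β ∈ T := hTmax.2 hins (subset_insert _ _) (mem_insert _ _)
    exact absurd (hb β (Or.inl hβT)) (not_lt_of_gt hbβ)
  have hadj : ∀ α ∈ T, ∀ β ∈ T, α < β → (p γ).adj (x' α) (x' β) := by
    intro α hα β hβ hlt
    obtain ⟨hαS, hγα, hxα, hFα⟩ := hTW hα
    obtain ⟨hβS, hγβ, hxβ, hFβ⟩ := hTW hβ
    obtain ⟨h1, h2⟩ := hTQ α hα β hβ hlt
    have hne : x β ≠ x α := by
      intro heq
      exact hxU β hβS (by rw [heq]; exact h1)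
    have h3 : V.adj (x β) (x α) := hK _ (hxK β hβS) _ (hxK α hαS) hne
    have h4 : (uni p (Iio β)).adj (x' β) (x α) := by
      by_contra hcon
      have : x α ∈ F β := ⟨⟨h3, h1⟩, hcon⟩
      exact hxU α hαS (hsubU α hαS γ hγα (hFβ this))
    have h5 : V.adj (x α) (x' β) := V.symm (Ext.extend (hVU β hβS) h4)
    have h6 : (uni p (Iio α)).adj (x' α) (x' β) := by
      by_contra hcon
      exact h2 ⟨⟨h5, hsubU α hαS γ hγα hxβ⟩, hcon⟩
    exact (le_adj (hV γ hγS) hxα hxβ).1 (Ext.extend (hVU α hαS) h6)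
  have hinj : Set.InjOn x' T := by
    intro α hα β hβ hab
    by_contra hne
    rcases lt_or_gt_of_ne hne with hlt | hlt
    · exact (p γ).ne (hadj α hα β hβ hlt) hab
    · exact (p γ).ne (hadj β hβ α hα hlt) hab.symm
  refine hTunc (Set.countable_of_injective_of_countable_image hinj (hN γ hγS _ ?_))
  rintro _ ⟨α, hα, rfl⟩ _ ⟨β, hβ, rfl⟩ hne
  have hαβ : α ≠ β := fun heq => hne (by rw [heq])
  rcases lt_or_gt_of_ne hαβ with hlt | hlt
  · exact hadj α hα β hβ hlt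
  · exact (p γ).symm (hadj β hβ α hα hlt)

end PG

end Pool.Agent.helper57.SG
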