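import Mathlib
import Pool.Agent.helper57.SGPoset

set_option autoImplicit false

/-!
# The conditions, and the intersection of `ν` many dense open sets
-/

open Set Cardinal

namespace Pool.Agent.helper57.SG

variable {Z J : Type} {cls : Z → J}

namespace PG

/-- A condition: a graph on at most `ν` vertices without uncountable cliques. -/
structure IsCond (ν : Cardinal.{0}) (p : PG cls) : Prop where
  card : #p.dom ≤ ν
  noClique : NoClique p

/-- The empty graph. -/
def emp (cls : Z → J) : PG cls where
  dom := ∅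
  adj _ _ := False
  symm := fun h => h
  left := fun h => h.elim
  cls_ne := fun h => h.elim

theorem emp_isCond (ν : Cardinal.{0}) : IsCond ν (emp cls) := by
  refine ⟨?_, fun K hK => ?_⟩
  · change #(∅ : Set Z) ≤ ν
    rw [Cardinal.mk_eq_zero]
    exact bot_le
  · refine Set.Subsingleton.countable fun x hx y hy => ?_
    by_contra hne
    exact hK x hx y hy hne

theorem le_of_dom_empty {p q : PG cls} (hp : p.dom = ∅) : q ≤ p := by
  refine ⟨by rw [hp]; exact empty_subset _, fun hx => ?_, fun h => ?_, fun x _ _ => Or.inl ?_⟩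
  · rw [hp] at hx
    exact absurd hx (notMem_empty _)
  · have := p.left h
    rw [hp] at this
    exact absurd this (notMem_empty _)
  · rw [hp, inter_empty]
    exact Set.finite_empty

theorem uni_card {I : Type} {p : I → PG cls} {S : Set I} {ν : Cardinal.{0}} (hν : ℵ₀ ≤ ν)
    (hS : #S ≤ ν) (h : ∀ i ∈ S, #(p i).dom ≤ ν) : #(uni p S).dom ≤ ν := by
  refine (Cardinal.mk_biUnion_le _ _).trans ?_
  calc #S * ⨆ x : S, #(p x.1).dom ≤ ν * ν :=
        mul_le_mul' hS (ciSup_le' fun x => h x.1 x.2)
    _ = ν := Cardinal.mul_eq_self hν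

/-- The union of a decreasing family of at most `ν` conditions, each of which extends the union of
the previous ones, is a condition. -/
theorem uni_isCond {I : Type} [LinearOrder I] [WellFoundedLT I] {p : I → PG cls} {S : Set I}
    {ν : Cardinal.{0}} (hν : ℵ₀ ≤ ν) (hS : #S ≤ ν)
    (hlow : ∀ i ∈ S, ∀ j < i, j ∈ S) (h : ∀ i ∈ S, p i ≤ uni p (Iio i))
    (hN : ∀ i ∈ S, IsCond ν (p i)) : IsCond ν (uni p S) :=
  ⟨uni_card hν hS fun i hi => (hN i hi).card, uni_noClique hlow h fun i hi => (hN i hi).noClique⟩

theorem uni_congr {I : Type} {p q : I → PG cls} {S : Set I} (h : ∀ i ∈ S, p i = q i) :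
    uni p S = uni q S := by
  unfold uni
  congr 1
  · exact Set.iUnion₂_congr fun j hj => by rw [h j hj]
  · funext x y
    refine propext ⟨?_, ?_⟩
    · rintro ⟨j, hj, hxy⟩
      exact ⟨j, hj, by rw [← h j hj]; exact hxy⟩
    · rintro ⟨j, hj, hxy⟩
      exact ⟨j, hj, by rw [h j hj]; exact hxy⟩

/-- Recursive construction of families. -/
theorem exists_rec {I : Type} [LinearOrder I] [WellFoundedLT I] (E : I → PG cls → PG cls) :
    ∃ p : I → PG cls, ∀ k, p k = E k (uni p (Iio k)) := by
  classical
  let step : (k : I) → ((j : I) → j < k → PG cls) → PG cls := fun k ih =>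
    E k (uni (fun j => if h : j < k then ih j h else emp cls) (Iio k))
  refine ⟨fun k => WellFounded.fix (wellFounded_lt (α := I)) step k, fun k => ?_⟩
  simp only
  rw [WellFounded.fix_eq]
  change E k _ = E k _
  congr 1
  exact uni_congr fun j hj => dif_pos hj

end PG

/-- The poset of conditions. -/
def Cond (cls : Z → J) (ν : Cardinal.{0}) : Type := {p : PG cls // PG.IsCond ν p}

instance (ν : Cardinal.{0}) : Preorder (Cond cls ν) := inferInstanceAs (Preorder (Subtype _))

instance (ν : Cardinal.{0}) : OrderTop (Cond cls ν) where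
  top := ⟨PG.emp cls, PG.emp_isCond ν⟩
  le_top p := by
    change p.1 ≤ PG.emp cls
    exact PG.le_of_dom_empty rfl

/-- The intersection of at most `ν` dense open sets is dense. -/
theorem Cond.dist {ν : Cardinal.{0}} (hν : ℵ₀ ≤ ν) {I : Type} (hI : #I ≤ ν)
    (D : I → Cond cls ν → Prop) (hopen : ∀ i p q, q ≤ p → D i p → D i q)
    (hdense : ∀ i p, ∃ q ≤ p, D i q) (p : Cond cls ν) : ∃ q ≤ p, ∀ i, D i q := by
  classical
  obtain ⟨_, _⟩ : ∃ _ : LinearOrder I, WellFoundedLT I := by
    refine ⟨linearOrderOfSTO (WellOrderingRel (α := I)), ?_⟩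
    exact ⟨(IsWellFounded.wf : WellFounded (WellOrderingRel (α := I)))⟩
  choose e he hDe using hdense
  let E : WithBot I → PG cls → PG cls := fun k u =>
    match k with
    | ⊥ => p.1
    | (i : I) => if h : PG.IsCond ν u then (e i ⟨u, h⟩).1 else u
  obtain ⟨f, hf⟩ := PG.exists_rec E
  have hcardI : #(WithBot I) ≤ ν := by
    change #(Option I) ≤ ν
    rw [Cardinal.mk_option]
    exact Cardinal.add_le_of_le hν hI (Cardinal.one_le_aleph0.trans hν)
  have hcard : ∀ S : Set (WithBot I), #S ≤ ν := fun S => (Cardinal.mk_set_le S).trans hcardI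
  have key : ∀ k : WithBot I, f k ≤ PG.uni f (Iio k) ∧ PG.IsCond ν (f k) := by
    intro k
    induction k using WellFoundedLT.induction with
    | _ k ih =>
      have hu : PG.IsCond ν (PG.uni f (Iio k)) := by
        refine PG.uni_isCond hν (hcard _) (fun i hi j hj => hj.trans hi) ?_ ?_
        · exact fun i hi => (ih i hi).1
        · exact fun i hi => (ih i hi).2
      cases k with
      | bot =>
        have h1 : f ⊥ = p.1 := hf ⊥
        constructor
        · refine PG.le_of_dom_empty ?_
          ext x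
          rw [PG.mem_uni]
          simp
        · rw [h1]
          exact p.2
      | coe i =>
        have h1 : f (i : WithBot I) = (e i ⟨PG.uni f (Iio (i : WithBot I)), hu⟩).1 := by
          rw [hf]
          exact dif_pos hu
        rw [h1]
        exact ⟨he i _, (e i _).2⟩
  have hall : PG.IsCond ν (PG.uni f univ) :=
    PG.uni_isCond hν (hcard _) (fun _ _ _ _ => mem_univ _) (fun i _ => (key i).1)
      (fun i _ => (key i).2)
  have hdec : ∀ k ∈ (univ : Set (WithBot I)), ∀ j ∈ (univ : Set (WithBot I)), k ≤ j → f j ≤ f k :=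
    PG.chain_le (fun _ _ _ _ => mem_univ _) (fun i _ => (key i).1)
  have hle : ∀ k, PG.uni f univ ≤ f k := fun k => PG.uni_le hdec (mem_univ k)
  refine ⟨⟨PG.uni f univ, hall⟩, ?_, fun i => ?_⟩
  · have h1 : f ⊥ = p.1 := hf ⊥
    change PG.uni f univ ≤ p.1
    rw [← h1]
    exact hle ⊥
  · have hu : PG.IsCond ν (PG.uni f (Iio (i : WithBot I))) := by
      refine PG.uni_isCond hν (hcard _) (fun i hi j hj => hj.trans hi) ?_ ?_
      · exact fun i _ => (key i).1
      · exact fun i _ => (key i).2
    have h1 : f (i : WithBot I) = (e i ⟨PG.uni f (Iio (i : WithBot I)), hu⟩).1 := by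
      rw [hf]
      exact dif_pos hu
    refine hopen i (e i ⟨PG.uni f (Iio (i : WithBot I)), hu⟩) _ ?_ (hDe i _)
    change PG.uni f univ ≤ (e i ⟨PG.uni f (Iio (i : WithBot I)), hu⟩).1
    rw [← h1]
    exact hle i

end Pool.Agent.helper57.SG
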