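import Mathlib
import Pool.Agent.helper57.SGCond

set_option autoImplicit false

/-!
# Amalgamation of conditions
-/

open Set Cardinal

namespace Pool.Agent.helper57.SG

variable {Z J : Type} {cls : Z → J}

namespace PG

/-- The edges of `p` inside `R`. -/
def edges (p : PG cls) (R : Set Z) : Set (Z × Z) := {e | e.1 ∈ R ∧ e.2 ∈ R ∧ p.adj e.1 e.2}

/-- The pairs (class of `x`, neighbours of `x` in `R`), for the vertices `x` of `p` outside `R`. -/
def traces (p : PG cls) (R : Set Z) : Set (J × Set Z) :=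
  {t | ∃ x ∈ p.dom, x ∉ R ∧ t = (cls x, p.nb x ∩ R)}

/-- The free amalgam. -/
def am (p q : PG cls) : PG cls where
  dom := p.dom ∪ q.dom
  adj x y := p.adj x y ∨ q.adj x y
  symm := fun h => h.imp p.symm q.symm
  left := fun h => h.imp p.left q.left
  cls_ne := fun h => h.elim p.cls_ne q.cls_ne

theorem am_comm (p q : PG cls) : am p q = am q p := by
  unfold am
  congr 1
  · exact union_comm _ _
  · funext x y
    exact propext or_comm

theorem am_noClique {p q : PG cls} {R : Set Z} (hR : p.dom ∩ q.dom = R)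
    (he : edges p R = edges q R) (hp : NoClique p) (hq : NoClique q) : NoClique (am p q) := by
  intro K hK
  have he' : ∀ x y, x ∈ R → y ∈ R → (p.adj x y ↔ q.adj x y) := by
    intro x y hx hy
    have h1 : (x, y) ∈ edges p R ↔ (x, y) ∈ edges q R := by rw [he]
    exact ⟨fun h => (h1.1 ⟨hx, hy, h⟩).2.2, fun h => (h1.2 ⟨hx, hy, h⟩).2.2⟩
  by_cases hKp : K ⊆ p.dom
  · refine hp K fun x hx y hy hne => ?_
    rcases hK x hx y hy hne with h | h
    · exact h
    · have hxR : x ∈ R := hR ▸ ⟨hKp hx, q.left h⟩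
      have hyR : y ∈ R := hR ▸ ⟨hKp hy, q.right h⟩
      exact (he' x y hxR hyR).2 h
  · by_cases hKq : K ⊆ q.dom
    · refine hq K fun x hx y hy hne => ?_
      rcases hK x hx y hy hne with h | h
      · have hxR : x ∈ R := hR ▸ ⟨p.left h, hKq hx⟩
        have hyR : y ∈ R := hR ▸ ⟨p.right h, hKq hy⟩
        exact (he' x y hxR hyR).1 h
      · exact h
    · obtain ⟨a, haK, hap⟩ := not_subset.1 hKp
      obtain ⟨b, hbK, hbq⟩ := not_subset.1 hKq
      have hab : a = b := by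
        by_contra hne
        rcases hK a haK b hbK hne with h | h
        · exact hap (p.left h)
        · exact hbq (q.right h)
      subst hab
      refine (Set.countable_singleton a).mono fun c hc => ?_
      by_contra hne
      rcases hK c hc a haK hne with h | h
      · exact hap (p.right h)
      · exact hbq (q.right h)

theorem am_le {p q : PG cls} {R : Set Z} (hR : p.dom ∩ q.dom = R)
    (he : edges p R = edges q R) (ht : traces p R = traces q R) : am p q ≤ p := by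
  have he' : ∀ x y, x ∈ R → y ∈ R → (p.adj x y ↔ q.adj x y) := by
    intro x y hx hy
    have h1 : (x, y) ∈ edges p R ↔ (x, y) ∈ edges q R := by rw [he]
    exact ⟨fun h => (h1.1 ⟨hx, hy, h⟩).2.2, fun h => (h1.2 ⟨hx, hy, h⟩).2.2⟩
  refine ⟨subset_union_left, fun {x y} hx hy h => ?_, fun h => Or.inl h, fun x hx hxp => ?_⟩
  · rcases h with h | h
    · exact h
    · exact (he' x y (hR ▸ ⟨hx, q.left h⟩) (hR ▸ ⟨hy, q.right h⟩)).2 h
  · have hxq : x ∈ q.dom := hx.resolve_left hxp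
    have hxR : x ∉ R := by
      rw [← hR]
      exact fun h => hxp h.1
    have h1 : (cls x, q.nb x ∩ R) ∈ traces p R := by
      rw [ht]
      exact ⟨x, hxq, hxR, rfl⟩
    obtain ⟨x', hx', hx'R, heq⟩ := h1
    obtain ⟨h2, h3⟩ := Prod.mk.inj heq
    refine Or.inr ⟨x', hx', h2.symm, ?_⟩
    refine Set.finite_empty.subset ?_
    rintro y ⟨⟨hy1, hy2⟩, hy3⟩
    rcases hy1 with hy1 | hy1
    · exact absurd (p.left hy1) hxp
    · have hyR : y ∈ R := hR ▸ ⟨hy2, q.right hy1⟩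
      have : y ∈ p.nb x' ∩ R := h3 ▸ ⟨hy1, hyR⟩
      exact hy3 this.1

theorem am_isCond {ν : Cardinal.{0}} (hν : ℵ₀ ≤ ν) {p q : PG cls} {R : Set Z}
    (hR : p.dom ∩ q.dom = R) (he : edges p R = edges q R) (hp : IsCond ν p) (hq : IsCond ν q) :
    IsCond ν (am p q) := by
  refine ⟨?_, am_noClique hR he hp.noClique hq.noClique⟩
  exact (Cardinal.mk_union_le _ _).trans (Cardinal.add_le_of_le hν hp.card hq.card)

/-- The amalgam with one additional edge. -/
def ame (q r : PG cls) (y z : Z) (hy : y ∈ q.dom) (hz : z ∈ r.dom) (hc : cls y ≠ cls z) :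
    PG cls where
  dom := q.dom ∪ r.dom
  adj a b := q.adj a b ∨ r.adj a b ∨ (a = y ∧ b = z) ∨ (a = z ∧ b = y)
  symm := by
    rintro a b (h | h | ⟨h1, h2⟩ | ⟨h1, h2⟩)
    · exact Or.inl (q.symm h)
    · exact Or.inr (Or.inl (r.symm h))
    · exact Or.inr (Or.inr (Or.inr ⟨h2, h1⟩))
    · exact Or.inr (Or.inr (Or.inl ⟨h2, h1⟩))
  left := by
    rintro a b (h | h | ⟨h1, -⟩ | ⟨h1, -⟩)
    · exact Or.inl (q.left h)
    · exact Or.inr (r.left h)
    · exact Or.inl (h1 ▸ hy)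
    · exact Or.inr (h1 ▸ hz)
  cls_ne := by
    rintro a b (h | h | ⟨h1, h2⟩ | ⟨h1, h2⟩)
    · exact q.cls_ne h
    · exact r.cls_ne h
    · rw [h1, h2]; exact hc
    · rw [h1, h2]; exact hc.symm

theorem ame_comm (q r : PG cls) (y z : Z) (hy : y ∈ q.dom) (hz : z ∈ r.dom)
    (hc : cls y ≠ cls z) : ame q r y z hy hz hc = ame r q z y hz hy hc.symm := by
  unfold ame
  congr 1
  · exact union_comm _ _
  · funext a b
    refine propext ⟨?_, ?_⟩
    · rintro (h | h | h | h)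
      · exact Or.inr (Or.inl h)
      · exact Or.inl h
      · exact Or.inr (Or.inr (Or.inr h))
      · exact Or.inr (Or.inr (Or.inl h))
    · rintro (h | h | h | h)
      · exact Or.inr (Or.inl h)
      · exact Or.inl h
      · exact Or.inr (Or.inr (Or.inr h))
      · exact Or.inr (Or.inr (Or.inl h))

theorem ame_le {p q r : PG cls} (hq : q ≤ p) (hr : r ≤ p) (hR : q.dom ∩ r.dom = p.dom)
    {y z : Z} (hy : y ∈ q.dom) (hz : z ∈ r.dom) (hc : cls y ≠ cls z) (hyp : y ∉ p.dom)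
    (hzp : z ∉ p.dom) : ame q r y z hy hz hc ≤ q := by
  have hyr : y ∉ r.dom := fun h => hyp (hR ▸ ⟨hy, h⟩)
  have hzq : z ∉ q.dom := fun h => hzp (hR ▸ ⟨h, hz⟩)
  refine ⟨subset_union_left, fun {a b} ha hb h => ?_, fun h => Or.inl h, fun x hx hxq => ?_⟩
  · rcases h with h | h | ⟨h1, h2⟩ | ⟨h1, h2⟩
    · exact h
    · have ha' : a ∈ p.dom := hR ▸ ⟨ha, r.left h⟩
      have hb' : b ∈ p.dom := hR ▸ ⟨hb, r.right h⟩
      exact (le_adj hq ha' hb').2 ((le_adj hr ha' hb').1 h)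
    · exact absurd (h2 ▸ hb) hzq
    · exact absurd (h1 ▸ ha) hzq
  · have hxr : x ∈ r.dom := hx.resolve_left hxq
    have hxp : x ∉ p.dom := fun h => hxq (le_dom hq h)
    have key : (ame q r y z hy hz hc).nb x ∩ q.dom ⊆ (r.nb x ∩ p.dom) ∪ {y} := by
      rintro b ⟨h | h | ⟨h1, h2⟩ | ⟨h1, h2⟩, hb⟩
      · exact absurd (q.left h) hxq
      · exact Or.inl ⟨h, hR ▸ ⟨hb, r.right h⟩⟩
      · exact absurd (h2 ▸ hb) hzq
      · exact Or.inr h2
    rcases Ext.new hr x hxr hxp with h1 | ⟨x', hx', hcx', hfin⟩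
    · exact Or.inl ((h1.union (Set.finite_singleton y)).subset key)
    · refine Or.inr ⟨x', le_dom hq hx', hcx', (hfin.union (Set.finite_singleton y)).subset ?_⟩
      rintro b ⟨hb1, hb2⟩
      rcases key hb1 with h2 | h2
      · exact Or.inl ⟨h2, fun h3 => hb2 (Ext.extend hq h3)⟩
      · exact Or.inr h2

theorem ame_noClique {p q r : PG cls} (hq : q ≤ p) (hr : r ≤ p) (hR : q.dom ∩ r.dom = p.dom)
    {y z : Z} (hy : y ∈ q.dom) (hz : z ∈ r.dom) (hc : cls y ≠ cls z) (hyp : y ∉ p.dom)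
    (hzp : z ∉ p.dom) (hNq : NoClique q) (hNr : NoClique r) :
    NoClique (ame q r y z hy hz hc) := by
  have h1 : ame q r y z hy hz hc ≤ q := ame_le hq hr hR hy hz hc hyp hzp
  have h2 : ame q r y z hy hz hc ≤ r := by
    rw [ame_comm]
    exact ame_le hr hq (by rw [inter_comm]; exact hR) hz hy hc.symm hzp hyp
  intro K hK
  have hcq : (K ∩ q.dom).Countable := by
    refine hNq _ ?_
    rintro a ⟨ha, haq⟩ b ⟨hb, hbq⟩ hne
    exact (le_adj h1 haq hbq).1 (hK a ha b hb hne)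
  have hcr : (K ∩ r.dom).Countable := by
    refine hNr _ ?_
    rintro a ⟨ha, haq⟩ b ⟨hb, hbq⟩ hne
    exact (le_adj h2 haq hbq).1 (hK a ha b hb hne)
  by_cases hsub : K ⊆ q.dom ∪ r.dom
  · refine (hcq.union hcr).mono fun a ha => ?_
    rcases hsub ha with h | h
    · exact Or.inl ⟨ha, h⟩
    · exact Or.inr ⟨ha, h⟩
  · obtain ⟨a, haK, ha⟩ := not_subset.1 hsub
    refine (Set.countable_singleton a).mono fun b hb => ?_
    by_contra hne
    exact ha ((ame q r y z hy hz hc).left (hK a haK b hb (Ne.symm hne)))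

/-- Amalgamation with an additional edge. -/
theorem exists_edge {ν : Cardinal.{0}} (hν : ℵ₀ ≤ ν) {p q r : PG cls} (hq : q ≤ p) (hr : r ≤ p)
    (hR : q.dom ∩ r.dom = p.dom) {y z : Z} (hy : y ∈ q.dom) (hz : z ∈ r.dom)
    (hc : cls y ≠ cls z) (hyp : y ∉ p.dom) (hzp : z ∉ p.dom) (hcq : IsCond ν q)
    (hcr : IsCond ν r) : ∃ s, IsCond ν s ∧ s ≤ q ∧ s ≤ r ∧ s.adj y z := by
  refine ⟨ame q r y z hy hz hc, ⟨?_, ?_⟩, ame_le hq hr hR hy hz hc hyp hzp, ?_,
    Or.inr (Or.inr (Or.inl ⟨rfl, rfl⟩))⟩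
  · exact (Cardinal.mk_union_le _ _).trans (Cardinal.add_le_of_le hν hcq.card hcr.card)
  · exact ame_noClique hq hr hR hy hz hc hyp hzp hcq.noClique hcr.noClique
  · rw [ame_comm]
    exact ame_le hr hq (by rw [inter_comm]; exact hR) hz hy hc.symm hzp hyp

end PG

end Pool.Agent.helper57.SG
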