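import Mathlib

set_option autoImplicit false

/-!
# Closing a set under an operation with infinitely many arguments
-/

open Set Cardinal

namespace Pool.Agent.helper57

/-- Well-founded recursion for families of sets. -/
theorem exists_set_rec {I Z : Type} [LinearOrder I] [WellFoundedLT I]
    (E : Set Z → Set Z) :
    ∃ W : I → Set Z, ∀ k, W k = ⋃ j ∈ Iio k, E (W j) := by
  classical
  let step : (k : I) → ((j : I) → j < k → Set Z) → Set Z := fun k ih =>
    ⋃ j : I, ⋃ h : j < k, E (ih j h)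
  refine ⟨fun k => WellFounded.fix (wellFounded_lt (α := I)) step k, fun k => ?_⟩
  simp only
  rw [WellFounded.fix_eq]
  rfl

/-- A regular cardinal order: subsets of small size are bounded. -/
theorem exists_bound {ν : Cardinal.{0}} (hν : ℵ₀ ≤ ν) (A : Set (Order.succ ν).ord.ToType)
    (hA : #A ≤ ν) : ∃ b, ∀ a ∈ A, a < b := by
  have hcof : Order.cof (Order.succ ν).ord.ToType = Order.succ ν := by
    rw [Ordinal.cof_toType, (Cardinal.isRegular_succ hν).cof_ord]
  have : ¬ IsCofinal A := by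
    intro h
    have h1 := Order.cof_le h
    rw [hcof] at h1
    exact absurd (h1.trans hA) (not_le_of_gt (Order.lt_succ ν))
  exact not_isCofinal_iff.1 this

theorem mk_biUnion_le_of {ι α : Type} {S : Set ι} {A : ι → Set α} {τ : Cardinal.{0}}
    (hω : ℵ₀ ≤ τ) (hS : #S ≤ τ) (h : ∀ i ∈ S, #(A i) ≤ τ) : #(⋃ i ∈ S, A i) ≤ τ := by
  refine (Cardinal.mk_biUnion_le A S).trans ?_
  have h2 : (⨆ x : S, #(A x.1)) ≤ τ := ciSup_le' fun x => h x.1 x.2
  exact (mul_le_mul' hS h2).trans (Cardinal.mul_eq_self hω).le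

theorem mk_iUnion_le_of {ι α : Type} {A : ι → Set α} {τ : Cardinal.{0}}
    (hω : ℵ₀ ≤ τ) (hS : #ι ≤ τ) (h : ∀ i, #(A i) ≤ τ) : #(⋃ i, A i) ≤ τ := by
  refine (Cardinal.mk_iUnion_le A).trans ?_
  have h2 : (⨆ x, #(A x)) ≤ τ := ciSup_le' fun x => h x
  exact (mul_le_mul' hS h2).trans (Cardinal.mul_eq_self hω).le

theorem succ_le_of_pow {ν τ : Cardinal.{0}} (hτ : 2 ≤ τ) (hpow : τ ^ ν ≤ τ) :
    Order.succ ν ≤ τ := by
  refine Order.succ_le_of_lt ?_
  calc ν < 2 ^ ν := Cardinal.cantor ν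
    _ ≤ τ ^ ν := Cardinal.power_le_power_right hτ
    _ ≤ τ := hpow

/-- If `τ ^ ν ≤ τ`, then there is a set of size at most `τ` closed under a given operation on
sets of size at most `ν`. -/
theorem exists_closed {Z : Type} {ν τ : Cardinal.{0}} (hν : ℵ₀ ≤ ν) (hτ : 2 ≤ τ)
    (hpow : τ ^ ν ≤ τ) (C : Set Z → Set Z) (hC : ∀ R : Set Z, #R ≤ ν → #(C R) ≤ τ) :
    ∃ W : Set Z, #W ≤ τ ∧ ∀ R ⊆ W, #R ≤ ν → C R ⊆ W := by
  have hsucc := succ_le_of_pow hτ hpow
  have hντ : ν ≤ τ := (Order.le_succ ν).trans hsucc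
  have hω : ℵ₀ ≤ τ := hν.trans hντ
  let K := (Order.succ ν).ord.ToType
  let E : Set Z → Set Z := fun A => ⋃ R ∈ {R : Set Z | R ⊆ A ∧ #R ≤ ν}, C R
  have hE : ∀ A : Set Z, #A ≤ τ → #(E A) ≤ τ := by
    intro A hA
    have h1 : #{R : Set Z | R ⊆ A ∧ #R ≤ ν} ≤ τ := by
      refine (Cardinal.mk_bounded_subset_le A ν).trans ?_
      refine (Cardinal.power_le_power_right (max_le hA hω)).trans hpow
    exact mk_biUnion_le_of hω h1 fun R hR => hC R hR.2
  obtain ⟨W, hW⟩ := exists_set_rec (I := K) E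
  have hWcard : ∀ k, #(W k) ≤ τ := by
    intro k
    induction k using WellFoundedLT.induction with
    | _ k ih =>
      rw [hW]
      have h1 : #(Iio k) ≤ τ :=
        (Cardinal.mk_set_le _).trans ((Cardinal.mk_ord_toType _).le.trans hsucc)
      exact mk_biUnion_le_of hω h1 fun j hj => hE _ (ih j hj)
  have hmono : ∀ i j, i ≤ j → W i ⊆ W j := by
    intro i j hij
    rw [hW i, hW j]
    exact biUnion_subset_biUnion_left (Iio_subset_Iio hij)
  refine ⟨⋃ k, W k, ?_, fun R hR hRν => ?_⟩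
  · exact mk_iUnion_le_of hω ((Cardinal.mk_ord_toType _).le.trans hsucc) hWcard
  · have h1 : ∀ r : R, ∃ k, (r : Z) ∈ W k := fun r => mem_iUnion.1 (hR r.2)
    choose f hf using h1
    obtain ⟨b, hb⟩ := exists_bound hν (range f) (Cardinal.mk_range_le.trans hRν)
    obtain ⟨c, hc⟩ := exists_bound hν {b} (by
      rw [Cardinal.mk_singleton]
      exact Cardinal.one_le_aleph0.trans hν)
    have hRb : R ⊆ W b := fun r hr => hmono _ _ (hb _ ⟨⟨r, hr⟩, rfl⟩).le (hf ⟨r, hr⟩)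
    have h2 : C R ⊆ W c := by
      rw [hW]
      intro z hz
      refine mem_iUnion₂.2 ⟨b, hc b rfl, ?_⟩
      exact mem_iUnion₂.2 ⟨R, ⟨hRb, hRν⟩, hz⟩
    exact h2.trans (subset_iUnion _ _)

end Pool.Agent.helper57
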