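import Mathlib
import Pool.Agent.helper57.SGAmalg
import Pool.Agent.helper57.SGClosure

set_option autoImplicit false

/-!
# A Δ-system lemma for conditions
-/

open Set Cardinal

namespace Pool.Agent.helper57.SG

variable {Z J : Type} {cls : Z → J}

namespace PG

/-- The type of `p` over `R`. -/
def typ (p : PG cls) (R : Set Z) : Set (Z × Z) × Set (J × Set Z) := (edges p R, traces p R)

theorem mk_setProd_le {α β : Type} {s : Set α} {t : Set β} {τ : Cardinal.{0}} (hω : ℵ₀ ≤ τ)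
    (hs : #s ≤ τ) (ht : #t ≤ τ) : #(s ×ˢ t : Set (α × β)) ≤ τ := by
  rw [Cardinal.mk_congr (Equiv.Set.prod s t), Cardinal.mk_prod]
  simp only [Cardinal.lift_id]
  exact (mul_le_mul' hs ht).trans (Cardinal.mul_eq_self hω).le

theorem card_typ {Y : Type} {ν τ : Cardinal.{0}} (hν : ℵ₀ ≤ ν) (hτ : 2 ≤ τ)
    (hpow : τ ^ ν ≤ τ) (hJ : #J ≤ τ) (p : Y → PG cls) (hp : ∀ y, #(p y).dom ≤ ν) (R : Set Z)
    (hR : #R ≤ ν) : #(range fun y => typ (p y) R) ≤ τ := by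
  have hsucc := succ_le_of_pow hτ hpow
  have hω : ℵ₀ ≤ τ := (hν.trans (Order.le_succ ν)).trans hsucc
  have h2 : (2 : Cardinal.{0}) ^ ν ≤ τ := (Cardinal.power_le_power_right hτ).trans hpow
  have hRR : #(R ×ˢ R : Set (Z × Z)) ≤ ν := mk_setProd_le hν hR hR
  have h3 : #(𝒫 (R ×ˢ R : Set (Z × Z))) ≤ τ := by
    rw [Cardinal.mk_powerset]
    exact (Cardinal.power_le_power_left two_ne_zero hRR).trans h2
  have h4 : #((Set.univ : Set J) ×ˢ 𝒫 R : Set (J × Set Z)) ≤ τ := by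
    refine mk_setProd_le hω ?_ ?_
    · rw [Cardinal.mk_univ]
      exact hJ
    · rw [Cardinal.mk_powerset]
      exact (Cardinal.power_le_power_left two_ne_zero hR).trans h2
  have h5 : #{T : Set (J × Set Z) | T ⊆ (Set.univ : Set J) ×ˢ 𝒫 R ∧ #T ≤ ν} ≤ τ :=
    (Cardinal.mk_bounded_subset_le _ ν).trans
      ((Cardinal.power_le_power_right (max_le h4 hω)).trans hpow)
  have h6 : #((𝒫 (R ×ˢ R : Set (Z × Z))) ×ˢ
      {T : Set (J × Set Z) | T ⊆ (Set.univ : Set J) ×ˢ 𝒫 R ∧ #T ≤ ν} :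
      Set (Set (Z × Z) × Set (J × Set Z))) ≤ τ := mk_setProd_le hω h3 h5
  refine (Cardinal.mk_le_mk_of_subset ?_).trans h6
  rintro _ ⟨y, rfl⟩
  refine ⟨?_, ?_, ?_⟩
  · rintro ⟨a, b⟩ hab
    exact ⟨hab.1, hab.2.1⟩
  · rintro _ ⟨x, _, _, rfl⟩
    exact ⟨mem_univ _, inter_subset_right⟩
  · change #(traces (p y) R) ≤ ν
    have : traces (p y) R ⊆ (fun x => (cls x, (p y).nb x ∩ R)) '' (p y).dom := by
      rintro _ ⟨x, hx, _, rfl⟩
      exact ⟨x, hx, rfl⟩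
    exact (Cardinal.mk_le_mk_of_subset this).trans (Cardinal.mk_image_le.trans (hp y))

/-- Δ-system lemma. -/
theorem delta {Y : Type} {ν τ : Cardinal.{0}} (hν : ℵ₀ ≤ ν) (hτ : 2 ≤ τ)
    (hpow : τ ^ ν ≤ τ) (hJ : #J ≤ τ) (hY : τ < #Y) (p : Y → PG cls)
    (hp : ∀ y, #(p y).dom ≤ ν) : ∃ (R : Set Z) (F : Set Y), ν < #F ∧
      (∀ y ∈ F, R ⊆ (p y).dom) ∧ (∀ y ∈ F, ∀ y' ∈ F, y ≠ y' → (p y).dom ∩ (p y').dom = R) ∧
      ∀ y ∈ F, ∀ y' ∈ F, typ (p y) R = typ (p y') R := by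
  by_contra hcon
  have hsucc := succ_le_of_pow hτ hpow
  have hντ : ν ≤ τ := (Order.le_succ ν).trans hsucc
  have hω : ℵ₀ ≤ τ := hν.trans hντ
  let Fam : Set Z → Set (Z × Z) × Set (J × Set Z) → Set (Set Y) := fun R t =>
    {F | (∀ y ∈ F, R ⊆ (p y).dom ∧ typ (p y) R = t) ∧
      ∀ y ∈ F, ∀ y' ∈ F, y ≠ y' → (p y).dom ∩ (p y').dom = R}
  have hFam : ∀ R t, ∀ F ∈ Fam R t, #F ≤ ν := by
    intro R t F hF
    by_contra hlt
    refine hcon ⟨R, F, not_le.1 hlt, fun y hy => (hF.1 y hy).1, hF.2, fun y hy y' hy' => ?_⟩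
    rw [(hF.1 y hy).2, (hF.1 y' hy').2]
  have hmax : ∀ R t, ∃ M, Maximal (· ∈ Fam R t) M := by
    intro R t
    refine zorn_subset (Fam R t) fun c hc hchain => ?_
    refine ⟨⋃₀ c, ⟨?_, ?_⟩, fun s hs => Set.subset_sUnion_of_mem hs⟩
    · rintro y ⟨s, hs, hy⟩
      exact (hc hs).1 y hy
    · rintro y ⟨s, hs, hy⟩ y' ⟨t, ht, hy'⟩ hne
      rcases hchain.total hs ht with h | h
      · exact (hc ht).2 y (h hy) y' hy' hne
      · exact (hc hs).2 y hy y' (h hy') hne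
  choose M hM using hmax
  have hMF : ∀ R t, M R t ∈ Fam R t := fun R t => (hM R t).1
  have hMc : ∀ R t, #(M R t) ≤ τ := fun R t => (hFam R t _ (hMF R t)).trans hντ
  let C : Set Z → Set Z := fun R =>
    ⋃ t ∈ range (fun y => typ (p y) R), ⋃ y ∈ M R t, (p y).dom
  have hC : ∀ R : Set Z, #R ≤ ν → #(C R) ≤ τ := by
    intro R hR
    refine mk_biUnion_le_of hω (card_typ hν hτ hpow hJ p hp R hR) fun t _ => ?_
    exact mk_biUnion_le_of hω (hMc R t) fun y _ => (hp y).trans hντ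
  obtain ⟨W, hWc, hW⟩ := exists_closed hν hτ hpow C hC
  let YW : Set Y := ⋃ R ∈ {R : Set Z | R ⊆ W ∧ #R ≤ ν},
    ⋃ t ∈ range (fun y => typ (p y) R), M R t
  have hYW : #YW ≤ τ := by
    refine mk_biUnion_le_of hω ?_ fun R hR => ?_
    · exact (Cardinal.mk_bounded_subset_le W ν).trans
        ((Cardinal.power_le_power_right (max_le hWc hω)).trans hpow)
    · exact mk_biUnion_le_of hω (card_typ hν hτ hpow hJ p hp R hR.2) fun t _ => hMc R t
  obtain ⟨y, hy⟩ : ∃ y, y ∉ YW := by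
    by_contra hall
    push Not at hall
    have : YW = Set.univ := eq_univ_of_forall hall
    rw [this, Cardinal.mk_univ] at hYW
    exact absurd hYW (not_le.2 hY)
  set R : Set Z := (p y).dom ∩ W with hRdef
  have hRc : #R ≤ ν := (Cardinal.mk_le_mk_of_subset inter_subset_left).trans (hp y)
  set t := typ (p y) R with ht
  have htR : t ∈ range (fun y => typ (p y) R) := ⟨y, rfl⟩
  have hCW : C R ⊆ W := hW R inter_subset_right hRc
  have hinter : ∀ y' ∈ M R t, (p y').dom ∩ (p y).dom = R := by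
    intro y' hy'
    have h1 : (p y').dom ⊆ W := fun z hz =>
      hCW (mem_iUnion₂.2 ⟨t, htR, mem_iUnion₂.2 ⟨y', hy', hz⟩⟩)
    have h2 : R ⊆ (p y').dom := ((hMF R t).1 y' hy').1
    apply Subset.antisymm
    · exact fun z hz => ⟨hz.2, h1 hz.1⟩
    · exact fun z hz => ⟨h2 hz, hz.1⟩
  have hins : insert y (M R t) ∈ Fam R t := by
    refine ⟨?_, ?_⟩
    · rintro y' (rfl | hy')
      · exact ⟨inter_subset_left, rfl⟩
      · exact (hMF R t).1 y' hy'
    · rintro a (rfl | ha) b (rfl | hb) hne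
      · exact absurd rfl hne
      · rw [inter_comm]
        exact hinter b hb
      · exact hinter a ha
      · exact (hMF R t).2 a ha b hb hne
  have hyM : y ∈ M R t := (hM R t).2 hins (subset_insert _ _) (mem_insert _ _)
  exact hy (mem_iUnion₂.2 ⟨R, ⟨inter_subset_right, hRc⟩, mem_iUnion₂.2 ⟨t, htR, hyM⟩⟩)

end PG

end Pool.Agent.helper57.SG
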