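import Mathlib
import Pool.Agent.helper57.SGDelta

set_option autoImplicit false

/-!
# Chain condition, and names for large independent sets
-/

open Set Cardinal

namespace Pool.Agent.helper57.SG

variable {Z J : Type} {cls : Z → J}

namespace PG

/-- Add isolated vertices. -/
def addV (p : PG cls) (A : Set Z) : PG cls where
  dom := p.dom ∪ A
  adj := p.adj
  symm := p.symm
  left := fun h => Or.inl (p.left h)
  cls_ne := p.cls_ne

theorem addV_le (p : PG cls) (A : Set Z) : addV p A ≤ p := by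
  refine ⟨subset_union_left, fun _ _ h => h, fun h => h, fun x _ hxp => Or.inl ?_⟩
  refine Set.finite_empty.subset ?_
  rintro y ⟨hy, -⟩
  exact hxp (p.left hy)

theorem addV_isCond {ν : Cardinal.{0}} (hν : ℵ₀ ≤ ν) {p : PG cls} (hp : IsCond ν p) {A : Set Z}
    (hA : #A ≤ ν) : IsCond ν (addV p A) :=
  ⟨(Cardinal.mk_union_le _ _).trans (Cardinal.add_le_of_le hν hp.card hA), hp.noClique⟩

end PG

theorem Cond.exists_dom {ν : Cardinal.{0}} (hν : ℵ₀ ≤ ν) (p : Cond cls ν) (A : Set Z)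
    (hA : #A ≤ ν) : ∃ q ≤ p, A ⊆ q.1.dom :=
  ⟨⟨PG.addV p.1 A, PG.addV_isCond hν p.2 hA⟩, PG.addV_le p.1 A, subset_union_right⟩

/-- The chain condition. -/
theorem Cond.cc {Y : Type} {ν τ : Cardinal.{0}} (hν : ℵ₀ ≤ ν) (hτ : 2 ≤ τ)
    (hpow : τ ^ ν ≤ τ) (hJ : #J ≤ τ) (hY : τ < #Y) (p : Y → Cond cls ν) :
    ∃ y y', y ≠ y' ∧ ∃ r, r ≤ p y ∧ r ≤ p y' := by
  obtain ⟨R, F, hF, hRF, hdelta, htyp⟩ :=
    PG.delta hν hτ hpow hJ hY (fun y => (p y).1) (fun y => (p y).2.card)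
  obtain ⟨y, hy, y', hy', hne⟩ : ∃ y ∈ F, ∃ y' ∈ F, y ≠ y' := by
    by_contra hcon
    push Not at hcon
    have hsub : F.Subsingleton := fun a ha b hb => hcon a ha b hb
    have h1 : #F ≤ 1 := Cardinal.mk_le_one_iff_set_subsingleton.2 hsub
    exact absurd (hF.trans_le h1) (not_lt_of_ge (Cardinal.one_le_aleph0.trans hν))
  have h1 := hdelta y hy y' hy' hne
  have h2 := htyp y hy y' hy'
  have he : PG.edges (p y).1 R = PG.edges (p y').1 R := congrArg Prod.fst h2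
  have ht : PG.traces (p y).1 R = PG.traces (p y').1 R := congrArg Prod.snd h2
  refine ⟨y, y', hne, ⟨PG.am (p y).1 (p y').1, PG.am_isCond hν h1 he (p y).2 (p y').2⟩, ?_, ?_⟩
  · exact PG.am_le h1 he ht
  · change PG.am (p y).1 (p y').1 ≤ (p y').1
    rw [PG.am_comm]
    exact PG.am_le (by rw [inter_comm]; exact h1) he.symm ht.symm

/-- A name for an independent set of full size cannot exist. -/
theorem Cond.exists_adj {ν τ : Cardinal.{0}} (hν : ℵ₀ ≤ ν) (hτ : 2 ≤ τ)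
    (hpow : τ ^ ν ≤ τ) (hJ : #J ≤ τ) (hτZ : τ < #Z) (hcls : ∀ i, #{z | cls z = i} < #Z)
    (W : Z → Cond cls ν → Prop) (hW : ∀ y p q, q ≤ p → W y p → W y q) (p₀ : Cond cls ν)
    (hbig : ∀ p ≤ p₀, #Z ≤ #{y | ∃ q ≤ p, W y q}) :
    ∃ q ≤ p₀, ∃ y z, W y q ∧ W z q ∧ q.1.adj y z := by
  have hsucc := succ_le_of_pow hτ hpow
  have hντ : ν ≤ τ := (Order.le_succ ν).trans hsucc
  have hω : ℵ₀ ≤ τ := hν.trans hντ
  -- a class with many possible elements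
  obtain ⟨i, hi⟩ : ∃ i, τ < #{y | (∃ q ≤ p₀, W y q) ∧ cls y = i} := by
    by_contra hcon
    push Not at hcon
    have h1 : {y | ∃ q ≤ p₀, W y q} ⊆ ⋃ i, {y | (∃ q ≤ p₀, W y q) ∧ cls y = i} :=
      fun y hy => mem_iUnion.2 ⟨cls y, hy, rfl⟩
    have h2 := (hbig p₀ le_rfl).trans ((Cardinal.mk_le_mk_of_subset h1).trans
      (mk_iUnion_le_of hω hJ hcon))
    exact absurd h2 (not_le.2 hτZ)
  have hq : ∀ y : {y | (∃ q ≤ p₀, W y q) ∧ cls y = i}, ∃ q ≤ p₀, W y.1 q ∧ y.1 ∈ q.1.dom := by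
    rintro ⟨y, ⟨q, hq, hWq⟩, hy⟩
    obtain ⟨q', hq', hdom⟩ := Cond.exists_dom hν q {y} (by
      rw [Cardinal.mk_singleton]
      exact Cardinal.one_le_aleph0.trans hν)
    exact ⟨q', hq'.trans hq, hW y q q' hq' hWq, hdom rfl⟩
  choose q hqp hqW hqdom using hq
  obtain ⟨R, F, hF, hRF, hdelta, htyp⟩ :=
    PG.delta hν hτ hpow hJ hi (fun y => (q y).1) (fun y => (q y).2.card)
  obtain ⟨y₀, hy₀⟩ : F.Nonempty := by
    rw [Set.nonempty_iff_ne_empty]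
    rintro rfl
    rw [Cardinal.mk_eq_zero] at hF
    exact absurd hF (not_lt_of_ge bot_le)
  have hRc : #R ≤ ν := (Cardinal.mk_le_mk_of_subset (hRF y₀ hy₀)).trans (q y₀).2.card
  have hZω : ℵ₀ ≤ #Z := hω.trans hτZ.le
  -- an element `z` of another class
  obtain ⟨z, ⟨r₀, hr₀, hr₀W⟩, hzi, hzd⟩ : ∃ z, (∃ r ≤ q y₀, W z r) ∧ cls z ≠ i ∧
      z ∉ (q y₀).1.dom := by
    by_contra hcon
    push Not at hcon
    have h1 : {y | ∃ r ≤ q y₀, W y r} ⊆ {z | cls z = i} ∪ (q y₀).1.dom := by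
      intro z hz
      by_cases hzi : cls z = i
      · exact Or.inl hzi
      · exact Or.inr (hcon z hz hzi)
    have h2 := (hbig (q y₀) (hqp y₀)).trans ((Cardinal.mk_le_mk_of_subset h1).trans
      (Cardinal.mk_union_le _ _))
    refine absurd h2 (not_le.2 (Cardinal.add_lt_of_lt hZω (hcls i) ?_))
    exact ((q y₀).2.card.trans hντ).trans_lt hτZ
  obtain ⟨r, hr, hrz⟩ := Cond.exists_dom hν r₀ {z} (by
      rw [Cardinal.mk_singleton]
      exact Cardinal.one_le_aleph0.trans hν)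
  have hrW : W z r := hW z r₀ r hr hr₀W
  have hr₁ : r ≤ q y₀ := hr.trans hr₀
  -- choose `y` avoiding `r`
  obtain ⟨y, hyF, hyy₀, hyR, hydis⟩ : ∃ y ∈ F, y ≠ y₀ ∧ y.1 ∉ R ∧
      ∀ x ∈ (q y).1.dom, x ∈ r.1.dom → x ∈ R := by
    by_contra hcon
    push Not at hcon
    have h1 : F ⊆ {y₀} ∪ (Subtype.val ⁻¹' R ∪
        {y | y ∈ F ∧ ∃ x ∈ (q y).1.dom, x ∈ r.1.dom ∧ x ∉ R}) := by
      intro y hy
      by_cases h1 : y = y₀
      · exact Or.inl h1
      · by_cases h2 : y.1 ∈ R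
        · exact Or.inr (Or.inl h2)
        · exact Or.inr (Or.inr ⟨hy, hcon y hy h1 h2⟩)
    have h2 : #{y | y ∈ F ∧ ∃ x ∈ (q y).1.dom, x ∈ r.1.dom ∧ x ∉ R} ≤ ν := by
      have hch : ∀ y : {y | y ∈ F ∧ ∃ x ∈ (q y).1.dom, x ∈ r.1.dom ∧ x ∉ R},
          ∃ x : r.1.dom, (x : Z) ∈ (q y.1).1.dom ∧ (x : Z) ∉ R := by
        rintro ⟨y, hy, x, hx1, hx2, hx3⟩
        exact ⟨⟨x, hx2⟩, hx1, hx3⟩
      choose g hg1 hg2 using hch
      have hinj : Function.Injective g := by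
        intro a b hab
        by_contra hne
        have hne' : a.1 ≠ b.1 := fun h => hne (Subtype.ext h)
        have h3 := hdelta a.1 a.2.1 b.1 b.2.1 hne'
        exact hg2 a (h3 ▸ ⟨hg1 a, hab ▸ hg1 b⟩)
      exact (Cardinal.mk_le_of_injective hinj).trans r.2.card
    have h3 : #(Subtype.val ⁻¹' R : Set {y | (∃ q ≤ p₀, W y q) ∧ cls y = i}) ≤ ν :=
      (Cardinal.mk_preimage_of_injective _ _ Subtype.val_injective).trans hRc
    have h4 : #({y₀} : Set {y | (∃ q ≤ p₀, W y q) ∧ cls y = i}) ≤ ν := by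
      rw [Cardinal.mk_singleton]
      exact Cardinal.one_le_aleph0.trans hν
    have h5 := (Cardinal.mk_le_mk_of_subset h1).trans ((Cardinal.mk_union_le _ _).trans
      (Cardinal.add_le_of_le hν h4 ((Cardinal.mk_union_le _ _).trans
        (Cardinal.add_le_of_le hν h3 h2))))
    exact absurd h5 (not_le.2 hF)
  have h1 := hdelta y hyF y₀ hy₀ hyy₀
  have h2 := htyp y hyF y₀ hy₀
  have he : PG.edges (q y).1 R = PG.edges (q y₀).1 R := congrArg Prod.fst h2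
  have ht : PG.traces (q y).1 R = PG.traces (q y₀).1 R := congrArg Prod.snd h2
  have hac := PG.am_isCond hν h1 he (q y).2 (q y₀).2
  have ha1 : PG.am (q y).1 (q y₀).1 ≤ (q y).1 := PG.am_le h1 he ht
  have ha2 : PG.am (q y).1 (q y₀).1 ≤ (q y₀).1 := by
    rw [PG.am_comm]
    exact PG.am_le (by rw [inter_comm]; exact h1) he.symm ht.symm
  have hdom : (PG.am (q y).1 (q y₀).1).dom ∩ r.1.dom = (q y₀).1.dom := by
    apply Subset.antisymm
    · rintro x ⟨hx1 | hx1, hx2⟩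
      · exact hRF y₀ hy₀ (hydis x hx1 hx2)
      · exact hx1
    · exact fun x hx => ⟨Or.inr hx, PG.le_dom hr₁ hx⟩
  have hyc : cls y.1 ≠ cls z := by
    rw [y.2.2]
    exact hzi.symm
  obtain ⟨s, hs, hs1, hs2, hs3⟩ := PG.exists_edge hν ha2 hr₁ hdom (y := y.1) (z := z)
    (Or.inl (hqdom y)) (hrz rfl) hyc (fun h => hyR (h1 ▸ ⟨hqdom y, h⟩)) hzd hac r.2
  have hsy : (⟨s, hs⟩ : Cond cls ν) ≤ q y := by
    change s ≤ (q y).1
    exact hs1.trans ha1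
  refine ⟨⟨s, hs⟩, hsy.trans (hqp y), y.1, z, ?_, ?_, hs3⟩
  · exact hW y.1 (q y) ⟨s, hs⟩ hsy (hqW y)
  · exact hW z r ⟨s, hs⟩ hs2 hrW

end Pool.Agent.helper57.SG
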