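import Mathlib
import Pool.Agent.helper57.SGMain
import Pool.Agent.helper57.Fc.Card

set_option autoImplicit false

/-!
# The generic graph
-/

open Set Cardinal FirstOrder FirstOrder.Language

namespace Pool.Agent.helper57.SG

open Pool.Agent.helper57.Fc

variable {κ : Ordinal.{0}} {J : Type} {cls : κ.ToType → J} {ν : Cardinal.{0}}

/-- The name of the generic graph: the set of all pairs `{x, y}` adjacent in some condition in the
generic filter. -/
noncomputable def gN (cls : κ.ToType → J) (ν : Cardinal.{0}) : Name (Cond cls ν) :=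
  .mk {t : (κ.ToType × κ.ToType) × Cond cls ν // t.2.1.adj t.1.1 t.1.2}
    (fun t => upN (oN _ (ord t.1.1.1)) (oN _ (ord t.1.1.2))) (fun t => t.1.2)

theorem mem_gN {x y : κ.ToType} {p : Cond cls ν} :
    ForcesMem (upN (oN _ (ord x)) (oN _ (ord y))) (gN cls ν) p ↔
      ∀ q ≤ p, ∃ r ≤ q, r.1.adj x y := by
  constructor
  · intro h q hq
    obtain ⟨r, hr, ⟨⟨⟨x', y'⟩, q'⟩, hadj⟩, hle, heq⟩ := h q hq
    have hle' : r ≤ q' := hle
    have hadj' : q'.1.adj x' y' := hadj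
    obtain ⟨s, hs, h1⟩ := upN_inj heq
    have hs' : s.1.adj x' y' := PG.Ext.extend (hs.trans hle') hadj'
    refine ⟨s, hs.trans hr, ?_⟩
    simp only [oN_eq_oN, Fc.ord_inj] at h1
    rcases h1 with ⟨h2, h3⟩ | ⟨h2, h3⟩
    · rw [h2, h3]
      exact hs'
    · rw [h2, h3]
      exact s.1.symm hs'
  · intro h q hq
    obtain ⟨r, hr, h1⟩ := h q hq
    exact ⟨r, hr, ⟨((x, y), r), h1⟩, le_rfl, ForcesEq.refl _ _⟩

theorem adj_of_mem_gN {x y : κ.ToType} {p : Cond cls ν} (hx : x ∈ p.1.dom) (hy : y ∈ p.1.dom)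
    (h : ForcesMem (upN (oN _ (ord x)) (oN _ (ord y))) (gN cls ν) p) : p.1.adj x y := by
  obtain ⟨r, hr, h1⟩ := mem_gN.1 h p le_rfl
  exact (PG.le_adj hr hx hy).1 h1

theorem mem_gN_of_adj {x y : κ.ToType} {p : Cond cls ν} (h : p.1.adj x y) :
    ForcesMem (upN (oN _ (ord x)) (oN _ (ord y))) (gN cls ν) p :=
  mem_gN.2 fun q hq => ⟨q, le_rfl, PG.Ext.extend hq h⟩

section General

variable {P : Type} [Preorder P] [OrderTop P] {p : P}

theorem FFun_mono_right {f a b b' : Name P} (h : FFun f a b p)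
    (hb : ∀ z, ∀ q ≤ p, ForcesMem z b q → ForcesMem z b' q) : FFun f a b' p := by
  refine ⟨fun z q hq hz r hr => ?_, fun x q hq hx r hr => ?_, h.func⟩
  · obtain ⟨s, hs, x, y, hx, hy, h1⟩ := h.graph z q hq hz r hr
    exact ⟨s, hs, x, y, hx, hb y s ((hs.trans hr).trans hq) hy, h1⟩
  · obtain ⟨s, hs, y, hy, h1⟩ := h.total x q hq hx r hr
    exact ⟨s, hs, y, hb y s ((hs.trans hr).trans hq) hy, h1⟩

theorem FFun_val_mem {f a b x y : Name P} (h : FFun f a b p) {q : P} (hq : q ≤ p)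
    (hxy : ForcesMem (opN x y) f q) : ForcesMem y b q := by
  refine (ForcesMem.reg _ _).dense fun r hr => ?_
  obtain ⟨s, hs, x', y', -, hy', h1⟩ := h.graph _ q hq hxy r hr
  exact ⟨s, hs, hy'.congr_left (opN_inj.1 h1).2.symm⟩

end General

/-- The generic graph has no uncountable clique. -/
theorem no_clique {l : Ordinal.{0}} (hl : ℵ₀ < l.card) (hlν : l.card ≤ ν) (hν : ℵ₀ ≤ ν)
    {H f : Name (Cond cls ν)} {p : Cond cls ν} (hd : Dist (Cond cls ν) ν)
    (hH : ∀ z, ∀ q ≤ p, ForcesMem z H q → ForcesMem z (oN _ κ) q)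
    (hf : FFun f (oN _ l) H p) (hinj : FInj f p)
    (hG : ∀ x y, ∀ q ≤ p, ForcesMem x H q → ForcesMem y H q → (∀ r ≤ q, ¬ ForcesEq x y r) →
      ForcesMem (upN x y) (gN cls ν) q) : False := by
  have hf' : FFun f (oN _ l) (oN _ κ) p := FFun_mono_right hf hH
  obtain ⟨q, hq, g, hg⟩ := hf'.ground hd hlν
  have hginj : Function.Injective g := by
    intro i j hij
    have h1 := hinj _ _ _ q hq (hg i) (by rw [hij]; exact hg j)
    rw [oN_eq_oN, Fc.ord_inj] at h1
    exact h1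
  have hgH : ∀ i, ForcesMem (oN _ (ord (g i))) H q := fun i => FFun_val_mem hf hq (hg i)
  obtain ⟨r, hr, hdom⟩ := Cond.exists_dom hν q (range g)
    (Cardinal.mk_range_le.trans (by rw [Cardinal.mk_toType]; exact hlν))
  have hc := r.2.noClique (range g) (by
    rintro _ ⟨i, rfl⟩ _ ⟨j, rfl⟩ hne
    refine adj_of_mem_gN (hdom ⟨i, rfl⟩) (hdom ⟨j, rfl⟩) ?_
    refine hG _ _ r (hr.trans hq) ((hgH i).mono hr) ((hgH j).mono hr) fun s _ h => hne ?_
    rw [oN_eq_oN, Fc.ord_inj] at h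
    exact h)
  have h1 : #(range g) = l.card := by
    rw [Cardinal.mk_range_eq g hginj, Cardinal.mk_toType]
  have h2 := Cardinal.mk_le_aleph0_iff.2 hc.to_subtype
  rw [h1] at h2
  exact absurd h2 (not_le.2 hl)

/-- The generic graph has no independent set of full size. -/
theorem no_indep {τ c : Cardinal.{0}} (hκ : κ = c.ord) (hν : ℵ₀ ≤ ν) (hτ : 2 ≤ τ)
    (hpow : τ ^ ν ≤ τ) (hJ : #J ≤ τ) (hτc : τ < c) (hcls : ∀ i, #{z | cls z = i} < c)
    {H f : Name (Cond cls ν)} {p : Cond cls ν}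
    (hH : ∀ z, ∀ q ≤ p, ForcesMem z H q → ForcesMem z (oN _ κ) q)
    (hf : FFun f (oN _ κ) H p) (hinj : FInj f p)
    (hG : ∀ x y, ∀ q ≤ p, ForcesMem x H q → ForcesMem y H q → (∀ r ≤ q, ¬ ForcesEq x y r) →
      ∀ r ≤ q, ¬ ForcesMem (upN x y) (gN cls ν) r) : False := by
  have hsucc := succ_le_of_pow hτ hpow
  have hω : ℵ₀ ≤ c := (hν.trans ((Order.le_succ ν).trans hsucc)).trans hτc.le
  have hf' : FFun f (oN _ κ) (oN _ κ) p := FFun_mono_right hf hH
  have hZ : #κ.ToType = c := by rw [hκ]; exact Cardinal.mk_ord_toType c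
  have hbig : ∀ q ≤ p, #κ.ToType ≤ #{y : κ.ToType | ∃ r ≤ q, ForcesMem (oN _ (ord y)) H r} := by
    intro q hq
    by_contra hlt
    rw [hZ, not_le] at hlt
    have hcov : (Set.univ : Set κ.ToType) ⊆
        ⋃ y : {y : κ.ToType | ∃ r ≤ q, ForcesMem (oN _ (ord y)) H r},
          {i : κ.ToType | ∃ r ≤ q, ForcesMem (opN (oN _ (ord i)) (oN _ (ord y.1))) f r} := by
      intro i _
      obtain ⟨r, hr, j, hj⟩ := hf'.decide i hq
      exact Set.mem_iUnion.2 ⟨⟨j, r, hr, FFun_val_mem hf (hr.trans hq) hj⟩, r, hr, hj⟩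
    have h1 := (Cardinal.mk_le_mk_of_subset hcov).trans (Cardinal.mk_iUnion_le _)
    rw [Cardinal.mk_univ, hZ] at h1
    have h2 : (⨆ y : {y : κ.ToType | ∃ r ≤ q, ForcesMem (oN (Cond cls ν) (ord y)) H r},
        #{i : κ.ToType | ∃ r ≤ q, ForcesMem (opN (oN _ (ord i)) (oN _ (ord y.1))) f r}) ≤ τ := by
      refine ciSup_le' fun y => ?_
      by_contra hcon
      have hch : ∀ i : {i : κ.ToType | ∃ r ≤ q,
          ForcesMem (opN (oN _ (ord i)) (oN _ (ord y.1))) f r},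
        ∃ r ≤ q, ForcesMem (opN (oN _ (ord i.1)) (oN _ (ord y.1))) f r := fun i => i.2
      choose r hr hrf using hch
      obtain ⟨i, i', hne, s, hs, hs'⟩ := Cond.cc hν hτ hpow hJ (not_le.1 hcon) r
      have h1 := hinj _ _ _ s ((hs.trans (hr i)).trans hq) ((hrf i).mono hs) ((hrf i').mono hs')
      rw [oN_eq_oN, Fc.ord_inj] at h1
      exact hne (Subtype.ext h1)
    have h3 := Cardinal.mul_lt_of_lt hω hlt hτc
    exact absurd (h1.trans (mul_le_mul' le_rfl h2)) (not_le.2 h3)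
  obtain ⟨q, hq, y, z, h1, h2, h3⟩ := Cond.exists_adj hν hτ hpow hJ (by rw [hZ]; exact hτc)
    (by rw [hZ]; exact hcls) (fun y q => ForcesMem (oN _ (ord y)) H q)
    (fun y p q hq h => h.mono hq) p hbig
  refine hG _ _ q hq h1 h2 (fun r _ h => ?_) q le_rfl (mem_gN_of_adj h3)
  rw [oN_eq_oN, Fc.ord_inj] at h
  exact q.1.ne h3 h

/-- The generic graph is a counterexample to `κ → (κ, l)²`. -/
theorem fo_not_arrow {τ c : Cardinal.{0}} (hκ : κ = c.ord) (hν : ℵ₀ ≤ ν) (hτ : 2 ≤ τ)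
    (hpow : τ ^ ν ≤ τ) (hJ : #J ≤ τ) (hτc : τ < c) (hcls : ∀ i, #{z | cls z = i} < c)
    {l : Ordinal.{0}} (hl : ℵ₀ < l.card) (hlν : l.card ≤ ν) (hd : Dist (Cond cls ν) ν)
    {n : ℕ} {xs : Fin n → Name (Cond cls ν)} {i j : Fin n} (hi : xs i = oN _ κ)
    (hj : xs j = oN _ l) (p : Cond cls ν) : Fo (∼(fArrow i i j)) xs p := by
  unfold fArrow
  rw [fo_not]
  intro q _ h
  rw [fo_all] at h
  have h1 := h (gN cls ν)
  rw [fo_or] at h1
  obtain ⟨r, _, h2 | h2⟩ := h1 q le_rfl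
  · rw [fo_ex] at h2
    obtain ⟨s, _, H, h3⟩ := h2 r le_rfl
    rw [fo_and, fo_and] at h3
    obtain ⟨h4, h5, h6⟩ := h3
    rw [fo_equip] at h5
    simp only [sn_up, sn_nw] at h5
    rw [hi] at h5
    obtain ⟨t, ht, f, hf1, hf2, -⟩ := h5 s le_rfl
    refine no_indep hκ hν hτ hpow hJ hτc hcls (H := H) (f := f) (p := t) ?_ hf1 hf2 ?_
    · intro z u hu hz
      rw [fo_ball] at h4
      have := h4 z u (hu.trans ht) (by rw [sn_nw]; exact hz)
      rw [fo_mem] at this
      simp only [sn_up, sn_nw] at this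
      rw [hi] at this
      exact this
    · intro x y u hu hx hy hne v hv hmem
      rw [fo_ball] at h6
      have h7 := h6 x u (hu.trans ht) (by rw [sn_nw]; exact hx)
      rw [fo_ball] at h7
      have h8 := h7 y u le_rfl (by rw [sn_up, sn_nw]; exact hy)
      rw [fo_imp] at h8
      have h9 := h8 u le_rfl (by
        rw [fo_not]
        intro w hw
        rw [fo_eq]
        simp only [sn_up, sn_nw]
        exact hne w hw)
      rw [fo_not] at h9
      refine h9 v hv ?_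
      rw [fo_pr]
      simp only [sn_up, sn_nw]
      exact hmem
  · rw [fo_ex] at h2
    obtain ⟨s, _, H, h3⟩ := h2 r le_rfl
    rw [fo_and, fo_and] at h3
    obtain ⟨h4, h5, h6⟩ := h3
    rw [fo_equip] at h5
    simp only [sn_up, sn_nw] at h5
    rw [hj] at h5
    obtain ⟨t, ht, f, hf1, hf2, -⟩ := h5 s le_rfl
    refine no_clique hl hlν hν (H := H) (f := f) (p := t) hd ?_ hf1 hf2 ?_
    · intro z u hu hz
      rw [fo_ball] at h4
      have := h4 z u (hu.trans ht) (by rw [sn_nw]; exact hz)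
      rw [fo_mem] at this
      simp only [sn_up, sn_nw] at this
      rw [hi] at this
      exact this
    · intro x y u hu hx hy hne
      rw [fo_ball] at h6
      have h7 := h6 x u (hu.trans ht) (by rw [sn_nw]; exact hx)
      rw [fo_ball] at h7
      have h8 := h7 y u le_rfl (by rw [sn_up, sn_nw]; exact hy)
      rw [fo_imp] at h8
      have h9 := h8 u le_rfl (by
        rw [fo_not]
        intro w hw
        rw [fo_eq]
        simp only [sn_up, sn_nw]
        exact hne w hw)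
      rw [fo_pr] at h9
      simp only [sn_up, sn_nw] at h9
      exact h9

end Pool.Agent.helper57.SG
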