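import Mathlib
import Pool.Agent.helper57.SGClosure

set_option autoImplicit false

/-!
# Cardinal arithmetic and a partition theorem in the ground model
-/

open Set Cardinal Ordinal

namespace Pool.Agent.helper57

section Part

/-- `μ = (2^ℵ₀)⁺`. -/
noncomputable def muC : Cardinal.{0} := Order.succ (2 ^ ℵ₀)

theorem aleph0_le_two_pow : (ℵ₀ : Cardinal.{0}) ≤ 2 ^ (ℵ₀ : Cardinal.{0}) :=
  (Cardinal.cantor ℵ₀).le

theorem two_pow_pow : ((2 : Cardinal.{0}) ^ (ℵ₀ : Cardinal.{0})) ^ (ℵ₀ : Cardinal.{0}) ≤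
    2 ^ (ℵ₀ : Cardinal.{0}) := by
  rw [← Cardinal.power_mul, Cardinal.aleph0_mul_aleph0]

theorem two_le_two_pow : (2 : Cardinal.{0}) ≤ 2 ^ (ℵ₀ : Cardinal.{0}) :=
  (Cardinal.natCast_le_aleph0 (n := 2)).trans aleph0_le_two_pow

/-- A strictly smaller initial segment. -/
theorem mk_Iio_le {ν : Cardinal.{0}} (γ : (Order.succ ν).ord.ToType) : #(Iio γ) ≤ ν := by
  have := Cardinal.mk_Iio_lt γ (by rw [Cardinal.mk_ord_toType, Ordinal.type_toType])
  rw [Cardinal.mk_ord_toType] at this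
  exact Order.lt_succ_iff.1 this

/-- `(2^ℵ₀)⁺ → ((2^ℵ₀)⁺, ℵ₁)²`: a graph on `(2^ℵ₀)⁺` without uncountable cliques has an
independent set of full size. -/
theorem exists_indep (g : muC.ord.ToType → muC.ord.ToType → Prop)
    (hg : ∀ x y, g x y → g y x)
    (hcl : ∀ C : Set muC.ord.ToType, (∀ x ∈ C, ∀ y ∈ C, x ≠ y → g x y) → C.Countable) :
    ∃ H : Set muC.ord.ToType, #H = muC ∧ ∀ x ∈ H, ∀ y ∈ H, x ≠ y → ¬ g x y := by
  classical
  have hb : ∀ A : Set muC.ord.ToType, #A ≤ 2 ^ (ℵ₀ : Cardinal.{0}) → ∃ b, ∀ a ∈ A, a < b :=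
    fun A hA => exists_bound aleph0_le_two_pow A hA
  -- maximal cliques below `α`
  have hM : ∀ α, ∃ M, Maximal (· ∈ {C : Set muC.ord.ToType | C ⊆ Iio α ∧
      (∀ x ∈ C, ∀ y ∈ C, x ≠ y → g x y) ∧ ∀ x ∈ C, g x α}) M := by
    intro α
    refine zorn_subset _ fun c hc hchain => ?_
    refine ⟨⋃₀ c, ⟨Set.sUnion_subset fun s hs => (hc hs).1, ?_, ?_⟩, fun s hs =>
      Set.subset_sUnion_of_mem hs⟩
    · rintro x ⟨s, hs, hx⟩ y ⟨t, ht, hy⟩ hne
      rcases hchain.total hs ht with h | h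
      · exact (hc ht).2.1 x (h hx) y hy hne
      · exact (hc hs).2.1 x hx y (h hy) hne
    · rintro x ⟨s, hs, hx⟩
      exact (hc hs).2.2 x hx
  choose M hM using hM
  have hMc : ∀ α, (M α).Countable := fun α => hcl _ (hM α).1.2.1
  let S : Set muC.ord.ToType := {α | ∀ C ⊆ Iio α, C.Countable → ∃ b < α, ∀ x ∈ C, x < b}
  -- pressing down
  obtain ⟨γ, hγ⟩ : ∃ γ, ∀ b, ∃ α, b < α ∧ α ∈ S ∧ M α ⊆ Iio γ := by
    by_contra hcon
    push Not at hcon
    choose h hh using hcon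
    have hbnd : ∀ R : Set muC.ord.ToType, #R ≤ ℵ₀ → ∃ b, ∀ x ∈ R, x < b ∧ h x < b := by
      intro R hR
      obtain ⟨b, hb'⟩ := hb (R ∪ h '' R) ((Cardinal.mk_union_le _ _).trans
        (Cardinal.add_le_of_le aleph0_le_two_pow (hR.trans aleph0_le_two_pow)
          ((Cardinal.mk_image_le.trans hR).trans aleph0_le_two_pow)))
      exact ⟨b, fun x hx => ⟨hb' x (Or.inl hx), hb' _ (Or.inr ⟨x, hx, rfl⟩)⟩⟩
    have : Nonempty muC.ord.ToType := ⟨(hbnd ∅ (by simp)).choose⟩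
    choose! bnd hbnd using hbnd
    obtain ⟨W, hWc, hW⟩ := exists_closed le_rfl two_le_two_pow two_pow_pow
      (fun R : Set muC.ord.ToType => {bnd R}) (fun R _ => by
        rw [Cardinal.mk_singleton]
        exact Cardinal.one_le_aleph0.trans aleph0_le_two_pow)
    obtain ⟨b₀, hb₀⟩ := hb W hWc
    obtain ⟨α, hα, hαmin⟩ := WellFounded.has_min (wellFounded_lt (α := muC.ord.ToType))
      {b | ∀ w ∈ W, w < b} ⟨b₀, hb₀⟩
    have hlt : ∀ x < α, ∃ w ∈ W, x ≤ w := by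
      intro x hx
      by_contra hcon
      push Not at hcon
      exact hαmin x hcon hx
    have hαS : α ∈ S := by
      intro C hC hCc
      have : ∀ x ∈ C, ∃ w ∈ W, x ≤ w := fun x hx => hlt x (hC hx)
      choose! w hwW hw using this
      have h1 : #(w '' C) ≤ ℵ₀ := Cardinal.mk_image_le.trans
        (Cardinal.mk_le_aleph0_iff.2 hCc.to_subtype)
      have h2 : bnd (w '' C) ∈ W := hW (w '' C) (by rintro _ ⟨x, hx, rfl⟩; exact hwW x hx) h1 rfl
      exact ⟨bnd (w '' C), hα _ h2, fun x hx =>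
        (hw x hx).trans_lt (hbnd _ h1 _ ⟨x, hx, rfl⟩).1⟩
    obtain ⟨γ, hγα, hγ⟩ := hαS (M α) (hM α).1.1 (hMc α)
    obtain ⟨w, hwW, hγw⟩ := hlt γ hγα
    have h1 : #({w} : Set muC.ord.ToType) ≤ ℵ₀ := by
      rw [Cardinal.mk_singleton]
      exact Cardinal.one_le_aleph0
    have h2 : bnd {w} ∈ W := hW {w} (by simpa using hwW) h1 rfl
    have h3 : h w < α := ((hbnd _ h1 w rfl).2).trans (hα _ h2)
    exact hh w α h3 hαS fun x hx => (hγ x hx).trans_le hγw
  let T : Set muC.ord.ToType := {α | γ < α ∧ M α ⊆ Iio γ}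
  have hT : ¬ #T ≤ 2 ^ (ℵ₀ : Cardinal.{0}) := by
    intro hT
    obtain ⟨b, hb'⟩ := hb T hT
    obtain ⟨α, h1, -, h2⟩ := hγ (max b γ)
    exact absurd (hb' α ⟨(le_max_right _ _).trans_lt h1, h2⟩)
      (not_lt_of_gt ((le_max_left _ _).trans_lt h1))
  obtain ⟨C, hC⟩ : ∃ C : Set muC.ord.ToType, ¬ #{α | α ∈ T ∧ M α = C} ≤
      2 ^ (ℵ₀ : Cardinal.{0}) := by
    by_contra hcon
    push Not at hcon
    apply hT
    have hcov : T ⊆ ⋃ C ∈ {C : Set muC.ord.ToType | C ⊆ Iio γ ∧ #C ≤ ℵ₀},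
        {α | α ∈ T ∧ M α = C} := fun α hα =>
      mem_iUnion₂.2 ⟨M α, ⟨hα.2, Cardinal.mk_le_aleph0_iff.2 (hMc α).to_subtype⟩, hα, rfl⟩
    refine (Cardinal.mk_le_mk_of_subset hcov).trans (mk_biUnion_le_of aleph0_le_two_pow ?_
      fun C _ => hcon C)
    refine (Cardinal.mk_bounded_subset_le _ _).trans ?_
    refine (Cardinal.power_le_power_right (max_le (mk_Iio_le γ) aleph0_le_two_pow)).trans
      two_pow_pow
  refine ⟨{α | α ∈ T ∧ M α = C}, le_antisymm ?_ ?_, ?_⟩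
  · exact (Cardinal.mk_set_le _).trans (Cardinal.mk_ord_toType _).le
  · exact Order.succ_le_of_lt (not_le.1 hC)
  · have key : ∀ x y, x ∈ T → y ∈ T → M x = C → M y = C → x < y → ¬ g x y := by
      intro x y hx hy hMx hMy hxy hgxy
      have hMM : M x = M y := hMx.trans hMy.symm
      have hins : insert x (M y) ∈ {C : Set muC.ord.ToType | C ⊆ Iio y ∧
          (∀ x ∈ C, ∀ y ∈ C, x ≠ y → g x y) ∧ ∀ x ∈ C, g x y} := by
        refine ⟨insert_subset hxy (hM y).1.1, ?_, ?_⟩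
        · rintro a (rfl | ha) b (rfl | hb) hne
          · exact absurd rfl hne
          · exact hg _ _ ((hM _).1.2.2 b (hMM ▸ hb))
          · exact (hM _).1.2.2 a (hMM ▸ ha)
          · exact (hM y).1.2.1 a ha b hb hne
        · rintro a (rfl | ha)
          · exact hgxy
          · exact (hM y).1.2.2 a ha
      have h1 : x ∈ M y := (hM y).2 hins (subset_insert _ _) (mem_insert _ _)
      have h2 : x < γ := hx.2 (hMM ▸ h1)
      exact absurd hx.1 (not_lt_of_gt h2)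
    rintro x ⟨hx, hMx⟩ y ⟨hy, hMy⟩ hne hgxy
    rcases lt_or_gt_of_ne hne with h | h
    · exact key x y hx hy hMx hMy h hgxy
    · exact key y x hy hx hMy hMx h (hg _ _ hgxy)

theorem part_mu (g : muC.ord.ToType → muC.ord.ToType → Prop) (hg : ∀ x y, g x y → g y x) :
    (∃ H : Set muC.ord.ToType, Nonempty (muC.ord.ToType ≃ H) ∧
      ∀ x ∈ H, ∀ y ∈ H, x ≠ y → ¬ g x y) ∨
    (∃ H : Set muC.ord.ToType, Nonempty ((ω_ 1 : Ordinal.{0}).ToType ≃ H) ∧
      ∀ x ∈ H, ∀ y ∈ H, x ≠ y → g x y) := by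
  by_cases h : ∀ C : Set muC.ord.ToType, (∀ x ∈ C, ∀ y ∈ C, x ≠ y → g x y) → C.Countable
  · obtain ⟨H, hH, hH'⟩ := exists_indep g hg h
    refine Or.inl ⟨H, Cardinal.eq.1 ?_, hH'⟩
    rw [Cardinal.mk_ord_toType, hH]
  · push Not at h
    obtain ⟨C, hC, hC'⟩ := h
    have h1 : ℵ₁ ≤ #C := by
      rw [← Cardinal.succ_aleph0]
      refine Order.succ_le_of_lt (not_le.1 fun h => hC' ?_)
      exact Set.countable_coe_iff.1 (Cardinal.mk_le_aleph0_iff.1 h)
    obtain ⟨H, hHC, hH⟩ := Cardinal.le_mk_iff_exists_subset.1 h1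
    refine Or.inr ⟨H, Cardinal.eq.1 ?_, fun x hx y hy => hC x (hHC hx) y (hHC hy)⟩
    rw [hH, Cardinal.mk_toType, Ordinal.card_omega]

end Part

section Param

/-- `κ = ℶ_μ`. -/
noncomputable def kaC : Cardinal.{0} := ℶ_ muC.ord

theorem aleph0_le_muC : ℵ₀ ≤ muC := aleph0_le_two_pow.trans (Order.le_succ _)

theorem isSuccLimit_muC : Order.IsSuccLimit muC.ord := Cardinal.isSuccLimit_ord aleph0_le_muC

theorem strong_kaC : IsStrongLimit kaC := isStrongLimit_beth.2 isSuccLimit_muC.isSuccPrelimit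

theorem cof_kaC : kaC.ord.cof = muC := by
  have h := Ordinal.cof_map_of_isNormal (Cardinal.isNormal_ord.comp Cardinal.isNormal_beth)
    isSuccLimit_muC
  have h2 : muC.ord.cof = muC := (Cardinal.isRegular_succ aleph0_le_two_pow).cof_ord
  rw [h2] at h
  exact h

theorem muC_lt_kaC : muC < kaC := by
  have h1 : (2 ^ (ℵ₀ : Cardinal.{0})) < kaC := by
    unfold kaC
    have : (2 : Cardinal.{0}) ^ (ℵ₀ : Cardinal.{0}) = ℶ_ 1 := by
      rw [← Cardinal.beth_zero, ← Cardinal.beth_succ]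
      simp
    rw [this, Cardinal.beth_lt_beth]
    have : (1 : Ordinal.{0}) < ω := Ordinal.one_lt_omega0
    refine this.trans_le ?_
    rw [← Cardinal.ord_aleph0]
    exact Cardinal.ord_le_ord.2 aleph0_le_muC
  have h2 := strong_kaC.isStrongPrelimit h1
  exact (Order.succ_le_of_lt (Cardinal.cantor _)).trans_lt h2

theorem aleph1_le_muC : ℵ₁ ≤ muC := by
  rw [← Cardinal.succ_aleph0]
  exact Order.succ_le_succ aleph0_le_two_pow

theorem two_pow_mu_lt : 2 ^ muC < kaC := strong_kaC.isStrongPrelimit muC_lt_kaC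

theorem pow_mu : ((2 : Cardinal.{0}) ^ muC) ^ muC ≤ 2 ^ muC := by
  rw [← Cardinal.power_mul, Cardinal.mul_eq_self aleph0_le_muC]

theorem pow_aleph1_lt {ρ : Cardinal.{0}} (hρ : ρ < kaC) : ρ ^ (ℵ₁ : Cardinal.{0}) < kaC := by
  have h1 : ρ ^ (ℵ₁ : Cardinal.{0}) ≤ 2 ^ (ρ * ℵ₁) := by
    rw [Cardinal.power_mul]
    exact Cardinal.power_le_power_right (Cardinal.cantor ρ).le
  refine h1.trans_lt (strong_kaC.isStrongPrelimit ?_)
  exact Cardinal.mul_lt_of_lt strong_kaC.aleph0_le hρ (aleph1_le_muC.trans_lt muC_lt_kaC)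

theorem cof_toType_kaC : Order.cof kaC.ord.ToType = muC := by
  rw [Ordinal.cof_toType, cof_kaC]

/-- The classes. -/
theorem exists_cls : ∃ (J : Type) (cls : kaC.ord.ToType → J), #J ≤ 2 ^ muC ∧
    ∀ i, #{z | cls z = i} < kaC := by
  obtain ⟨s, hs, hsc⟩ := Order.exists_cof_eq (α := kaC.ord.ToType)
  rw [cof_toType_kaC] at hsc
  choose f hf hf' using hs
  refine ⟨s, fun z => ⟨f z, hf z⟩, ?_, fun i => ?_⟩
  · rw [hsc]
    exact (Cardinal.cantor _).le
  · have h1 : {z | (⟨f z, hf z⟩ : s) = i} ⊆ insert i.1 (Iio i.1) := by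
      intro z hz
      have h2 : z ≤ i.1 := by
        have h3 : (⟨f z, hf z⟩ : s) = i := hz
        rw [← h3]
        exact hf' z
      rcases h2.lt_or_eq with h | h
      · exact Or.inr h
      · exact Or.inl h
    refine (Cardinal.mk_le_mk_of_subset h1).trans_lt ?_
    refine (Cardinal.mk_insert_le).trans_lt ?_
    refine Cardinal.add_lt_of_lt strong_kaC.aleph0_le ?_ ?_
    · have := Cardinal.mk_Iio_lt i.1 (by rw [Cardinal.mk_ord_toType, Ordinal.type_toType])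
      rw [Cardinal.mk_ord_toType] at this
      exact this
    · exact (Cardinal.one_lt_aleph0).trans_le strong_kaC.aleph0_le

/-- A cofinal function from `μ` to `κ`. -/
theorem exists_cofinal : ∃ g : muC.ord.ToType → kaC.ord.ToType, ∀ j, ∃ i, j ≤ g i := by
  obtain ⟨s, hs, hsc⟩ := Order.exists_cof_eq (α := kaC.ord.ToType)
  rw [cof_toType_kaC] at hsc
  obtain ⟨e⟩ : Nonempty (muC.ord.ToType ≃ s) := Cardinal.eq.1 (by
    rw [Cardinal.mk_ord_toType, hsc])
  refine ⟨fun i => (e i).1, fun j => ?_⟩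
  obtain ⟨b, hb, hjb⟩ := hs j
  refine ⟨e.symm ⟨b, hb⟩, ?_⟩
  simp only [Equiv.apply_symm_apply]
  exact hjb

/-- There is no cofinal function from a smaller ordinal. -/
theorem not_cofinal {γ : Ordinal.{0}} (hγ : γ < muC.ord) (g : γ.ToType → kaC.ord.ToType) :
    ∃ j, ∀ i, g i < j := by
  have : ¬ IsCofinal (range g) := by
    intro h
    have h1 := Order.cof_le h
    rw [cof_toType_kaC] at h1
    have h2 : #(range g) ≤ γ.card := Cardinal.mk_range_le.trans (Cardinal.mk_toType γ).le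
    exact absurd (h1.trans h2) (not_le.2 (Cardinal.lt_ord.1 hγ))
  obtain ⟨j, hj⟩ := not_isCofinal_iff.1 this
  exact ⟨j, fun i => hj _ ⟨i, rfl⟩⟩

end Param

end Pool.Agent.helper57
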