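import Mathlib
import Pool.Agent.helper57.SGForce
import Pool.Agent.helper57.SGParam

set_option autoImplicit false

/-!
# The counterexample
-/

open Set Cardinal Ordinal FirstOrder FirstOrder.Language

namespace Pool.Agent.helper57.SG

open Pool.Agent.helper57.Fc

/-- The conjunction of all the properties of the counterexample; the variables are `k`, `m`,
`l`. -/
def psi : Fm 3 :=
  fCard (up (up nw)) ⊓ (fGtOmega (up (up nw)) ⊓ (fMem (up nw) (up (up nw)) ⊓
  (fIsCof (up (up nw)) (up nw) ⊓ (fCard nw ⊓ (fGtOmega nw ⊓ (fArrow (up nw) (up nw) nw ⊓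
  (fBall (up (up nw)) (fPowLt nw (up nw) (up (up (up nw)))) ⊓
    ∼(fArrow (up (up nw)) (up (up nw)) nw))))))))

theorem omega_one_eq : (ω_ 1 : Ordinal.{0}) = (ℵ₁ : Cardinal.{0}).ord := by
  rw [Cardinal.ord_aleph]

theorem fo_psi {J : Type} (cls : kaC.ord.ToType → J) (hJ : #J ≤ 2 ^ muC)
    (hcls : ∀ i, #{z | cls z = i} < kaC) (xs : Fin 0 → Name (Cond cls muC))
    (p : Cond cls muC) : Fo psi (sn (sn (sn xs (oN _ kaC.ord)) (oN _ muC.ord)) (oN _ (ω_ 1))) p := by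
  have hd : Dist (Cond cls muC) muC :=
    fun {_} hI D h1 h2 p => Cond.dist aleph0_le_muC hI D h1 h2 p
  have hτ : (2 : Cardinal.{0}) ≤ 2 ^ muC :=
    (Cardinal.natCast_le_aleph0 (n := 2)).trans (aleph0_le_muC.trans (Cardinal.cantor _).le)
  have hcc : CC (Cond cls muC) (2 ^ muC) :=
    fun {_} hY q => Cond.cc aleph0_le_muC hτ pow_mu hJ hY q
  have hω1 : ℵ₀ < (ω_ 1 : Ordinal.{0}).card := by
    rw [Ordinal.card_omega, ← Cardinal.succ_aleph0]
    exact Order.lt_succ _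
  have hω1' : (ω_ 1 : Ordinal.{0}).card ≤ muC := by
    rw [Ordinal.card_omega]
    exact aleph1_le_muC
  have hωlt : ∀ c : Cardinal.{0}, ℵ₀ < c → ω < c.ord := by
    intro c hc
    rw [← Cardinal.ord_aleph0]
    exact Cardinal.ord_lt_ord.2 hc
  unfold psi
  simp only [fo_and]
  refine ⟨?_, ?_, ?_, ?_, ?_, ?_, ?_, ?_, ?_⟩
  · refine fo_card_oN (o := kaC.ord) (by simp only [sn_up, sn_nw]) fun b hb => ?_
    exact noSurj_of_cc hcc two_pow_mu_lt strong_kaC.aleph0_le hb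
  · refine fo_gtOmega_oN (o := kaC.ord) (by simp only [sn_up, sn_nw]) (hωlt _ ?_)
    exact (aleph0_le_muC).trans_lt muC_lt_kaC
  · rw [fo_mem]
    simp only [sn_up, sn_nw]
    rw [oN_mem_oN]
    exact Cardinal.ord_lt_ord.2 muC_lt_kaC
  · obtain ⟨g, hg⟩ := exists_cofinal
    refine fo_isCof hd (α := muC.ord) (β := kaC.ord) (by simp only [sn_up, sn_nw])
      (by simp only [sn_up, sn_nw]) ?_ g hg fun γ hγ g => not_cofinal hγ g
    rw [Cardinal.card_ord]
  · refine fo_card_oN (o := ω_ 1) (by simp only [sn_nw]) fun b hb => ?_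
    rw [omega_one_eq] at hb ⊢
    exact noSurj_of_dist hd aleph1_le_muC hb
  · refine fo_gtOmega_oN (o := ω_ 1) (by simp only [sn_nw]) ?_
    rw [omega_one_eq]
    refine hωlt _ ?_
    rw [← Cardinal.succ_aleph0]
    exact Order.lt_succ _
  · refine fo_arrow aleph0_le_muC hd (κ := muC.ord) (μ := muC.ord) (lam := ω_ 1)
      (by simp only [sn_up, sn_nw]) (by simp only [sn_up, sn_nw]) (by simp only [sn_nw]) ?_
      part_mu
    rw [Cardinal.card_ord]
  · rw [fo_ball_oN (o := kaC.ord) (by simp only [sn_up, sn_nw])]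
    intro ρ hρ
    have hρ' : ρ.card < kaC := Cardinal.lt_ord.1 hρ
    have hσ := pow_aleph1_lt hρ'
    obtain ⟨e⟩ : Nonempty (((ω_ 1 : Ordinal.{0}).ToType → ρ.ToType) ↪
        (ρ.card ^ (ℵ₁ : Cardinal.{0})).ord.ToType) := by
      rw [← Cardinal.le_def, Cardinal.mk_ord_toType]
      rw [← Cardinal.power_def, Cardinal.mk_toType, Cardinal.mk_toType, Ordinal.card_omega]
    refine fo_powLt hd (ρ := ρ) (lam := ω_ 1) (κ := kaC.ord)
      (σ := (ρ.card ^ (ℵ₁ : Cardinal.{0})).ord)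
      (by simp only [sn_nw]) (by simp only [sn_up, sn_nw]) (by simp only [sn_up, sn_nw])
      hω1' (Cardinal.ord_lt_ord.2 hσ) e e.injective
  · exact fo_not_arrow (c := kaC) rfl aleph0_le_muC hτ pow_mu hJ two_pow_mu_lt hcls hω1 hω1' hd
      (by simp only [sn_up, sn_nw]) (by simp only [sn_nw]) p

/-- There is a model of ZFC with a counterexample. -/
theorem exists_counterexample : ∃ (M : Type) (E : M → M → Prop), IsZFC E ∧ ∃ k m l : M,
    Sem.Card E k ∧ Sem.GtOmega E k ∧ E m k ∧ Sem.IsCof E k m ∧ Sem.Card E l ∧ Sem.GtOmega E l ∧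
    Sem.Arrow E m m l ∧ (∀ r, E r k → Sem.PowLt E r l k) ∧ ¬ Sem.Arrow E k k l := by
  obtain ⟨J, cls, hJ, hcls⟩ := exists_cls
  obtain ⟨G⟩ := exists_gen (nameUniv_univ (P := Cond cls muC)) ⊤
  have h := G.of_forces (φ := ∃' ∃' ∃' psi) (fun xs _ => by
    refine fo_ex_of (oN _ kaC.ord) (fo_ex_of (oN _ muC.ord) (fo_ex_of (oN _ (ω_ 1)) ?_))
    exact fo_psi cls hJ hcls xs ⊤) Fin.elim0
  rw [sat_ex] at h
  obtain ⟨k, h⟩ := h
  rw [sat_ex] at h
  obtain ⟨m, h⟩ := h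
  rw [sat_ex] at h
  obtain ⟨l, h⟩ := h
  refine ⟨G.M, G.E, G.isZFC, k, m, l, ?_⟩
  unfold psi at h
  simp only [sat_and, sat_not, sat_ball, sat_card, sat_gtOmega, sat_mem, sat_isCof, sat_arrow,
    sat_powLt, sn_up, sn_nw] at h
  exact h

end Pool.Agent.helper57.SG
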