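import Mathlib

set_option autoImplicit false

namespace Pool.Agent.Helper57

open Set

/-- the window of length r at position t of a sequence -/
def win (r : ℕ) (g : ℕ → ℕ) (t : ℕ) : Fin r → ℕ := fun k => g (t + k)

/-- a path with `m + 1` windows of length `r`, inside `[0,N)` -/
structure IsPath (r m N : ℕ) (g : ℕ → ℕ) : Prop where
  mono : ∀ i j, i < j → j < m + r → g i < g j
  lt : ∀ i, i < m + r → g i < N

theorem tight_ramsey_one (C : Type) [Finite C] (m : ℕ) :
    ∃ N, ∀ χ : (Fin 1 → ℕ) → C, ∃ g, IsPath 1 m N g ∧ ∀ t ≤ m, χ (win 1 g t) = χ (win 1 g 0) := by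
  classical
  have := Fintype.ofFinite C
  refine ⟨Fintype.card C * m + 1, ?_⟩
  intro χ
  let f : ℕ → C := fun x => χ (fun _ => x)
  obtain ⟨c, _, hc⟩ := Finset.exists_lt_card_fiber_of_mul_lt_card_of_maps_to
    (s := Finset.range (Fintype.card C * m + 1)) (t := (Finset.univ : Finset C)) (f := f) (n := m)
    (fun _ _ => Finset.mem_univ _) (by simp)
  set T := (Finset.range (Fintype.card C * m + 1)).filter (fun x => f x = c) with hT
  let e := T.orderEmbOfFin rfl
  let g : ℕ → ℕ := fun i => if h : i < T.card then e ⟨i, h⟩ else 0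
  have hg : ∀ i (h : i < T.card), g i = e ⟨i, h⟩ := fun i h => dif_pos h
  have hmem : ∀ i, i < T.card → g i ∈ T := by
    intro i h
    rw [hg i h]
    exact Finset.orderEmbOfFin_mem T rfl _
  refine ⟨g, ⟨?_, ?_⟩, ?_⟩
  · intro i j hij hj
    rw [hg i (by omega), hg j (by omega)]
    exact (e.strictMono) (by simpa using hij)
  · intro i hi
    have := hmem i (by omega)
    rw [hT, Finset.mem_filter, Finset.mem_range] at this
    exact this.1
  · have key : ∀ t ≤ m, χ (win 1 g t) = c := by
      intro t ht
      have := hmem t (by omega)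
      rw [hT, Finset.mem_filter] at this
      have h2 : win 1 g t = fun _ => g t := by
        funext k
        simp [win]
      rw [h2]
      exact this.2
    intro t ht
    rw [key t ht, key 0 (Nat.zero_le _)]

theorem tight_ramsey_step (r : ℕ) (hr : 1 ≤ r)
    (ih : ∀ (C : Type) [Finite C] (m : ℕ), ∃ N, ∀ χ : (Fin r → ℕ) → C, ∃ g, IsPath r m N g ∧
      ∀ t ≤ m, χ (win r g t) = χ (win r g 0)) (C : Type) [Finite C] (m : ℕ) :
    ∃ N, ∀ χ : (Fin (r + 1) → ℕ) → C, ∃ g, IsPath (r + 1) m N g ∧
      ∀ t ≤ m, χ (win (r + 1) g t) = χ (win (r + 1) g 0) := by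
  classical
  obtain ⟨N, hN⟩ := ih (C → Fin (m + 2)) 1
  refine ⟨N, ?_⟩
  intro χ
  by_contra hcon
  push Not at hcon
  let Q : (Fin r → ℕ) → C → ℕ → Prop := fun a i l =>
    ∃ g, IsPath r l N g ∧ (∀ j : Fin r, g (l + j) = a j) ∧ ∀ t < l, χ (win (r + 1) g t) = i
  have hQ : ∀ a i, ¬ Q a i (m + 1) := by
    rintro a i ⟨g, hg, _, hχ⟩
    have hg' : IsPath (r + 1) m N g := ⟨fun x y hxy hy => hg.mono x y hxy (by omega),
      fun x hx => hg.lt x (by omega)⟩
    obtain ⟨t, ht, hne⟩ := hcon g hg'
    apply hne
    rw [hχ t (by omega), hχ 0 (by omega)]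
  obtain ⟨g₀, hg₀, hχ'⟩ := hN (fun a i => ⟨Nat.findGreatest (Q a i) (m + 1),
    Nat.lt_succ_of_le (Nat.findGreatest_le _)⟩)
  have hχ1 := hχ' 1 le_rfl
  set a := win r g₀ 0 with ha
  set b := win r g₀ 1 with hb
  set i := χ (win (r + 1) g₀ 0) with hi
  have heq : Nat.findGreatest (Q b i) (m + 1) = Nat.findGreatest (Q a i) (m + 1) := by
    have := congrFun hχ1 i
    simpa using this
  set l := Nat.findGreatest (Q a i) (m + 1) with hl
  have hQa0 : Q a i 0 := by
    refine ⟨g₀, ⟨fun x y hxy hy => hg₀.mono x y hxy (by omega), fun x hx => hg₀.lt x (by omega)⟩,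
      ?_, ?_⟩
    · intro j; rfl
    · intro t ht; omega
  have hQal : Q a i l := Nat.findGreatest_spec (P := Q a i) (Nat.zero_le (m + 1)) hQa0
  have hlm : l ≤ m := by
    have h1 : l ≤ m + 1 := Nat.findGreatest_le _
    have h2 : l ≠ m + 1 := by
      intro h
      rw [h] at hQal
      exact hQ _ _ hQal
    omega
  obtain ⟨g, hg, hga, hgχ⟩ := hQal
  have hga' : ∀ j, j < r → g (l + j) = g₀ j := by
    intro j hj
    have := hga ⟨j, hj⟩
    simpa [ha, win] using this
  have hQb : Q b i (l + 1) := by
    let g' : ℕ → ℕ := fun x => if x < l + r then g x else g₀ r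
    have h1 : ∀ x, x < l + r → g' x = g x := fun x hx => if_pos hx
    have h2 : g' (l + r) = g₀ r := if_neg (lt_irrefl _)
    have hlast : ∀ x, x < l + r → g x < g₀ r := by
      intro x hx
      have h3 : g (l + (r - 1)) = g₀ (r - 1) := hga' (r - 1) (by omega)
      have h4 : g₀ (r - 1) < g₀ r := hg₀.mono _ _ (by omega) (by omega)
      rcases Nat.lt_or_ge x (l + (r - 1)) with h | h
      · exact (hg.mono x _ h (by omega)).trans (by omega)
      · have : x = l + (r - 1) := by omega
        rw [this]; omega
    refine ⟨g', ⟨?_, ?_⟩, ?_, ?_⟩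
    · intro x y hxy hy
      rcases Nat.lt_or_ge y (l + r) with h | h
      · rw [h1 x (by omega), h1 y h]; exact hg.mono x y hxy h
      · have : y = l + r := by omega
        rw [this, h2, h1 x (by omega)]; exact hlast x (by omega)
    · intro x hx
      rcases Nat.lt_or_ge x (l + r) with h | h
      · rw [h1 x h]; exact hg.lt x h
      · have : x = l + r := by omega
        rw [this, h2]; exact hg₀.lt r (by omega)
    · intro j
      have hj := j.2
      simp only [hb, win]
      rcases Nat.lt_or_ge (l + 1 + j) (l + r) with h | h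
      · rw [h1 _ h, show l + 1 + (j : ℕ) = l + (1 + j) by ring]
        exact hga' _ (by omega)
      · have : l + 1 + (j : ℕ) = l + r := by omega
        rw [this, h2]
        congr 1; omega
    · intro t ht
      rcases Nat.lt_or_ge t l with h | h
      · rw [← hgχ t h]
        congr 1
        funext k
        have hk := k.2
        simp only [win]
        exact h1 _ (by omega)
      · have : t = l := by omega
        subst this
        rw [hi]
        congr 1
        funext k
        have hk := k.2
        simp only [win]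
        rcases Nat.lt_or_ge (l + k) (l + r) with h' | h'
        · rw [h1 _ h', hga' _ (by omega)]; congr 1; omega
        · have : l + (k : ℕ) = l + r := by omega
          rw [this, h2]; congr 1; omega
  have : l + 1 ≤ Nat.findGreatest (Q b i) (m + 1) :=
    Nat.le_findGreatest (by omega) hQb
  omega

/-- Ramsey theorem for tight monotone paths of `r`-tuples. -/
theorem tight_ramsey (r : ℕ) (hr : 1 ≤ r) (C : Type) [Finite C] (m : ℕ) :
    ∃ N, ∀ χ : (Fin r → ℕ) → C, ∃ g, IsPath r m N g ∧
      ∀ t ≤ m, χ (win r g t) = χ (win r g 0) := by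
  induction r, hr using Nat.le_induction generalizing C m with
  | base => exact tight_ramsey_one C m
  | succ r hr ih => exact tight_ramsey_step r hr (fun C _ m => ih C m) C m

end Pool.Agent.Helper57
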