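import Pool.Agent.helper57.BlockSys
import Pool.Agent.helper57.TightRamsey

set_option autoImplicit false

namespace Pool.Agent.Helper57

open Filter Topology Set

namespace Concrete

/-- path length parameter -/
def mm (n s : ℕ) : ℕ := (n + 1) * (s + 2) + 2

/-- vertex number -/
noncomputable def NN (n s : ℕ) : ℕ :=
  Classical.choose (tight_ramsey (n + 1) (Nat.le_add_left 1 n) (Fin (s + n + 2)) (mm n s))

theorem NN_spec (n s : ℕ) (χ : (Fin (n + 1) → ℕ) → Fin (s + n + 2)) :
    ∃ g, IsPath (n + 1) (mm n s) (NN n s) g ∧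
      ∀ t ≤ mm n s, χ (win (n + 1) g t) = χ (win (n + 1) g 0) :=
  Classical.choose_spec (tight_ramsey (n + 1) (Nat.le_add_left 1 n) (Fin (s + n + 2)) (mm n s)) χ

/-- bound for the total size of the earlier blocks -/
noncomputable def ss : ℕ → ℕ
  | 0 => 0
  | n + 1 => ss n + (NN n (ss n)) ^ (n + 1)

/-- vertices at level n -/
noncomputable def N (n : ℕ) : ℕ := NN n (ss n)

/-- path parameter at level n -/
noncomputable def m (n : ℕ) : ℕ := mm n (ss n)

/-- valid tuples -/
def Valid (n : ℕ) (y : Fin (n + 1) → ℕ) : Prop := StrictMono y ∧ ∀ i, y i < N n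

/-- blocks -/
abbrev B (n : ℕ) : Type := {y : Fin (n + 1) → ℕ // Valid n y}

instance (n : ℕ) : Finite (B n) := by
  apply Finite.of_injective (fun y : B n => (fun i => (⟨y.1 i, y.2.2 i⟩ : Fin (N n))))
  intro y z h
  apply Subtype.ext
  funext i
  have := congrFun h i
  simpa using this

theorem card_B_le (n : ℕ) : Nat.card (B n) ≤ (N n) ^ (n + 1) := by
  have h := Nat.card_le_card_of_injective (fun y : B n => (fun i => (⟨y.1 i, y.2.2 i⟩ : Fin (N n))))
    (by
      intro y z h
      apply Subtype.ext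
      funext i
      have := congrFun h i
      simpa using this)
  simpa using h

theorem valid_win {n : ℕ} {g : ℕ → ℕ} (hg : IsPath (n + 1) (m n) (N n) g) {t : ℕ} (ht : t ≤ m n) :
    Valid n (win (n + 1) g t) := by
  constructor
  · intro i j hij
    have := i.2
    have := j.2
    exact hg.mono _ _ (by simpa using hij) (by omega)
  · intro i
    have := i.2
    exact hg.lt _ (by omega)

theorem path_exists (n : ℕ) : ∃ g, IsPath (n + 1) (m n) (N n) g := by
  obtain ⟨g, hg, _⟩ := NN_spec n (ss n) (fun _ => 0)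
  exact ⟨g, hg⟩

instance (n : ℕ) : Nonempty (B n) := by
  obtain ⟨g, hg⟩ := path_exists n
  exact ⟨⟨_, valid_win hg (Nat.zero_le _)⟩⟩

/-- the ground set -/
abbrev X : Type := Σ n, B n

instance : Countable X := by
  have : ∀ n, Countable (B n) := fun n => inferInstance
  infer_instance

instance : Infinite X :=
  Infinite.of_injective (fun n : ℕ => (⟨n, Classical.arbitrary (B n)⟩ : X))
    (fun a b h => by simpa using congrArg Sigma.fst h)

/-- coding of the ground set -/
noncomputable def e : X ≃ ℕ :=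
  (nonempty_equiv_of_countable (α := X) (β := ℕ)).some

/-- block of a point -/
noncomputable def blk (k : ℕ) : ℕ := (e.symm k).1

/-- entries of the tuple of a point -/
noncomputable def tup (k i : ℕ) : ℕ := if h : i < blk k + 1 then (e.symm k).2.1 ⟨i, h⟩ else 0

open Classical in
/-- code of a tuple -/
noncomputable def code (n : ℕ) (y : Fin (n + 1) → ℕ) : ℕ :=
  if h : Valid n y then e ⟨n, ⟨y, h⟩⟩ else 0

theorem code_eq {n : ℕ} {y : Fin (n + 1) → ℕ} (h : Valid n y) : code n y = e ⟨n, ⟨y, h⟩⟩ := dif_pos h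

theorem blk_code {n : ℕ} {y : Fin (n + 1) → ℕ} (h : Valid n y) : blk (code n y) = n := by
  rw [code_eq h, blk]; simp

theorem tup_code {n : ℕ} {y : Fin (n + 1) → ℕ} (h : Valid n y) {i : ℕ} (hi : i < n + 1) :
    tup (code n y) i = y ⟨i, hi⟩ := by
  have key : ∀ (z : X) (hz : e.symm (code n y) = z) (h' : i < z.1 + 1),
      tup (code n y) i = z.2.1 ⟨i, h'⟩ := by
    intro z hz h'
    subst hz
    unfold tup blk
    rw [dif_pos h']
  exact key ⟨n, ⟨y, h⟩⟩ (by rw [code_eq h]; simp) hi

theorem tup_lt {k i : ℕ} (hi : i < blk k + 1) : tup k i < N (blk k) := by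
  unfold tup
  rw [dif_pos hi]
  exact (e.symm k).2.2.2 _

theorem tup_mono {k i j : ℕ} (hij : i < j) (hj : j < blk k + 1) : tup k i < tup k j := by
  unfold tup
  rw [dif_pos (hij.trans hj), dif_pos hj]
  exact (e.symm k).2.2.1 (Fin.mk_lt_mk.2 hij)

theorem fin_blk (n : ℕ) : {k | blk k ≤ n}.Finite := by
  have h1 : (Set.range (fun p : (Σ j : Fin (n + 1), B j) => e ⟨p.1, p.2⟩)).Finite :=
    Set.finite_range _
  refine h1.subset ?_
  intro k hk
  have hk' : blk k ≤ n := hk
  refine ⟨⟨⟨(e.symm k).1, Nat.lt_succ_of_le hk'⟩, (e.symm k).2⟩, ?_⟩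
  simp

theorem card_blk (n : ℕ) : (fin_blk n).toFinset.card ≤ ss (n + 1) := by
  have h1 : (fin_blk n).toFinset.card ≤ Nat.card (Σ j : Fin (n + 1), B j) := by
    rw [← Set.ncard_eq_toFinset_card _ (fin_blk n)]
    let f : {k | blk k ≤ n} → (Σ j : Fin (n + 1), B j) := fun k =>
      ⟨⟨(e.symm k.1).1, Nat.lt_succ_of_le k.2⟩, (e.symm k.1).2⟩
    have hf : Function.Injective f := by
      intro a b hab
      have h2 : (fun p : (Σ j : Fin (n + 1), B j) => e ⟨p.1, p.2⟩) (f a) =
          (fun p : (Σ j : Fin (n + 1), B j) => e ⟨p.1, p.2⟩) (f b) := by rw [hab]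
      simp only [f] at h2
      apply Subtype.ext
      simpa using h2
    exact Nat.card_le_card_of_injective f hf
  have h2 : Nat.card (Σ j : Fin (n + 1), B j) = ∑ j : Fin (n + 1), Nat.card (B j) := Nat.card_sigma
  rw [h2] at h1
  refine h1.trans ?_
  have h3 : ∀ k, ∑ j : Fin k, Nat.card (B j) ≤ ss k := by
    intro k
    induction k with
    | zero => simp
    | succ k ih =>
      rw [Fin.sum_univ_castSucc]
      simp only [Fin.val_castSucc, Fin.val_last, ss]
      exact add_le_add ih (card_B_le k)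
  exact h3 (n + 1)

/-- edges -/
def Edge (n : ℕ) : Set (Finset ℕ) :=
  {d | ∃ g, IsPath (n + 1) (m n) (N n) g ∧
    d = (Finset.range (m n + 1)).image (fun t => code n (win (n + 1) g t))}

theorem code_inj {n : ℕ} {g : ℕ → ℕ} (hg : IsPath (n + 1) (m n) (N n) g) {t t' : ℕ} (ht : t ≤ m n)
    (ht' : t' ≤ m n) (h : code n (win (n + 1) g t) = code n (win (n + 1) g t')) : t = t' := by
  have h1 := tup_code (valid_win hg ht) (Nat.succ_pos n)
  have h2 := tup_code (valid_win hg ht') (Nat.succ_pos n)
  rw [h, h2] at h1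
  simp only [win, add_zero] at h1
  rcases lt_trichotomy t t' with h3 | h3 | h3
  · have := hg.mono t t' h3 (by omega); omega
  · exact h3
  · have := hg.mono t' t h3 (by omega); omega

/-- the fractional covering sets -/
def AR (q n : ℕ) (R : Finset ℕ) : Set ℕ :=
  {x | blk x = n ∧ tup x 0 ∈ R ∧ ∀ i, 1 ≤ i → i < q → tup x i ∉ R}

theorem mem_AR {q n : ℕ} {R : Finset ℕ} {x : ℕ} :
    x ∈ AR q n R ↔ blk x = n ∧ tup x 0 ∈ R ∧ ∀ i, 1 ≤ i → i < q → tup x i ∉ R := Iff.rfl

theorem frac_aux (q n : ℕ) (hq : 1 ≤ q) (hqn : q ≤ n + 1) (w : ℕ → ℝ) (hw : ∀ x, 0 ≤ w x)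
    (F : Finset ℕ) (hF : ∀ x ∈ F, blk x = n) :
    ∃ R : Finset ℕ, ∑ x ∈ F, w x ≤ (2 : ℝ) ^ q * ∑ x ∈ F,
      (open Classical in if x ∈ AR q n R
        then w x else 0) := by
  classical
  rcases F.eq_empty_or_nonempty with rfl | ⟨x₀, hx₀⟩
  · exact ⟨∅, by simp⟩
  have hqN : q ≤ N n := by
    have h1 : ∀ i, i < n + 1 → i ≤ tup x₀ i := by
      intro i
      induction i with
      | zero => intro _; exact Nat.zero_le _
      | succ i ih =>
        intro hi
        have h2 := ih (by omega)
        have h3 : tup x₀ i < tup x₀ (i + 1) := tup_mono (Nat.lt_succ_self i) (by rw [hF x₀ hx₀]; exact hi)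
        omega
    have h2 := h1 n (by omega)
    have h3 : tup x₀ n < N (blk x₀) := tup_lt (by rw [hF x₀ hx₀]; omega)
    rw [hF x₀ hx₀] at h3
    omega
  have hcount : ∀ x ∈ F, (2 : ℝ) ^ (N n - q) ≤ (((Finset.range (N n)).powerset.filter
      (fun R => x ∈ AR q n R)).card : ℝ) := by
    intro x hx
    have hbx := hF x hx
    let V : Finset ℕ := (Finset.range q).image (tup x)
    have hVinj : Set.InjOn (tup x) (Finset.range q : Set ℕ) := by
      intro i hi j hj hij
      simp only [Finset.coe_range, Set.mem_Iio] at hi hj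
      rcases lt_trichotomy i j with h | h | h
      · have := tup_mono (k := x) h (by rw [hbx]; omega); omega
      · exact h
      · have := tup_mono (k := x) h (by rw [hbx]; omega); omega
    have hVcard : V.card = q := by
      rw [Finset.card_image_of_injOn hVinj, Finset.card_range]
    have hVsub : V ⊆ Finset.range (N n) := by
      intro v hv
      obtain ⟨i, hi, rfl⟩ := Finset.mem_image.1 hv
      rw [Finset.mem_range] at hi ⊢
      have := tup_lt (k := x) (i := i) (by rw [hbx]; omega)
      rwa [hbx] at this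
    have hcard : ((Finset.range (N n) \ V).powerset).card = 2 ^ (N n - q) := by
      rw [Finset.card_powerset, Finset.card_sdiff_of_subset hVsub, Finset.card_range, hVcard]
    have hv0 : tup x 0 ∈ V := Finset.mem_image.2 ⟨0, Finset.mem_range.2 (by omega), rfl⟩
    have hle : ((Finset.range (N n) \ V).powerset).card ≤ ((Finset.range (N n)).powerset.filter
      (fun R => x ∈ AR q n R)).card := by
      apply Finset.card_le_card_of_injOn (fun R' => insert (tup x 0) R')
      · intro R' hR'
        rw [Finset.mem_coe, Finset.mem_powerset] at hR'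
        rw [Finset.mem_coe, Finset.mem_filter, Finset.mem_powerset]
        refine ⟨?_, mem_AR.2 ⟨hbx, Finset.mem_insert_self _ _, ?_⟩⟩
        · intro v hv
          rcases Finset.mem_insert.1 hv with rfl | hv
          · exact hVsub hv0
          · exact (Finset.mem_sdiff.1 (hR' hv)).1
        · intro i hi1 hiq hcon
          have hiV : tup x i ∈ V := Finset.mem_image.2 ⟨i, Finset.mem_range.2 hiq, rfl⟩
          rcases Finset.mem_insert.1 hcon with h | h
          · have := hVinj (by simpa using hiq) (by simpa using (by omega : 0 < q)) h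
            omega
          · exact (Finset.mem_sdiff.1 (hR' h)).2 hiV
      · intro R1 hR1 R2 hR2 h12
        rw [Finset.mem_coe, Finset.mem_powerset] at hR1 hR2
        have h1 : tup x 0 ∉ R1 := fun h => (Finset.mem_sdiff.1 (hR1 h)).2 hv0
        have h2 : tup x 0 ∉ R2 := fun h => (Finset.mem_sdiff.1 (hR2 h)).2 hv0
        have h3 : (insert (tup x 0) R1).erase (tup x 0) = (insert (tup x 0) R2).erase (tup x 0) := by
          have h12' : insert (tup x 0) R1 = insert (tup x 0) R2 := h12
          rw [h12']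
        rwa [Finset.erase_insert h1, Finset.erase_insert h2] at h3
    rw [hcard] at hle
    exact_mod_cast hle
  -- averaging
  have hsum : ∑ _R ∈ (Finset.range (N n)).powerset, (∑ x ∈ F, w x) / 2 ^ q ≤
      ∑ R ∈ (Finset.range (N n)).powerset, ∑ x ∈ F,
        (if x ∈ AR q n R
          then w x else 0) := by
    rw [Finset.sum_comm]
    have e1 : ∀ x ∈ F, w x * 2 ^ (N n - q) ≤ ∑ R ∈ (Finset.range (N n)).powerset,
        (if x ∈ AR q n R
          then w x else 0) := by
      intro x hx
      rw [← Finset.sum_filter, Finset.sum_const, nsmul_eq_mul, mul_comm]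
      exact mul_le_mul_of_nonneg_right (hcount x hx) (hw x)
    refine le_trans ?_ (Finset.sum_le_sum e1)
    rw [Finset.sum_const, Finset.card_powerset, Finset.card_range, nsmul_eq_mul, ← Finset.sum_mul]
    have h2 : (2 : ℝ) ^ (N n) = 2 ^ (N n - q) * 2 ^ q := by
      rw [← pow_add]; congr 1; omega
    push_cast
    rw [h2]
    apply le_of_eq
    field_simp
  obtain ⟨R, _, hR⟩ := Finset.exists_le_of_sum_le ⟨∅, by simp⟩ hsum
  refine ⟨R, ?_⟩
  rw [div_le_iff₀ (by positivity)] at hR
  rw [mul_comm]
  exact hR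

theorem gap_count (q n : ℕ) (hq : 1 ≤ q) (hqn : q ≤ n + 1) (R : Finset ℕ)
    (d : Finset ℕ) (hd : d ∈ Edge n) :
    q * cnt d (AR q n R) ≤ m n + q := by
  classical
  obtain ⟨g, hg, rfl⟩ := hd
  let T : Finset ℕ := (Finset.range (m n + 1)).filter (fun t => code n (win (n + 1) g t) ∈ AR q n R)
  have hT : ∀ t ∈ T, t ≤ m n ∧ g t ∈ R ∧ ∀ i, 1 ≤ i → i < q → g (t + i) ∉ R := by
    intro t ht
    rw [Finset.mem_filter, Finset.mem_range] at ht
    have ht1 : t ≤ m n := by omega
    have hv := valid_win hg ht1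
    obtain ⟨_, h0, h1⟩ := mem_AR.1 ht.2
    refine ⟨ht1, ?_, ?_⟩
    · rw [tup_code hv (Nat.succ_pos n)] at h0
      simpa [win] using h0
    · intro i hi1 hiq
      have := h1 i hi1 hiq
      rw [tup_code hv (by omega)] at this
      simpa [win] using this
  have h1 : cnt ((Finset.range (m n + 1)).image (fun t => code n (win (n + 1) g t))) (AR q n R) ≤ T.card := by
    unfold cnt
    rw [Finset.filter_image]
    exact Finset.card_image_le
  have h2 : (T ×ˢ Finset.range q).card ≤ (Finset.range (m n + q)).card := by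
    apply Finset.card_le_card_of_injOn (fun p => p.1 + p.2)
    · rintro ⟨t, i⟩ hp
      simp only [Finset.mem_coe, Finset.mem_product, Finset.mem_range] at hp ⊢
      have := (hT t hp.1).1
      omega
    · rintro ⟨t, i⟩ hp ⟨t', i'⟩ hp' hpp
      simp only [Finset.mem_coe, Finset.mem_product, Finset.mem_range] at hp hp' hpp
      have key : ∀ t t', t ∈ T → t' ∈ T → t < t' → t + q ≤ t' := by
        intro t t' ht ht' htt
        by_contra hcon
        have h5 := (hT t ht).2.2 (t' - t) (by omega) (by omega)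
        rw [show t + (t' - t) = t' by omega] at h5
        exact h5 (hT t' ht').2.1
      have : t = t' := by
        rcases lt_trichotomy t t' with h | h | h
        · have := key t t' hp.1 hp'.1 h; omega
        · exact h
        · have := key t' t hp'.1 hp.1 h; omega
      subst this
      simp only [Prod.mk.injEq, true_and]
      omega
  rw [Finset.card_product, Finset.card_range, Finset.card_range] at h2
  calc q * _ ≤ q * T.card := Nat.mul_le_mul_left q h1
    _ = T.card * q := Nat.mul_comm _ _
    _ ≤ m n + q := h2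

/-- the concrete block system -/
noncomputable def sys : BlockSys where
  blk := blk
  fin := fin_blk
  M := fun n => m n + 1
  Mpos := by intro n; simp only [m, mm]; omega
  E := Edge
  Eblk := by
    rintro n d ⟨g, hg, rfl⟩ x hx
    obtain ⟨t, ht, rfl⟩ := Finset.mem_image.1 hx
    rw [Finset.mem_range] at ht
    exact blk_code (valid_win hg (by omega))
  Ecard := by
    rintro n d ⟨g, hg, rfl⟩
    rw [Finset.card_image_of_injOn, Finset.card_range]
    intro t ht t' ht' h
    simp only [Finset.coe_range, Set.mem_Iio] at ht ht'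
    exact code_inj hg (by omega) (by omega) h
  c := fun n => ss n + n + 2
  cov := by
    intro n χ hχ
    obtain ⟨g, hg, hgc⟩ := NN_spec n (ss n) (fun y => ⟨χ (code n y), hχ _⟩)
    refine ⟨_, ⟨g, hg, rfl⟩, χ (code n (win (n + 1) g 0)), ?_⟩
    intro x hx
    obtain ⟨t, ht, rfl⟩ := Finset.mem_image.1 hx
    rw [Finset.mem_range] at ht
    have ht' : t ≤ mm n (ss n) := by simp only [m] at ht; omega
    have := hgc t ht'
    simpa using this
  cbig := by
    intro n
    have := card_blk n
    omega
  cpos := by intro n; omega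
  growth := by
    intro ε hε
    obtain ⟨K, hK⟩ := exists_nat_gt (1 / ε)
    refine ⟨K, fun n hn => ?_⟩
    have h1 : ((fin_blk n).toFinset.card : ℝ) ≤ ss (n + 1) := by exact_mod_cast card_blk n
    have h2 : (K : ℝ) ≤ n := by exact_mod_cast hn
    have h3 : 1 ≤ ε * n := by
      have : 1 / ε < n := lt_of_lt_of_le hK h2
      rw [div_lt_iff₀ hε] at this
      linarith
    have h4 : (0 : ℝ) ≤ ss (n + 1) := by positivity
    simp only [m, mm]
    push_cast
    nlinarith [mul_nonneg (sub_nonneg.2 h3) (show (0 : ℝ) ≤ ss (n + 1) + 2 by positivity)]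
  frac := by
    intro δ hδ
    obtain ⟨q, hq⟩ := exists_nat_gt (2 / δ)
    have hq0 : (0 : ℝ) < q := lt_trans (by positivity) hq
    have hq1 : 1 ≤ q := by exact_mod_cast hq0
    refine ⟨2 ^ q, by positivity, q, fun n hn w hw F hF => ?_⟩
    obtain ⟨R, hR⟩ := frac_aux q n hq1 (by omega) w hw F hF
    refine ⟨_, ?_, hR⟩
    intro d hd
    have h1 := gap_count q n hq1 (by omega) R d hd
    have h2 : (q : ℝ) * (cnt d (AR q n R) : ℝ)
        ≤ m n + q := by exact_mod_cast h1
    have h3 : 2 < δ * q := by
      rw [div_lt_iff₀ hδ] at hq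
      linarith
    have h4 : (q : ℝ) ≤ m n := by
      have : q ≤ m n := by
        simp only [m, mm]
        nlinarith [Nat.zero_le (ss n)]
      exact_mod_cast this
    push_cast
    -- q * c ≤ m + q ≤ 2 m ≤ δ q m
    have h5 : (q : ℝ) * (cnt d (AR q n R) : ℝ)
        ≤ q * (δ * (m n + 1)) := by
      have h6 : (0 : ℝ) ≤ m n := by positivity
      nlinarith [mul_nonneg (sub_nonneg.2 h3.le) h6]
    exact le_of_mul_le_mul_left h5 hq0

end Concrete

end Pool.Agent.Helper57
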