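import Pool.Agent.helper57.BlockSys

set_option autoImplicit false

namespace Pool.Agent.Helper57

open Filter Topology Set
open scoped ENNReal

namespace BlockSys

variable (S : BlockSys)

/-- colouring a block by the images under `f`: some edge is mapped to a point, or high up -/
theorem edge_dichotomy (f : ℕ → ℕ) (n : ℕ) (hn : 1 ≤ n) :
    ∃ e ∈ S.E (n + 1), (∃ y, ∀ x ∈ e, f x = y) ∨ ∀ x ∈ e, n < S.blk (f x) := by
  classical
  let T : Finset ℕ := (S.fin n).toFinset
  let idx : ℕ → ℕ := fun y => if h : y ∈ T then (T.equivFin ⟨y, h⟩ : ℕ) else T.card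
  have hidx1 : ∀ y (h : y ∈ T), idx y = (T.equivFin ⟨y, h⟩ : ℕ) := fun y h => dif_pos h
  have hidx2 : ∀ y, y ∉ T → idx y = T.card := fun y h => dif_neg h
  have hidx : ∀ y, idx y ≤ T.card := by
    intro y
    by_cases h : y ∈ T
    · rw [hidx1 y h]; exact (T.equivFin ⟨y, h⟩).2.le
    · rw [hidx2 y h]
  have hcb : T.card + n ≤ S.c (n + 1) := S.cbig n
  obtain ⟨e, he, i, hi⟩ := S.cov (n + 1) (fun x => idx (f x)) (fun x => by
    have := hidx (f x)
    omega)
  refine ⟨e, he, ?_⟩
  have hne : e.Nonempty := by
    rw [← Finset.card_pos, S.Ecard (n + 1) e he]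
    exact S.Mpos' (n + 1)
  obtain ⟨x₀, hx₀⟩ := hne
  by_cases h0 : f x₀ ∈ T
  · left
    refine ⟨f x₀, fun x hx => ?_⟩
    have h1 : idx (f x) = idx (f x₀) := by rw [hi x hx, hi x₀ hx₀]
    have h2 : f x ∈ T := by
      by_contra hc
      rw [hidx2 _ hc, hidx1 _ h0] at h1
      have := (T.equivFin ⟨f x₀, h0⟩).2
      omega
    rw [hidx1 _ h0, hidx1 _ h2] at h1
    have := T.equivFin.injective (Fin.ext h1)
    exact congrArg Subtype.val this
  · right
    intro x hx
    have h1 : idx (f x) = idx (f x₀) := by rw [hi x hx, hi x₀ hx₀]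
    have h2 : f x ∉ T := by
      intro hc
      rw [hidx2 _ h0, hidx1 _ hc] at h1
      have := (T.equivFin ⟨f x, hc⟩).2
      omega
    by_contra h3
    apply h2
    simp only [T, Set.Finite.mem_toFinset, Set.mem_ofPred_eq]
    omega

theorem not_katetov (a b : Set ℕ) (ha : a.Infinite) (hb : b.Infinite) (hab : (b \ a).Infinite) :
    ¬ KatetovLE (S.ideal a ha) (S.ideal b hb) := by
  classical
  rintro ⟨f, hf⟩
  change ∀ A, S.mem a A → S.mem b (f ⁻¹' A) at hf
  -- edges
  choose! e he hdich using fun n (hn : 1 ≤ n) => S.edge_dichotomy f n hn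
  -- good levels above any bound
  have hgood : ∀ K, ∃ n, K < n ∧ 1 ≤ n ∧ n + 1 ∈ b \ a ∧ ∀ x ∈ e n, K < S.blk (f x) := by
    intro K
    have h1 := hf {y | S.blk y ≤ K} (mem_finite (S.fin K))
    obtain ⟨K1, hK1⟩ := h1 (1 / 2) (by norm_num)
    obtain ⟨m, hm, hKm⟩ := hab.exists_gt (max (K + 1) (max K1 2))
    have hm1 : K + 1 < m := lt_of_le_of_lt (le_max_left _ _) hKm
    have hm2 : K1 < m := lt_of_le_of_lt ((le_max_left _ _).trans (le_max_right _ _)) hKm
    have hm3 : 2 < m := lt_of_le_of_lt ((le_max_right _ _).trans (le_max_right _ _)) hKm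
    obtain ⟨n, rfl⟩ : ∃ n, m = n + 1 := ⟨m - 1, by omega⟩
    refine ⟨n, by omega, by omega, hm, ?_⟩
    have hsm := hK1 (n + 1) hm.1 hm2.le (e n) (he n (by omega))
    have hx : ∃ x ∈ e n, K < S.blk (f x) := by
      by_contra hcon
      push Not at hcon
      have hfull : ∀ x ∈ e n, x ∈ f ⁻¹' {y | S.blk y ≤ K} := fun x hx => hcon x hx
      rw [cnt_full hfull, S.Ecard (n + 1) (e n) (he n (by omega))] at hsm
      have := S.MposR (n + 1)
      linarith
    obtain ⟨x₀, hx₀, hKx₀⟩ := hx
    intro x hx
    rcases hdich n (by omega) with ⟨y, hy⟩ | h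
    · rw [hy x hx, ← hy x₀ hx₀]; exact hKx₀
    · have := h x hx; omega
  choose nx h1 h2 h3 h4 using hgood
  -- thresholds
  let nextK : ℕ → ℕ := fun K => max (nx K) ((e (nx K)).sup (fun x => S.blk (f x)))
  let Ks : ℕ → ℕ := fun i => nextK^[i] 0
  have hKs : ∀ i, Ks (i + 1) = nextK (Ks i) := fun i => Function.iterate_succ_apply' nextK i 0
  have hKlt : ∀ i, Ks i < Ks (i + 1) := by
    intro i
    rw [hKs]
    exact lt_of_lt_of_le (h1 (Ks i)) (le_max_left _ _)
  have hKmono : StrictMono Ks := strictMono_nat_of_lt_succ hKlt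
  let N : ℕ → ℕ := fun i => nx (Ks i)
  have hNK : ∀ i, N i ≤ Ks (i + 1) := by
    intro i
    rw [hKs]
    exact le_max_left _ _
  have hNge : ∀ i, i ≤ N i := by
    intro i
    have := h1 (Ks i)
    have := hKmono.id_le i
    simp only [id] at this
    change i ≤ nx (Ks i)
    omega
  have hup : ∀ i, ∀ x ∈ e (N i), S.blk (f x) ≤ Ks (i + 1) := by
    intro i x hx
    rw [hKs]
    exact le_trans (Finset.le_sup (f := fun x => S.blk (f x)) hx) (le_max_right _ _)
  have hlow : ∀ i, ∀ x ∈ e (N i), Ks i < S.blk (f x) := fun i x hx => h4 (Ks i) x hx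
  let A : Set ℕ := {y | ∃ i, ∃ x ∈ e (N i), f x = y}
  have hA : S.mem a A := by
    intro ε hε
    obtain ⟨K, hK⟩ := S.growth ε hε
    refine ⟨K + 1, fun k hk hKk d hd => ?_⟩
    obtain ⟨m, rfl⟩ : ∃ m, k = m + 1 := ⟨k - 1, by omega⟩
    have hgr := hK m (by omega)
    refine le_trans ?_ hgr
    have : cnt d A ≤ (S.fin m).toFinset.card + 1 := by
      by_cases hne : ∃ y ∈ d, y ∈ A
      · obtain ⟨y, hyd, i, x, hx, hxy⟩ := hne
        have hblky : S.blk y = m + 1 := S.Eblk _ d hd y hyd
        -- all other points come from the same i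
        have hsame : ∀ y' ∈ d, y' ∈ A → ∃ x' ∈ e (N i), f x' = y' := by
          rintro y' hy'd ⟨i', x', hx', hxy'⟩
          have hblky' : S.blk y' = m + 1 := S.Eblk _ d hd y' hy'd
          have a1 := hup i x hx
          have a2 := hlow i x hx
          have a3 := hup i' x' hx'
          have a4 := hlow i' x' hx'
          rw [hxy, hblky] at a1 a2
          rw [hxy', hblky'] at a3 a4
          have : i = i' := by
            rcases lt_trichotomy i i' with h | h | h
            · have := hKmono.monotone (Nat.succ_le_of_lt h)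
              simp only [Nat.succ_eq_add_one] at this
              omega
            · exact h
            · have := hKmono.monotone (Nat.succ_le_of_lt h)
              simp only [Nat.succ_eq_add_one] at this
              omega
          subst this
          exact ⟨x', hx', hxy'⟩
        rcases hdich (N i) (h2 (Ks i)) with ⟨z, hz⟩ | h
        · -- constant case
          have : cnt d A ≤ cnt d {y} := by
            apply cnt_mono
            intro y' hy' hy'A
            obtain ⟨x', hx', hxy'⟩ := hsame y' hy' hy'A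
            rw [Set.mem_singleton_iff, ← hxy', ← hxy, hz x' hx', hz x hx]
          have := cnt_singleton d y
          omega
        · -- high case
          have hlt : N i < m + 1 := by
            have := h x hx
            rw [hxy, hblky] at this
            exact this
          have hne' : N i + 1 ≠ m + 1 := by
            intro hc
            have := (h3 (Ks i)).2
            change N i + 1 ∉ a at this
            rw [hc] at this
            exact this hk
          have hcard : cnt d A ≤ (e (N i)).card := by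
            unfold cnt
            refine (Finset.card_le_card (t := (e (N i)).image f) ?_).trans Finset.card_image_le
            intro y' hy'
            rw [Finset.mem_filter] at hy'
            obtain ⟨x', hx', hxy'⟩ := hsame y' hy'.1 hy'.2
            exact Finset.mem_image.2 ⟨x', hx', hxy'⟩
          have hcard2 : (e (N i)).card ≤ (S.fin m).toFinset.card := by
            apply Finset.card_le_card
            intro x' hx'
            have := S.Eblk _ _ (he (N i) (h2 (Ks i))) x' hx'
            simp only [Set.Finite.mem_toFinset, Set.mem_ofPred_eq]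
            omega
          omega
      · push Not at hne
        rw [cnt_zero hne]
        omega
    exact_mod_cast this
  have hB := hf A hA
  obtain ⟨K, hK⟩ := hB (1 / 2) (by norm_num)
  have hN := hNge K
  have h5 := hK (N K + 1) (h3 (Ks K)).1 (by omega) (e (N K)) (he (N K) (h2 (Ks K)))
  have hfull : ∀ x ∈ e (N K), x ∈ f ⁻¹' A := fun x hx => ⟨K, x, hx, rfl⟩
  rw [cnt_full hfull, S.Ecard _ _ (he (N K) (h2 (Ks K)))] at h5
  have := S.MposR (N K + 1)
  linarith

end BlockSys

end Pool.Agent.Helper57
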