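import Pool.Agent.helper57.BlockSys

set_option autoImplicit false

namespace Pool.Agent.Helper57

open Filter Topology Set
open scoped ENNReal

/-- finite additivity on finite unions -/
theorem measure_sup {𝒜 : Type*} [BooleanAlgebra 𝒜] {μ : 𝒜 → ℝ} (hμ : IsBddMeasure μ)
    (P : Finset 𝒜) (hP : (P : Set 𝒜).PairwiseDisjoint id) : μ (P.sup id) = ∑ a ∈ P, μ a := by
  classical
  have h0 : μ ⊥ = 0 := by
    have := hμ.add ⊥ ⊥ disjoint_bot_left
    simp at this
    linarith
  induction P using Finset.induction_on with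
  | empty => simp [h0]
  | insert a P ha ih =>
    rw [Finset.sup_insert, Finset.sum_insert ha]
    have hP' : (P : Set 𝒜).PairwiseDisjoint id :=
      hP.subset (by rw [Finset.coe_insert]; exact subset_insert _ _)
    rw [id, hμ.add, ih hP']
    rw [Finset.disjoint_sup_right]
    intro b hb
    exact hP (by simp) (by simp [hb]) (by rintro rfl; exact ha hb)

theorem variation_le {𝒜 : Type*} [BooleanAlgebra 𝒜] {μ : 𝒜 → ℝ} (hμ : IsBddMeasure μ) {C : ℝ}
    (hC : ∀ a, |μ a| ≤ C) : variation μ ≤ ENNReal.ofReal (2 * C) := by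
  classical
  apply iSup_le
  rintro ⟨P, hP⟩
  rw [← ENNReal.ofReal_sum_of_nonneg (fun _ _ => abs_nonneg _)]
  apply ENNReal.ofReal_le_ofReal
  rw [← Finset.sum_filter_add_sum_filter_not P (fun a => 0 ≤ μ a)]
  have h1 : ∑ a ∈ P.filter (fun a => 0 ≤ μ a), |μ a| ≤ C := by
    rw [Finset.sum_congr rfl (fun a ha => abs_of_nonneg (Finset.mem_filter.1 ha).2),
      ← measure_sup hμ _ (hP.subset (Finset.coe_subset.2 (Finset.filter_subset _ _)))]
    exact (le_abs_self _).trans (hC _)
  have h2 : ∑ a ∈ P.filter (fun a => ¬ 0 ≤ μ a), |μ a| ≤ C := by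
    rw [Finset.sum_congr rfl (fun a ha => abs_of_neg (not_le.1 (Finset.mem_filter.1 ha).2)),
      Finset.sum_neg_distrib, ← measure_sup hμ _ (hP.subset (Finset.coe_subset.2 (Finset.filter_subset _ _)))]
    exact (neg_le_abs _).trans (hC _)
  linarith

/-- general reduction: a pointwise null sequence that is uniformly bounded on the ideal has bounded
variations -/
theorem nikodym_of_bounded (I : OmegaIdeal)
    (h : ∀ μ : ℕ → Set ℕ → ℝ,
      (∀ k, ∀ A ∈ I.sets, ∀ B ∈ I.sets, Disjoint A B → μ k (A ∪ B) = μ k A + μ k B) →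
      (∀ k, ∃ C : ℝ, ∀ A ∈ I.sets, |μ k A| ≤ C) →
      (∀ A ∈ I.sets, ∃ C : ℝ, ∀ k, |μ k A| ≤ C) →
      ∃ C : ℝ, ∀ k, ∀ A ∈ I.sets, |μ k A| ≤ C) :
    NikodymProperty I.algebra := by
  classical
  intro μ hμ hnull
  have hpt : ∀ a, ∃ C : ℝ, ∀ k, |μ k a| ≤ C := by
    intro a
    obtain ⟨C, hC⟩ := (hnull a).abs.bddAbove_range
    exact ⟨C, fun k => hC ⟨k, rfl⟩⟩
  let ν : ℕ → Set ℕ → ℝ := fun k A => if hA : A ∈ I.sets then μ k ⟨A, Or.inl hA⟩ else 0
  have hν : ∀ k A (hA : A ∈ I.sets), ν k A = μ k ⟨A, Or.inl hA⟩ := fun k A hA => dif_pos hA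
  obtain ⟨C, hC⟩ := h ν (by
    intro k A hA B hB hAB
    rw [hν k A hA, hν k B hB, hν k _ (I.union A hA B hB), ← (hμ k).add]
    · rfl
    · rw [disjoint_iff]
      apply Subtype.ext
      exact disjoint_iff.1 hAB) (by
    intro k
    obtain ⟨C, hC⟩ := (hμ k).bdd
    refine ⟨C, fun A hA => ?_⟩
    rw [hν k A hA]
    exact hC _) (by
    intro A hA
    obtain ⟨C, hC⟩ := hpt ⟨A, Or.inl hA⟩
    refine ⟨C, fun k => ?_⟩
    rw [hν k A hA]
    exact hC k)
  obtain ⟨D, hD⟩ := hpt ⊤
  refine ⟨2 * (C + D), fun k => variation_le (hμ k) ?_⟩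
  have hC0 : 0 ≤ C := (abs_nonneg _).trans (hC 0 ∅ (I.finite _ Set.finite_empty))
  have hD0 : 0 ≤ D := (abs_nonneg _).trans (hD 0)
  rintro ⟨A, hA⟩
  rcases hA with hA | hA
  · have := hC k A hA
    rw [hν k A hA] at this
    linarith
  · have h1 := hC k Aᶜ hA
    rw [hν k Aᶜ hA] at h1
    have h2 : μ k ⊤ = μ k ⟨A, Or.inr hA⟩ + μ k ⟨Aᶜ, Or.inl hA⟩ := by
      rw [← (hμ k).add]
      · congr 1
        apply Subtype.ext
        exact (sup_compl_eq_top (x := A)).symm
      · rw [disjoint_iff]
        apply Subtype.ext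
        exact inf_compl_eq_bot (a := A)
    have h3 : μ k ⟨A, Or.inr hA⟩ = μ k ⊤ - μ k ⟨Aᶜ, Or.inl hA⟩ := by linarith
    rw [h3]
    have := abs_sub (μ k ⊤) (μ k ⟨Aᶜ, Or.inl hA⟩)
    have := hD k
    linarith

namespace BlockSys

variable (S : BlockSys)

theorem nikodym (a : Set ℕ) (ha : a.Infinite) : NikodymProperty (S.ideal a ha).algebra := by
  classical
  apply nikodym_of_bounded
  intro μ hadd hb hp
  change (∀ k, ∀ A, S.mem a A → ∀ B, S.mem a B → Disjoint A B → μ k (A ∪ B) = μ k A + μ k B) at hadd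
  change (∀ k, ∃ C : ℝ, ∀ A, S.mem a A → |μ k A| ≤ C) at hb
  change (∀ A, S.mem a A → ∃ C : ℝ, ∀ k, |μ k A| ≤ C) at hp
  change ∃ C : ℝ, ∀ k, ∀ A, S.mem a A → |μ k A| ≤ C
  -- uniform bound below a member
  have hU : ∀ B, S.mem a B → ∃ C : ℝ, ∀ k, ∀ A, A ⊆ B → |μ k A| ≤ C := by
    intro B hB
    have hsub : ∀ A : Set ℕ, S.mem a (A ∩ B) := fun A => mem_mono hB inter_subset_right
    obtain ⟨C, hC⟩ := nikodym_powerset (μ := fun k A => μ k (A ∩ B))
      (by
        intro k A A' hAA'
        change μ k ((A ∪ A') ∩ B) = μ k (A ∩ B) + μ k (A' ∩ B)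
        rw [union_inter_distrib_right]
        exact hadd k _ (hsub A) _ (hsub A')
          (hAA'.mono inter_subset_left inter_subset_left))
      (by
        intro k
        obtain ⟨C, hC⟩ := hb k
        exact ⟨C, fun A => hC _ (hsub A)⟩)
      (by
        intro A
        exact hp _ (hsub A))
    refine ⟨C, fun k A hAB => ?_⟩
    have := hC k A
    rwa [inter_eq_left.2 hAB] at this
  have hempty : ∀ k, μ k ∅ = 0 := by
    intro k
    have := hadd k ∅ (mem_finite Set.finite_empty) ∅ (mem_finite Set.finite_empty)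
      disjoint_bot_left
    simp at this
    linarith
  have hfinsum : ∀ k (F : Finset ℕ), μ k (F : Set ℕ) = ∑ x ∈ F, μ k {x} := by
    intro k F
    induction F using Finset.induction_on with
    | empty => simp [hempty]
    | insert x F hx ih =>
      rw [Finset.coe_insert, Set.insert_eq, hadd k _ (mem_finite (Set.finite_singleton _)) _
        (mem_finite F.finite_toSet), Finset.sum_insert hx, ih]
      simpa using hx
  by_contra hcon
  push Not at hcon
  -- claim
  have claim : ∀ δ : ℝ, 0 < δ → ∀ L : ℝ, 0 ≤ L → ∃ k, ∃ B, S.mem a B ∧ (∀ n ∈ a, S.Sm n δ B) ∧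
      L < |μ k B| := by
    intro δ hδ L hL
    obtain ⟨C, hC0, n₀, hfrac⟩ := S.frac δ hδ
    obtain ⟨b, hbb⟩ := hU {x | S.blk x ≤ n₀} (mem_finite (S.fin n₀))
    have hb0 : 0 ≤ b := (abs_nonneg _).trans (hbb 0 ∅ (empty_subset _))
    obtain ⟨k, A, hA, hAk⟩ := hcon (b + (L + 2 * C * L))
    obtain ⟨K, hK⟩ := hA δ hδ
    let F : Set ℕ := {x | S.blk x ≤ n₀}
    let T1 : Set ℕ := (A \ F) ∩ {x | K ≤ S.blk x}
    let T2 : Set ℕ := (A \ F) ∩ {x | S.blk x < K}
    have hdec : μ k A = μ k (A ∩ F) + (μ k T1 + μ k T2) := by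
      rw [← hadd k T1, ← hadd k]
      · congr 1
        ext x
        simp only [T1, T2, F, Set.mem_union, Set.mem_inter_iff, Set.mem_sdiff, Set.mem_ofPred_eq]
        have := le_or_gt K (S.blk x)
        tauto
      · exact mem_mono hA inter_subset_left
      · refine mem_mono hA ?_
        rintro x (hx | hx)
        · exact hx.1.1
        · exact hx.1.1
      · rw [Set.disjoint_left]
        rintro x hx (hx' | hx')
        · exact hx'.1.2 hx.2
        · exact hx'.1.2 hx.2
      · exact mem_mono hA (fun x hx => hx.1.1)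
      · exact mem_mono hA (fun x hx => hx.1.1)
      · rw [Set.disjoint_left]
        rintro x hx hx'
        have h8 : K ≤ S.blk x := hx.2
        have h9 : S.blk x < K := hx'.2
        omega
    have h1 : |μ k (A ∩ F)| ≤ b := hbb k _ inter_subset_right
    have h2 : L + 2 * C * L < |μ k T1| + |μ k T2| := by
      have h3 : |μ k A| ≤ |μ k (A ∩ F)| + (|μ k T1| + |μ k T2|) := by
        rw [hdec]
        exact (abs_add_le _ _).trans (add_le_add le_rfl (abs_add_le _ _))
      linarith
    by_cases hT1 : L < |μ k T1|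
    · refine ⟨k, T1, mem_mono hA (fun x hx => hx.1.1), ?_, hT1⟩
      intro n hn
      rcases Nat.lt_or_ge n K with h | h
      · apply Sm_empty_block hδ.le
        rintro x hx hx1
        have h4 : K ≤ S.blk x := hx1.2
        omega
      · exact (hK n hn h).mono le_rfl (fun x _ hx => hx.1.1)
    · have hT2 : 2 * C * L < |μ k T2| := by
        have := not_lt.1 hT1
        linarith
      have hT2fin : T2.Finite := (S.fin K).subset (fun x hx => by
        have h9 : S.blk x < K := hx.2
        exact h9.le)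
      let w : ℕ → ℝ := fun x => |μ k {x}|
      let G : Finset ℕ := hT2fin.toFinset
      have hchoose : ∀ n, ∃ B : Set ℕ, (∀ e ∈ S.E n, (cnt e (B ∩ T2) : ℝ) ≤ δ * S.M n) ∧
          ∑ x ∈ G.filter (fun x => S.blk x = n), w x ≤
            C * ∑ x ∈ G.filter (fun x => S.blk x = n), (if x ∈ B then w x else 0) := by
        intro n
        rcases Nat.lt_or_ge n₀ n with h | h
        · obtain ⟨B, hB1, hB2⟩ := hfrac n h.le w (fun x => abs_nonneg _)
            (G.filter (fun x => S.blk x = n)) (fun x hx => (Finset.mem_filter.1 hx).2)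
          refine ⟨B, ?_, ?_⟩
          · intro e he
            refine le_trans ?_ (hB1 e he)
            have : cnt e (B ∩ T2) ≤ cnt e B := cnt_mono (fun x _ hx => hx.1)
            exact_mod_cast this
          · convert hB2 using 4
        · refine ⟨∅, ?_, ?_⟩
          · intro e _
            rw [cnt_zero (by simp)]
            have := (S.MposR n).le
            simp only [Nat.cast_zero]
            positivity
          · have : G.filter (fun x => S.blk x = n) = ∅ := by
              apply Finset.filter_eq_empty_iff.2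
              intro x hx hxn
              have hx' : x ∈ T2 := by simpa [G] using hx
              apply hx'.1.2
              simp only [F, Set.mem_ofPred_eq]
              omega
            rw [this]; simp
      choose B hB1 hB2 using hchoose
      let D : Finset ℕ := G.filter (fun x => x ∈ B (S.blk x))
      have hDsum : ∑ x ∈ G, w x ≤ C * ∑ x ∈ D, w x := by
        have e1 : ∑ x ∈ G, w x = ∑ n ∈ Finset.range (K + 1),
            ∑ x ∈ G.filter (fun x => S.blk x = n), w x := by
          symm
          apply Finset.sum_fiberwise_of_maps_to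
          intro x hx
          have hx' : x ∈ T2 := by simpa [G] using hx
          have : S.blk x < K := hx'.2
          rw [Finset.mem_range]; omega
        have e2 : ∑ x ∈ D, w x = ∑ n ∈ Finset.range (K + 1),
            ∑ x ∈ G.filter (fun x => S.blk x = n), (if x ∈ B n then w x else 0) := by
          simp only [D]
          rw [Finset.sum_filter]
          rw [← Finset.sum_fiberwise_of_maps_to (s := G) (t := Finset.range (K + 1))
            (g := fun x => S.blk x)]
          · apply Finset.sum_congr rfl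
            intro n _
            apply Finset.sum_congr rfl
            intro x hx
            rw [(Finset.mem_filter.1 hx).2]
          · intro x hx
            have hx' : x ∈ T2 := by simpa [G] using hx
            have : S.blk x < K := hx'.2
            rw [Finset.mem_range]; omega
        rw [e1, e2, Finset.mul_sum]
        exact Finset.sum_le_sum (fun n _ => hB2 n)
      have hμT2 : |μ k T2| ≤ ∑ x ∈ G, w x := by
        have : μ k T2 = μ k (G : Set ℕ) := by simp [G]
        rw [this, hfinsum]
        exact Finset.abs_sum_le_sum_abs _ _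
      have hDbig : 2 * L < ∑ x ∈ D, w x := by
        have : C * (2 * L) < C * ∑ x ∈ D, w x := by
          calc C * (2 * L) = 2 * C * L := by ring
            _ < _ := lt_of_lt_of_le (lt_of_lt_of_le hT2 hμT2) hDsum
        exact lt_of_mul_lt_mul_left this hC0.le
      -- a subset of D
      have hsm : ∀ D' : Finset ℕ, D' ⊆ D → ∀ n ∈ a, S.Sm n δ (D' : Set ℕ) := by
        intro D' hD' n _ e he
        refine le_trans ?_ (hB1 n e he)
        have : cnt e (D' : Set ℕ) ≤ cnt e (B n ∩ T2) := by
          apply cnt_mono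
          intro x hx hxD
          have h5 := hD' (Finset.mem_coe.1 hxD)
          simp only [D, Finset.mem_filter] at h5
          rw [S.Eblk n e he x hx] at h5
          exact ⟨h5.2, by simpa [G] using h5.1⟩
        exact_mod_cast this
      rw [← Finset.sum_filter_add_sum_filter_not D (fun x => 0 ≤ μ k {x})] at hDbig
      by_cases hpos : L < ∑ x ∈ D.filter (fun x => 0 ≤ μ k {x}), w x
      · refine ⟨k, ((D.filter (fun x => 0 ≤ μ k {x}) : Finset ℕ) : Set ℕ),
          mem_finite (Finset.finite_toSet _), hsm _ (Finset.filter_subset _ _), ?_⟩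
        rw [hfinsum]
        refine lt_of_lt_of_le ?_ (le_abs_self _)
        rwa [← Finset.sum_congr rfl (fun x hx => abs_of_nonneg (Finset.mem_filter.1 hx).2)]
      · have hneg : L < ∑ x ∈ D.filter (fun x => ¬ 0 ≤ μ k {x}), w x := by
          have := not_lt.1 hpos
          linarith
        refine ⟨k, ((D.filter (fun x => ¬ 0 ≤ μ k {x}) : Finset ℕ) : Set ℕ),
          mem_finite (Finset.finite_toSet _), hsm _ (Finset.filter_subset _ _), ?_⟩
        rw [hfinsum]
        refine lt_of_lt_of_le ?_ (neg_le_abs _)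
        rw [← Finset.sum_neg_distrib]
        rwa [← Finset.sum_congr rfl
          (fun x hx => abs_of_neg (not_le.1 (Finset.mem_filter.1 hx).2))]
  -- final contradiction
  choose k B hB hBs hBL using fun j : ℕ => claim ((1 / 2 : ℝ) ^ j) (by positivity) j (by positivity)
  have hmem : S.mem a (⋃ j, B j) := by
    intro ε hε
    obtain ⟨J, hJ⟩ := exists_pow_lt_of_lt_one (show (0 : ℝ) < ε / 4 by positivity)
      (show (1 / 2 : ℝ) < 1 by norm_num)
    -- thresholds
    choose Kj hKj using fun j : ℕ => hB j (ε / (2 * (J + 1))) (by positivity)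
    refine ⟨(Finset.range J).sup Kj, fun n hn hKn e he => ?_⟩
    -- choose finitely many
    obtain ⟨J', hJ'⟩ : ∃ J', ∀ x ∈ e, x ∈ (⋃ j, B j) → ∃ j < J', x ∈ B j := by
      have : ∀ x ∈ e, ∃ j, x ∈ (⋃ j, B j) → x ∈ B j := by
        intro x _
        by_cases h : x ∈ ⋃ j, B j
        · obtain ⟨j, hj⟩ := mem_iUnion.1 h
          exact ⟨j, fun _ => hj⟩
        · exact ⟨0, fun h' => absurd h' h⟩
      choose! f hf using this
      refine ⟨e.sup f + 1, fun x hx hx' => ⟨f x, Nat.lt_succ_of_le (Finset.le_sup hx), hf x hx hx'⟩⟩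
    have h1 : (cnt e (⋃ j, B j) : ℝ) ≤ ∑ j ∈ Finset.range (J + J'), (cnt e (B j) : ℝ) := by
      have : cnt e (⋃ j, B j) ≤ ∑ j ∈ Finset.range (J + J'), cnt e (B j) := by
        unfold cnt
        refine (Finset.card_le_card ?_).trans (Finset.card_biUnion_le)
        intro x hx
        rw [Finset.mem_filter] at hx
        obtain ⟨j, hj, hxj⟩ := hJ' x hx.1 hx.2
        rw [Finset.mem_biUnion]
        exact ⟨j, Finset.mem_range.2 (by omega), Finset.mem_filter.2 ⟨hx.1, hxj⟩⟩
      exact_mod_cast this
    have h2 : ∑ j ∈ Finset.range (J + J'), (cnt e (B j) : ℝ) ≤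
        ∑ j ∈ Finset.range J, (ε / (2 * (J + 1))) * S.M n +
          ∑ j ∈ Finset.range J', ((1 / 2 : ℝ) ^ (J + j)) * S.M n := by
      rw [Finset.sum_range_add]
      apply add_le_add
      · apply Finset.sum_le_sum
        intro j hj
        exact hKj j n hn (le_trans (Finset.le_sup hj) hKn) e he
      · apply Finset.sum_le_sum
        intro j _
        exact hBs (J + j) n hn e he
    have h3 : ∑ j ∈ Finset.range J, (ε / (2 * (J + 1))) * S.M n ≤ ε / 2 * S.M n := by
      rw [Finset.sum_const, Finset.card_range, nsmul_eq_mul, ← mul_assoc]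
      apply mul_le_mul_of_nonneg_right _ (S.MposR n).le
      rw [mul_div_assoc', div_le_div_iff₀ (by positivity) (by positivity)]
      nlinarith [hε.le]
    have h4 : ∑ j ∈ Finset.range J', ((1 / 2 : ℝ) ^ (J + j)) * S.M n ≤ ε / 2 * S.M n := by
      rw [← Finset.sum_mul]
      apply mul_le_mul_of_nonneg_right _ (S.MposR n).le
      simp only [pow_add]
      rw [← Finset.mul_sum]
      have h5 : ∑ j ∈ Finset.range J', (1 / 2 : ℝ) ^ j ≤ 2 := by
        have := sum_geometric_two_le J'
        simpa using this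
      calc (1 / 2 : ℝ) ^ J * ∑ j ∈ Finset.range J', (1 / 2 : ℝ) ^ j ≤ (ε / 4) * 2 := by
            apply mul_le_mul hJ.le h5 _ (by positivity)
            exact Finset.sum_nonneg (fun _ _ => by positivity)
        _ = ε / 2 := by ring
    calc (cnt e (⋃ j, B j) : ℝ) ≤ _ := h1.trans h2
      _ ≤ ε / 2 * S.M n + ε / 2 * S.M n := add_le_add h3 h4
      _ = ε * S.M n := by ring
  obtain ⟨C, hC⟩ := hU _ hmem
  obtain ⟨j, hj⟩ := exists_nat_gt C
  have h1 := hC (k j) (B j) (subset_iUnion B j)
  have h2 := hBL j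
  linarith

end BlockSys

end Pool.Agent.Helper57
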