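import Pool.Agent.helper57.BlockSys

set_option autoImplicit false

namespace Pool.Agent.Helper57

open Filter Topology Set
open scoped ENNReal

namespace BlockSys

variable (S : BlockSys)

/-- admissible covers of `A` in block `n` by lists of small sets with prices -/
def Adm (n : ℕ) (A : Set ℕ) (l : List (Set ℕ × ℝ)) : Prop :=
  (∀ x ∈ A, S.blk x = n → ∃ p ∈ l, x ∈ p.1) ∧ ∀ p ∈ l, 0 ≤ p.2 ∧ p.2 ≤ 1 / 3 ∧ S.Sm n p.2 p.1

/-- price of a list -/
def price (l : List (Set ℕ × ℝ)) : ℝ := (l.map Prod.snd).sum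

theorem price_nonneg {n : ℕ} {A : Set ℕ} {l : List (Set ℕ × ℝ)} (h : S.Adm n A l) : 0 ≤ price l := by
  apply List.sum_nonneg
  intro x hx
  obtain ⟨p, hp, rfl⟩ := List.mem_map.1 hx
  exact (h.2 p hp).1

/-- the pathological submeasure on block `n` -/
noncomputable def psi (n : ℕ) (A : Set ℕ) : ℝ≥0∞ :=
  ⨅ l : {l : List (Set ℕ × ℝ) // S.Adm n A l}, ENNReal.ofReal (price l.1)

theorem psi_le {n : ℕ} {A : Set ℕ} {l : List (Set ℕ × ℝ)} (h : S.Adm n A l) :
    S.psi n A ≤ ENNReal.ofReal (price l) :=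
  iInf_le (fun l : {l : List (Set ℕ × ℝ) // S.Adm n A l} => ENNReal.ofReal (price l.1)) ⟨l, h⟩

theorem psi_mono {n : ℕ} {A B : Set ℕ} (h : ∀ x ∈ A, S.blk x = n → x ∈ B) : S.psi n A ≤ S.psi n B := by
  apply le_iInf
  rintro ⟨l, hl⟩
  exact S.psi_le ⟨fun x hx hxn => hl.1 x (h x hx hxn) hxn, hl.2⟩

theorem psi_zero {n : ℕ} {A : Set ℕ} (h : ∀ x ∈ A, S.blk x ≠ n) : S.psi n A = 0 := by
  have h1 : S.Adm n A [] := ⟨fun x hx hxn => absurd hxn (h x hx), by simp⟩
  have := S.psi_le h1
  simpa [price] using this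

theorem psi_union {n : ℕ} (A B : Set ℕ) : S.psi n (A ∪ B) ≤ S.psi n A + S.psi n B := by
  unfold psi
  rw [ENNReal.iInf_add]
  apply le_iInf
  rintro ⟨l, hl⟩
  rw [ENNReal.add_iInf]
  apply le_iInf
  rintro ⟨l', hl'⟩
  have h : S.Adm n (A ∪ B) (l ++ l') := by
    refine ⟨?_, ?_⟩
    · rintro x (hx | hx) hxn
      · obtain ⟨p, hp, hxp⟩ := hl.1 x hx hxn
        exact ⟨p, List.mem_append_left _ hp, hxp⟩
      · obtain ⟨p, hp, hxp⟩ := hl'.1 x hx hxn
        exact ⟨p, List.mem_append_right _ hp, hxp⟩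
    · intro p hp
      rcases List.mem_append.1 hp with hp | hp
      · exact hl.2 p hp
      · exact hl'.2 p hp
  refine (S.psi_le h).trans ?_
  rw [← ENNReal.ofReal_add (S.price_nonneg hl) (S.price_nonneg hl')]
  apply ENNReal.ofReal_le_ofReal
  simp [price]

theorem psi_le_of_Sm {n : ℕ} {A : Set ℕ} {ε : ℝ} (h0 : 0 ≤ ε) (h1 : ε ≤ 1 / 3) (h : S.Sm n ε A) :
    S.psi n A ≤ ENNReal.ofReal ε := by
  have : S.Adm n A [(A, ε)] := by
    refine ⟨fun x hx _ => ⟨(A, ε), by simp, hx⟩, ?_⟩
    intro p hp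
    simp only [List.mem_singleton] at hp
    subst hp
    exact ⟨h0, h1, h⟩
  simpa [price] using S.psi_le this

/-- merging lemma -/
theorem merge {n : ℕ} (l : List (Set ℕ × ℝ)) (hl : ∀ p ∈ l, 0 ≤ p.2 ∧ p.2 ≤ 1 / 3 ∧ S.Sm n p.2 p.1) :
    ∃ (G : List (Set ℕ)) (G₀ : Set ℕ) (s : ℝ), 0 ≤ s ∧ s ≤ 1 / 3 ∧ S.Sm n s G₀ ∧
      (∀ B ∈ G, S.Sm n (2 / 3) B) ∧ (∀ x, (∃ p ∈ l, x ∈ p.1) → x ∈ G₀ ∨ ∃ B ∈ G, x ∈ B) ∧
      (G.length : ℝ) + 3 * s ≤ 3 * price l := by
  induction l with
  | nil =>
    refine ⟨[], ∅, 0, le_rfl, by norm_num, ?_, by simp, by simp, by simp [price]⟩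
    exact Sm_empty_block le_rfl (fun x _ => by simp)
  | cons p l ih =>
    obtain ⟨G, G₀, s, hs0, hs1, hG₀, hG, hcov, hlen⟩ := ih (fun q hq => hl q (List.mem_cons_of_mem _ hq))
    obtain ⟨hp0, hp1, hp2⟩ := hl p List.mem_cons_self
    have hprice : price (p :: l) = p.2 + price l := by simp [price]
    rcases le_or_gt (s + p.2) (1 / 3) with h | h
    · refine ⟨G, G₀ ∪ p.1, s + p.2, by linarith, h, hG₀.union hp2, hG, ?_, ?_⟩
      · rintro x ⟨q, hq, hxq⟩
        rcases List.mem_cons.1 hq with rfl | hq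
        · exact Or.inl (Or.inr hxq)
        · rcases hcov x ⟨q, hq, hxq⟩ with h' | h'
          · exact Or.inl (Or.inl h')
          · exact Or.inr h'
      · rw [hprice]; linarith
    · refine ⟨(G₀ ∪ p.1) :: G, ∅, 0, le_rfl, by norm_num,
        Sm_empty_block le_rfl (fun x _ => by simp), ?_, ?_, ?_⟩
      · intro B hB
        rcases List.mem_cons.1 hB with rfl | hB
        · exact (hG₀.union hp2).mono (by linarith) (fun x _ hx => hx)
        · exact hG B hB
      · rintro x ⟨q, hq, hxq⟩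
        right
        rcases List.mem_cons.1 hq with rfl | hq
        · exact ⟨_, List.mem_cons_self, Or.inr hxq⟩
        · rcases hcov x ⟨q, hq, hxq⟩ with h' | ⟨B, hB, hxB⟩
          · exact ⟨_, List.mem_cons_self, Or.inl h'⟩
          · exact ⟨B, List.mem_cons_of_mem _ hB, hxB⟩
      · rw [hprice]
        simp only [List.length_cons, Nat.cast_add, Nat.cast_one]
        linarith

theorem price_lower {n : ℕ} {l : List (Set ℕ × ℝ)} (h : S.Adm n univ l) :
    (S.c n : ℝ) ≤ 3 * price l + 1 := by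
  classical
  obtain ⟨G, G₀, s, hs0, hs1, hG₀, hG, hcov, hlen⟩ := S.merge l h.2
  by_contra hcon
  push Not at hcon
  have hlt : G.length + 1 < S.c n := by
    have : (G.length : ℝ) + 1 < S.c n := by linarith
    exact_mod_cast this
  -- colouring by index of first set
  let L : List (Set ℕ) := G₀ :: G
  let χ : ℕ → ℕ := fun x => L.findIdx (fun B => decide (x ∈ B))
  have hχ : ∀ x, χ x < S.c n := by
    intro x
    have : χ x ≤ L.length := List.findIdx_le_length
    simp only [L, List.length_cons] at this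
    omega
  obtain ⟨e, he, i, hi⟩ := S.cov n χ hχ
  have hne : e.Nonempty := by
    rw [← Finset.card_pos, S.Ecard n e he]
    exact S.Mpos' n
  obtain ⟨x₀, hx₀⟩ := hne
  have hfound : ∀ x ∈ e, χ x < L.length := by
    intro x hx
    apply List.findIdx_lt_length_of_exists
    rcases hcov x (h.1 x (mem_univ x) (S.Eblk n e he x hx)) with h' | ⟨B, hB, hxB⟩
    · exact ⟨G₀, List.mem_cons_self, by simpa using h'⟩
    · exact ⟨B, List.mem_cons_of_mem _ hB, by simpa using hxB⟩
  have hiL : i < L.length := by rw [← hi x₀ hx₀]; exact hfound x₀ hx₀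
  have hall : ∀ x ∈ e, x ∈ L[i] := by
    intro x hx
    have h1 : L.findIdx (fun B => decide (x ∈ B)) < L.length := hfound x hx
    have h2 := List.findIdx_getElem (w := h1)
    have h3 : L.findIdx (fun B => decide (x ∈ B)) = i := hi x hx
    simp only [h3] at h2
    simpa using h2
  have hsm : S.Sm n (2 / 3) L[i] := by
    have hmem : L[i] ∈ L := List.getElem_mem hiL
    rcases List.mem_cons.1 hmem with h' | h'
    · rw [h']; exact hG₀.mono (by linarith) (fun x _ hx => hx)
    · exact hG _ h'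
  have h5 := hsm e he
  rw [cnt_full hall, S.Ecard n e he] at h5
  have := S.MposR n
  linarith

theorem psi_lower (n : ℕ) : ENNReal.ofReal (((S.c n : ℝ) - 1) / 3) ≤ S.psi n univ := by
  apply le_iInf
  rintro ⟨l, hl⟩
  apply ENNReal.ofReal_le_ofReal
  have := S.price_lower hl
  linarith

/-- the submeasure -/
noncomputable def Psi (a : Set ℕ) (A : Set ℕ) : ℝ≥0∞ := ⨆ n : a, S.psi n A

theorem Psi_lsc (a : Set ℕ) : IsLSCSubmeasure (S.Psi a) where
  empty := by
    unfold Psi
    simp only [S.psi_zero (A := ∅) (by simp)]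
    simp
  mono := by
    intro A B hAB
    exact iSup_mono (fun n => S.psi_mono (fun x hx _ => hAB hx))
  subadd := by
    intro A B
    apply iSup_le
    intro n
    exact (S.psi_union A B).trans (add_le_add (le_iSup (fun n : a => S.psi n A) n)
      (le_iSup (fun n : a => S.psi n B) n))
  singleton := by
    intro x
    refine lt_of_le_of_lt (b := 1) ?_ (by simp)
    apply iSup_le
    rintro ⟨n, hn⟩
    have h1 : S.Sm n (1 / 3) {x} := by
      intro e he
      have h2 : (cnt e {x} : ℝ) ≤ 1 := by exact_mod_cast cnt_singleton e x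
      have h3 : (3 : ℝ) ≤ S.M n := by exact_mod_cast S.Mpos n
      linarith
    refine (S.psi_le_of_Sm (by norm_num) le_rfl h1).trans ?_
    rw [ENNReal.ofReal_le_one]
    norm_num
  lsc := by
    intro A
    have hmono : Monotone (fun k => S.Psi a (A ∩ Iio k)) := by
      intro k k' hk
      apply iSup_mono
      intro n
      apply S.psi_mono
      intro x hx _
      exact ⟨hx.1, lt_of_lt_of_le (mem_Iio.1 hx.2) hk⟩
    have h := tendsto_atTop_iSup hmono
    have heq : ⨆ k, S.Psi a (A ∩ Iio k) = S.Psi a A := by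
      apply le_antisymm
      · apply iSup_le
        intro k
        exact iSup_mono (fun n => S.psi_mono (fun x hx _ => hx.1))
      · apply iSup_le
        rintro ⟨n, hn⟩
        obtain ⟨N, hN⟩ := (S.fin n).bddAbove
        have : S.psi n A ≤ S.psi n (A ∩ Iio (N + 1)) := by
          apply S.psi_mono
          intro x hx hxn
          refine ⟨hx, ?_⟩
          have h4 : x ∈ {x | S.blk x ≤ n} := by simp only [mem_ofPred_eq]; omega
          have := hN h4
          simp only [mem_Iio]; omega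
        refine this.trans ?_
        refine le_trans ?_ (le_iSup (fun k => S.Psi a (A ∩ Iio k)) (N + 1))
        exact le_iSup (fun n : a => S.psi n (A ∩ Iio (N + 1))) ⟨n, hn⟩
    rwa [heq] at h

theorem not_totallyBounded (a : Set ℕ) (ha : a.Infinite) : ¬ (S.ideal a ha).TotallyBounded := by
  intro h
  have h1 := h (S.Psi a) (S.Psi_lsc a) ?_
  · -- psi is unbounded
    have h2 : ∀ r : ℝ, 0 ≤ r → ENNReal.ofReal r ≤ S.Psi a univ := by
      intro r hr
      obtain ⟨N, hN⟩ := exists_nat_gt (3 * r + 3)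
      obtain ⟨n, hn, hNn⟩ := ha.exists_gt N
      refine le_trans ?_ (le_iSup (fun n : a => S.psi n univ) ⟨n, hn⟩)
      refine le_trans ?_ (S.psi_lower n)
      apply ENNReal.ofReal_le_ofReal
      obtain ⟨m, rfl⟩ : ∃ m, n = m + 1 := ⟨n - 1, by omega⟩
      have h3 := S.cbig m
      have h4 : (m : ℝ) ≤ S.c (m + 1) := by exact_mod_cast (le_trans (Nat.le_add_left _ _) h3)
      have h5 : (N : ℝ) ≤ m := by exact_mod_cast (by omega : N ≤ m)
      linarith
    have h3 := h2 ((S.Psi a univ).toReal + 1) (by positivity)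
    rw [ENNReal.ofReal_add (by positivity) (by norm_num), ENNReal.ofReal_toReal h1.ne] at h3
    simp only [ENNReal.ofReal_one] at h3
    exact absurd h3 (not_le.2 (ENNReal.lt_add_right h1.ne (by simp)))
  · intro A hA
    change Tendsto _ _ _
    change S.mem a A at hA
    rw [ENNReal.tendsto_atTop_zero]
    intro ε hε
    obtain ⟨r, hr0, hr1, hrε⟩ : ∃ r : ℝ, 0 < r ∧ r ≤ 1 / 3 ∧ ENNReal.ofReal r ≤ ε := by
      rcases eq_or_ne ε ∞ with rfl | hne
      · exact ⟨1 / 3, by norm_num, le_rfl, le_top⟩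
      · refine ⟨min ε.toReal (1 / 3), lt_min (ENNReal.toReal_pos hε.ne' hne) (by norm_num),
          min_le_right _ _, ?_⟩
        calc ENNReal.ofReal (min ε.toReal (1 / 3)) ≤ ENNReal.ofReal ε.toReal :=
              ENNReal.ofReal_le_ofReal (min_le_left _ _)
          _ = ε := ENNReal.ofReal_toReal hne
    obtain ⟨K, hK⟩ := hA r hr0
    obtain ⟨N, hN⟩ := (S.fin K).bddAbove
    refine ⟨N + 1, fun k hk => ?_⟩
    refine le_trans ?_ hrε
    apply iSup_le
    rintro ⟨n, hn⟩
    rcases Nat.lt_or_ge n K with h1 | h1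
    · rw [S.psi_zero]
      · exact bot_le
      · rintro x ⟨_, hx2⟩ hxn
        apply hx2
        simp only at hxn
        have h4 : x ∈ {x | S.blk x ≤ K} := by simp only [mem_ofPred_eq]; omega
        have := hN h4
        simp only [mem_Iio]; omega
    · apply S.psi_le_of_Sm hr0.le hr1
      exact (hK n hn h1).mono le_rfl (fun x _ hx => hx.1)

end BlockSys

end Pool.Agent.Helper57
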