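import Mathlib

set_option autoImplicit false

namespace Pool.Agent.Helper57

open Filter Topology Set

/-- finite subsets version: finitely additive set functions on all subsets of a type -/
def FA {X : Type*} (μ : Set X → ℝ) : Prop := ∀ A B, Disjoint A B → μ (A ∪ B) = μ A + μ B

theorem FA.empty {X : Type*} {μ : Set X → ℝ} (h : FA μ) : μ ∅ = 0 := by
  have := h ∅ ∅ (disjoint_bot_left)
  simp at this
  linarith

theorem FA.diff {X : Type*} {μ : Set X → ℝ} (h : FA μ) {A B : Set X} (hAB : A ⊆ B) :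
    μ (B \ A) = μ B - μ A := by
  have := h A (B \ A) disjoint_sdiff_right
  rw [union_sdiff_cancel hAB] at this
  linarith

/-- splitting ℕ-reservoir: a bounded additive set function on subsets of ℕ is small on all subsets of
some infinite subset of any infinite set -/
theorem exists_small_infinite {ν : Set ℕ → ℝ} (hν : FA ν) {C : ℝ} (hC : ∀ A, |ν A| ≤ C)
    {R : Set ℕ} (hR : R.Infinite) :
    ∃ R' : Set ℕ, R' ⊆ R ∧ R'.Infinite ∧ ∀ S, S ⊆ R' → |ν S| ≤ 1 := by
  classical
  by_contra hcon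
  push Not at hcon
  -- infinite disjoint infinite subsets of R
  obtain ⟨f, hf⟩ : ∃ f : ℕ → ℕ × ℕ, Function.Bijective f := ⟨Nat.unpair, Nat.pairEquiv.symm.bijective⟩
  let e := hR.natEmbedding
  let P : ℕ → Set ℕ := fun l => {x | ∃ k, x = (e (Nat.pair l k) : ℕ)}
  have hPR : ∀ l, P l ⊆ R := by
    rintro l x ⟨k, rfl⟩
    exact (e _).2
  have hPinf : ∀ l, (P l).Infinite := by
    intro l
    have : Function.Injective (fun k => (e (Nat.pair l k) : ℕ)) := by
      intro a b hab
      have h1 := e.injective (Subtype.ext hab)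
      have := congrArg Nat.unpair h1
      simpa using this
    have h2 := Set.infinite_range_of_injective this
    refine h2.mono ?_
    rintro _ ⟨k, rfl⟩
    exact ⟨k, rfl⟩
  have hPd : ∀ l l', l ≠ l' → Disjoint (P l) (P l') := by
    intro l l' hll
    rw [Set.disjoint_left]
    rintro x ⟨k, rfl⟩ ⟨k', h'⟩
    have h1 := e.injective (Subtype.ext h')
    have := congrArg Nat.unpair h1
    simp at this
    exact hll this.1
  choose S hS hS1 using fun l => hcon (P l) (hPR l) (hPinf l)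
  have hSd : ∀ l l', l ≠ l' → Disjoint (S l) (S l') := fun l l' h =>
    (hPd l l' h).mono (hS l) (hS l')
  -- sums over finite sets of indices
  have hsum : ∀ F : Finset ℕ, ν (⋃ l ∈ F, S l) = ∑ l ∈ F, ν (S l) := by
    intro F
    induction F using Finset.induction_on with
    | empty => simp [hν.empty]
    | insert a F ha ih =>
      rw [Finset.sum_insert ha, ← ih, ← hν]
      · congr 1
        ext x; simp
      · rw [Set.disjoint_left]
        intro x hx hx'
        simp only [mem_iUnion] at hx'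
        obtain ⟨l, hl, hxl⟩ := hx'
        have hne : a ≠ l := by rintro rfl; exact ha hl
        exact Set.disjoint_left.1 (hSd a l hne) hx hxl
  obtain ⟨N, hN⟩ := exists_nat_gt (2 * C)
  -- among 2N+... indices
  have hsplit : ∑ l ∈ Finset.range N, |ν (S l)| ≤ 2 * C := by
    have h1 := Finset.sum_filter_add_sum_filter_not (Finset.range N) (fun l => 0 ≤ ν (S l))
      (fun l => |ν (S l)|)
    rw [← h1]
    have h2 : ∑ l ∈ (Finset.range N).filter (fun l => 0 ≤ ν (S l)), |ν (S l)| ≤ C := by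
      have : ∑ l ∈ (Finset.range N).filter (fun l => 0 ≤ ν (S l)), |ν (S l)| =
          ∑ l ∈ (Finset.range N).filter (fun l => 0 ≤ ν (S l)), ν (S l) := by
        apply Finset.sum_congr rfl
        intro l hl
        exact abs_of_nonneg (Finset.mem_filter.1 hl).2
      rw [this, ← hsum]
      exact (le_abs_self _).trans (hC _)
    have h3 : ∑ l ∈ (Finset.range N).filter (fun l => ¬ 0 ≤ ν (S l)), |ν (S l)| ≤ C := by
      have : ∑ l ∈ (Finset.range N).filter (fun l => ¬ 0 ≤ ν (S l)), |ν (S l)| =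
          - ∑ l ∈ (Finset.range N).filter (fun l => ¬ 0 ≤ ν (S l)), ν (S l) := by
        rw [← Finset.sum_neg_distrib]
        apply Finset.sum_congr rfl
        intro l hl
        exact abs_of_neg (not_le.1 (Finset.mem_filter.1 hl).2)
      rw [this, ← hsum]
      exact (neg_le_abs _).trans (hC _)
    linarith
  have hge : (N : ℝ) ≤ ∑ l ∈ Finset.range N, |ν (S l)| := by
    have : ∑ l ∈ Finset.range N, (1 : ℝ) ≤ ∑ l ∈ Finset.range N, |ν (S l)| :=
      Finset.sum_le_sum (fun l _ => (hS1 l).le)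
    simpa using this
  linarith

/-- choosing a subsequence with small tails -/
theorem exists_infinite_tails {ν : ℕ → Set ℕ → ℝ} (hν : ∀ j, FA (ν j))
    (hC : ∀ j, ∃ C : ℝ, ∀ A, |ν j A| ≤ C) :
    ∃ M : ℕ → ℕ, StrictMono M ∧ ∀ i, |ν (M i) (M '' Ioi i)| ≤ 1 := by
  classical
  -- state: infinite reservoir and an element of it
  let St := {p : Set ℕ × ℕ // p.1.Infinite}
  have step : ∀ s : St, ∃ t : St, t.1.1 ⊆ s.1.1 ∧ t.1.2 ∈ s.1.1 ∧ s.1.2 < t.1.2 ∧
      (∀ x ∈ t.1.1, t.1.2 < x) ∧ ∀ S, S ⊆ t.1.1 → |ν t.1.2 S| ≤ 1 := by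
    rintro ⟨⟨R, j⟩, hR⟩
    obtain ⟨j', hj', hjj'⟩ := hR.exists_gt j
    have hR2 : (R ∩ Ioi j').Infinite := by
      have := hR.sdiff (Set.finite_Iic j')
      refine this.mono ?_
      intro x hx
      exact ⟨hx.1, mem_Ioi.2 (not_le.1 (fun h => hx.2 h))⟩
    obtain ⟨C, hC'⟩ := hC j'
    obtain ⟨R', hR', hinf, hsm⟩ := exists_small_infinite (hν j') hC' hR2
    exact ⟨⟨⟨R', j'⟩, hinf⟩, fun x hx => (hR' hx).1, hj', hjj', fun x hx => (hR' hx).2, hsm⟩
  choose nxt hn1 hn2 hn3 hn4 hn5 using step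
  let s : ℕ → St := fun n => Nat.rec ⟨⟨univ, 0⟩, Set.infinite_univ⟩ (fun _ t => nxt t) n
  have hs : ∀ n, s (n + 1) = nxt (s n) := fun n => rfl
  let M : ℕ → ℕ := fun n => (s (n + 1)).1.2
  have hsub : ∀ n k, (s (n + k)).1.1 ⊆ (s n).1.1 := by
    intro n k
    induction k with
    | zero => exact subset_rfl
    | succ k ih => exact (hs (n + k) ▸ hn1 (s (n + k))).trans ih
  have hM : StrictMono M := by
    apply strictMono_nat_of_lt_succ
    intro n
    exact hn3 (s (n + 1))
  refine ⟨M, hM, ?_⟩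
  intro i
  have hsub2 : M '' Ioi i ⊆ (s (i + 1)).1.1 := by
    rintro _ ⟨k, hk, rfl⟩
    obtain ⟨d, rfl⟩ := Nat.exists_eq_add_of_lt hk
    have h1 : M (i + d + 1) ∈ (s (i + d + 1)).1.1 := hn2 (s (i + d + 1))
    have h2 : (s (i + d + 1)).1.1 ⊆ (s (i + 1)).1.1 := by
      have := hsub (i + 1) d
      rwa [show i + 1 + d = i + d + 1 by ring] at this
    exact h2 h1
  exact hn5 (s i) _ hsub2

/-- Nikodym boundedness on the full power set -/
theorem nikodym_powerset {X : Type*} {μ : ℕ → Set X → ℝ} (hμ : ∀ k, FA (μ k))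
    (hb : ∀ k, ∃ C : ℝ, ∀ A, |μ k A| ≤ C) (hp : ∀ A, ∃ C : ℝ, ∀ k, |μ k A| ≤ C) :
    ∃ C : ℝ, ∀ k A, |μ k A| ≤ C := by
  classical
  by_contra hcon
  push Not at hcon
  choose c hc using hp
  let Unb : Set X → Prop := fun E => ∀ C : ℝ, ∃ k, ∃ A, A ⊆ E ∧ C < |μ k A|
  have step : ∀ E, Unb E → ∀ K : ℝ, ∃ A, A ⊆ E ∧ (∃ k, K < |μ k A|) ∧ Unb (E \ A) := by
    intro E hE K
    obtain ⟨k, A, hAE, hA⟩ := hE (|K| + c E)
    have hcE : |μ k E| ≤ c E := hc E k
    have hK : K ≤ |K| := le_abs_self K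
    have hKnn : 0 ≤ |K| := abs_nonneg K
    have hcEnn : 0 ≤ c E := (abs_nonneg _).trans hcE
    have hd : μ k (E \ A) = μ k E - μ k A := (hμ k).diff hAE
    have hd' : |K| < |μ k (E \ A)| := by
      rw [hd]
      have : |μ k A| - |μ k E| ≤ |μ k E - μ k A| := by
        have := abs_sub_abs_le_abs_sub (μ k A) (μ k E)
        rwa [abs_sub_comm] at this
      linarith
    by_cases h1 : Unb (E \ A)
    · exact ⟨A, hAE, ⟨k, by linarith⟩, h1⟩
    · refine ⟨E \ A, sdiff_subset, ⟨k, by linarith⟩, ?_⟩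
      rw [sdiff_sdiff_cancel_left hAE]
      by_contra h2
      simp only [Unb] at h1 h2
      push Not at h1 h2
      obtain ⟨C1, hC1⟩ := h1
      obtain ⟨C2, hC2⟩ := h2
      obtain ⟨k', A', hA', hlt⟩ := hE (C1 + C2)
      have h3 : μ k' A' = μ k' (A' \ A) + μ k' (A' ∩ A) := by
        rw [← hμ k', sdiff_union_inter]
        exact Set.disjoint_left.2 fun x hx hx' => hx.2 hx'.2
      have h4 := hC1 k' (A' \ A) (sdiff_subset_sdiff_left hA')
      have h5 := hC2 k' (A' ∩ A) inter_subset_right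
      have h6 := abs_add_le (μ k' (A' \ A)) (μ k' (A' ∩ A))
      rw [← h3] at h6
      linarith
  -- states
  let St := {p : Set X × ℝ // Unb p.1}
  have hstep : ∀ (n : ℕ) (s : St), ∃ A, A ⊆ s.1.1 ∧ (∃ k, (n : ℝ) + 2 + s.1.2 < |μ k A|) ∧ Unb (s.1.1 \ A) :=
    fun n s => step s.1.1 s.2 _
  choose A hA1 hA2 hA3 using hstep
  have huniv : Unb univ := by
    intro C
    obtain ⟨k, A, h⟩ := hcon C
    exact ⟨k, A, subset_univ _, h⟩
  let s : ℕ → St := fun n => Nat.rec ⟨⟨univ, 0⟩, huniv⟩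
    (fun n t => ⟨⟨t.1.1 \ A n t, t.1.2 + c (A n t)⟩, hA3 n t⟩) n
  have hs1 : ∀ n, (s (n + 1)).1.1 = (s n).1.1 \ A n (s n) := fun n => rfl
  have hs2 : ∀ n, (s (n + 1)).1.2 = (s n).1.2 + c (A n (s n)) := fun n => rfl
  let B : ℕ → Set X := fun n => A n (s n)
  have hBE : ∀ n, B n ⊆ (s n).1.1 := fun n => hA1 n (s n)
  have hmonoE : ∀ n k, (s (n + k)).1.1 ⊆ (s n).1.1 := by
    intro n k
    induction k with
    | zero => exact subset_rfl
    | succ k ih =>
      have : (s (n + k + 1)).1.1 ⊆ (s (n + k)).1.1 := by rw [hs1]; exact sdiff_subset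
      exact this.trans ih
  have hBd : ∀ i j, i < j → Disjoint (B i) (B j) := by
    intro i j hij
    obtain ⟨d, rfl⟩ := Nat.exists_eq_add_of_lt hij
    rw [Set.disjoint_left]
    intro x hx hx'
    have h1 : x ∈ (s (i + 1 + d)).1.1 := by
      have := hBE _ hx'
      rwa [show i + d + 1 = i + 1 + d by ring] at this
    have h2 := hmonoE (i + 1) d h1
    rw [hs1] at h2
    exact h2.2 hx
  have hBd' : ∀ i j, i ≠ j → Disjoint (B i) (B j) := by
    intro i j hij
    rcases lt_or_gt_of_ne hij with h | h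
    · exact hBd i j h
    · exact (hBd j i h).symm
  have hsum : ∀ n, (s n).1.2 = ∑ i ∈ Finset.range n, c (B i) := by
    intro n
    induction n with
    | zero => rfl
    | succ n ih => rw [hs2, ih, Finset.sum_range_succ]
  choose k hk using fun n => hA2 n (s n)
  -- transfer to subsets of ℕ
  let ν : ℕ → Set ℕ → ℝ := fun j S => μ (k j) (⋃ i ∈ S, B i)
  have hνFA : ∀ j, FA (ν j) := by
    intro j S T hST
    have h1 : (⋃ i ∈ S ∪ T, B i) = (⋃ i ∈ S, B i) ∪ (⋃ i ∈ T, B i) := by
      rw [Set.biUnion_union]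
    simp only [ν]
    rw [h1, hμ (k j)]
    rw [Set.disjoint_left]
    intro x hx hx'
    simp only [mem_iUnion] at hx hx'
    obtain ⟨i, hi, hxi⟩ := hx
    obtain ⟨i', hi', hxi'⟩ := hx'
    have : i = i' := by
      by_contra hne
      exact Set.disjoint_left.1 (hBd' i i' hne) hxi hxi'
    subst this
    exact Set.disjoint_left.1 hST hi hi'
  have hνb : ∀ j, ∃ C : ℝ, ∀ S, |ν j S| ≤ C := by
    intro j
    obtain ⟨C, hC⟩ := hb (k j)
    exact ⟨C, fun S => hC _⟩
  obtain ⟨M, hM, hMt⟩ := exists_infinite_tails hνFA hνb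
  let U : Set X := ⋃ i ∈ range M, B i
  obtain ⟨j, hj⟩ := exists_nat_gt (c U)
  -- decompose
  have hjM : (j : ℝ) ≤ M j := by exact_mod_cast hM.id_le j
  have hdec : range M = (M '' Iio j) ∪ ({M j} ∪ M '' Ioi j) := by
    ext x
    constructor
    · rintro ⟨i, rfl⟩
      rcases lt_trichotomy i j with h | h | h
      · exact Or.inl ⟨i, h, rfl⟩
      · subst h; exact Or.inr (Or.inl rfl)
      · exact Or.inr (Or.inr ⟨i, h, rfl⟩)
    · rintro (⟨i, _, rfl⟩ | (h | ⟨i, _, rfl⟩))
      · exact ⟨i, rfl⟩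
      · exact ⟨j, h.symm⟩
      · exact ⟨i, rfl⟩
  have hν1 : ν (M j) (range M) = ν (M j) (M '' Iio j) + (ν (M j) {M j} + ν (M j) (M '' Ioi j)) := by
    rw [hdec, hνFA (M j), hνFA (M j)]
    · rw [Set.disjoint_left]
      rintro x hx ⟨i, hi, rfl⟩
      have : i = j := hM.injective hx
      subst this
      exact lt_irrefl _ (mem_Ioi.1 hi)
    · rw [Set.disjoint_left]
      rintro x ⟨i, hi, rfl⟩ (hx | ⟨i', hi', hx⟩)
      · have : i = j := hM.injective hx
        subst this
        exact lt_irrefl _ (mem_Iio.1 hi)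
      · have : i' = i := hM.injective hx
        subst this
        exact lt_asymm (mem_Iio.1 hi) (mem_Ioi.1 hi')
  -- the initial part
  have hinit : ∀ (F : Finset ℕ) (l : ℕ), |ν l (F : Set ℕ)| ≤ ∑ i ∈ F, c (B i) := by
    intro F l
    induction F using Finset.induction_on with
    | empty => simp [(hνFA l).empty]
    | insert a F ha ih =>
      rw [Finset.coe_insert, Set.insert_eq, hνFA l, Finset.sum_insert ha]
      · refine (abs_add_le _ _).trans (add_le_add ?_ ih)
        have : ν l {a} = μ (k l) (B a) := by simp [ν]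
        rw [this]
        exact hc _ _
      · simpa using ha
  have hcnn : ∀ A, 0 ≤ c A := fun A => (abs_nonneg _).trans (hc A 0)
  have h1 : |ν (M j) (M '' Iio j)| ≤ (s (M j)).1.2 := by
    have hfin : (M '' Iio j) = (((Finset.range j).image M : Finset ℕ) : Set ℕ) := by
      ext x; simp
    rw [hfin, hsum]
    refine (hinit _ _).trans ?_
    apply Finset.sum_le_sum_of_subset_of_nonneg
    · intro x hx
      simp only [Finset.mem_image, Finset.mem_range] at hx ⊢
      obtain ⟨i, hi, rfl⟩ := hx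
      exact hM hi
    · intro i _ _
      exact hcnn _
  have h2 : (M j : ℝ) + 2 + (s (M j)).1.2 < |ν (M j) {M j}| := by
    have : ν (M j) {M j} = μ (k (M j)) (B (M j)) := by simp [ν]
    rw [this]
    exact hk (M j)
  have h3 : |ν (M j) (M '' Ioi j)| ≤ 1 := hMt j
  have h4 : |ν (M j) (range M)| ≤ c U := hc U _
  rw [hν1] at h4
  have h5 : |ν (M j) {M j}| ≤ |ν (M j) (M '' Iio j) + (ν (M j) {M j} + ν (M j) (M '' Ioi j))|
      + |ν (M j) (M '' Iio j)| + |ν (M j) (M '' Ioi j)| := by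
    set x := ν (M j) (M '' Iio j)
    set y := ν (M j) {M j}
    set z := ν (M j) (M '' Ioi j)
    have : y = (x + (y + z)) - x - z := by ring
    calc |y| = |(x + (y + z)) - x - z| := by rw [← this]
      _ ≤ |(x + (y + z)) - x| + |z| := abs_sub _ _
      _ ≤ |x + (y + z)| + |x| + |z| := by gcongr; exact abs_sub _ _
  linarith

end Pool.Agent.Helper57
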