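import Pool.Agent.helper57.KatetovCount
import Pool.Agent.helper57.NikodymPowerset

set_option autoImplicit false

namespace Pool.Agent.Helper57

open Filter Topology Set
open scoped ENNReal

/-- a system of finite blocks with hyperedges -/
structure BlockSys where
  blk : ℕ → ℕ
  fin : ∀ n, {x | blk x ≤ n}.Finite
  M : ℕ → ℕ
  Mpos : ∀ n, 3 ≤ M n
  E : ℕ → Set (Finset ℕ)
  Eblk : ∀ n, ∀ e ∈ E n, ∀ x ∈ e, blk x = n
  Ecard : ∀ n, ∀ e ∈ E n, e.card = M n
  /-- number of colours -/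
  c : ℕ → ℕ
  /-- every colouring of block `n` with `c n` colours has a monochromatic edge -/
  cov : ∀ n, ∀ χ : ℕ → ℕ, (∀ x, χ x < c n) → ∃ e ∈ E n, ∃ i, ∀ x ∈ e, χ x = i
  cbig : ∀ n, (fin n).toFinset.card + n ≤ c (n + 1)
  cpos : ∀ n, 0 < c n
  /-- growth -/
  growth : ∀ ε : ℝ, 0 < ε → ∃ K, ∀ n, K ≤ n → ((fin n).toFinset.card : ℝ) + 1 ≤ ε * M (n + 1)
  /-- fractional covering -/
  frac : ∀ δ : ℝ, 0 < δ → ∃ C : ℝ, 0 < C ∧ ∃ n₀, ∀ n, n₀ ≤ n → ∀ w : ℕ → ℝ, (∀ x, 0 ≤ w x) →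
    ∀ F : Finset ℕ, (∀ x ∈ F, blk x = n) → ∃ A : Set ℕ, (∀ e ∈ E n, (cnt e A : ℝ) ≤ δ * M n) ∧
      ∑ x ∈ F, w x ≤ C * ∑ x ∈ F, (open Classical in if x ∈ A then w x else 0)

namespace BlockSys

variable (S : BlockSys)

/-- smallness of a set in block `n` -/
def Sm (n : ℕ) (δ : ℝ) (A : Set ℕ) : Prop := ∀ e ∈ S.E n, (cnt e A : ℝ) ≤ δ * S.M n

theorem Mpos' (n : ℕ) : 0 < S.M n := by have := S.Mpos n; omega

theorem MposR (n : ℕ) : (0 : ℝ) < S.M n := by exact_mod_cast S.Mpos' n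

theorem Ene (n : ℕ) : (S.E n).Nonempty := by
  obtain ⟨e, he, _⟩ := S.cov n (fun _ => 0) (fun _ => S.cpos n)
  exact ⟨e, he⟩

variable {S}

theorem Sm.mono {n : ℕ} {δ δ' : ℝ} {A B : Set ℕ} (h : S.Sm n δ A) (hδ : δ ≤ δ')
    (hBA : ∀ x, S.blk x = n → x ∈ B → x ∈ A) : S.Sm n δ' B := by
  intro e he
  have h1 : (cnt e B : ℝ) ≤ cnt e A := by
    exact_mod_cast cnt_mono (fun x hx => hBA x (S.Eblk n e he x hx))
  have h2 := h e he
  have h3 := mul_le_mul_of_nonneg_right hδ (S.MposR n).le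
  linarith

theorem Sm.union {n : ℕ} {δ δ' : ℝ} {A B : Set ℕ} (h : S.Sm n δ A) (h' : S.Sm n δ' B) :
    S.Sm n (δ + δ') (A ∪ B) := by
  intro e he
  have h1 : (cnt e (A ∪ B) : ℝ) ≤ cnt e A + cnt e B := by exact_mod_cast cnt_union e A B
  have h2 := h e he
  have h3 := h' e he
  nlinarith

theorem Sm_empty_block {n : ℕ} {δ : ℝ} (hδ : 0 ≤ δ) {A : Set ℕ} (h : ∀ x, S.blk x = n → x ∉ A) :
    S.Sm n δ A := by
  intro e he
  rw [cnt_zero (fun x hx => h x (S.Eblk n e he x hx))]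
  have := (S.MposR n).le
  simp only [Nat.cast_zero]
  positivity

variable (S)

/-- the ideal attached to a set of levels -/
def mem (a : Set ℕ) (A : Set ℕ) : Prop := ∀ ε : ℝ, 0 < ε → ∃ K, ∀ n ∈ a, K ≤ n → S.Sm n ε A

variable {S}

theorem mem_mono {a : Set ℕ} {A B : Set ℕ} (h : S.mem a A) (hBA : B ⊆ A) : S.mem a B := by
  intro ε hε
  obtain ⟨K, hK⟩ := h ε hε
  exact ⟨K, fun n hn hKn => (hK n hn hKn).mono le_rfl (fun x _ hx => hBA hx)⟩

theorem mem_union {a : Set ℕ} {A B : Set ℕ} (h : S.mem a A) (h' : S.mem a B) : S.mem a (A ∪ B) := by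
  intro ε hε
  obtain ⟨K, hK⟩ := h (ε / 2) (by positivity)
  obtain ⟨K', hK'⟩ := h' (ε / 2) (by positivity)
  refine ⟨max K K', fun n hn hKn => ?_⟩
  have := (hK n hn (le_trans (le_max_left _ _) hKn)).union
    (hK' n hn (le_trans (le_max_right _ _) hKn))
  exact this.mono (by linarith) (fun x _ hx => hx)

theorem mem_finite {a : Set ℕ} {A : Set ℕ} (h : A.Finite) : S.mem a A := by
  intro ε hε
  obtain ⟨K, hK⟩ := (h.image S.blk).bddAbove
  refine ⟨K + 1, fun n _ hKn => Sm_empty_block hε.le ?_⟩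
  rintro x hx hxA
  have := hK ⟨x, hxA, rfl⟩
  omega

theorem not_mem_univ {a : Set ℕ} (ha : a.Infinite) : ¬ S.mem a univ := by
  intro h
  obtain ⟨K, hK⟩ := h (1 / 2) (by norm_num)
  obtain ⟨n, hn, hKn⟩ := ha.exists_gt K
  obtain ⟨e, he⟩ := S.Ene n
  have h1 := hK n hn hKn.le e he
  rw [cnt_full (fun x _ => mem_univ x), S.Ecard n e he] at h1
  have := S.MposR n
  linarith

variable (S)

/-- the ideal attached to an infinite set of levels -/
def ideal (a : Set ℕ) (ha : a.Infinite) : OmegaIdeal where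
  sets := {A | S.mem a A}
  mono := fun _ hA _ hBA => mem_mono hA hBA
  union := fun _ hA _ hB => mem_union hA hB
  finite := fun _ hA => mem_finite hA
  proper := not_mem_univ ha

/-- index set of the edges in levels from `a` -/
abbrev Idx (a : Set ℕ) : Type := {p : ℕ × Finset ℕ // p.1 ∈ a ∧ p.2 ∈ S.E p.1}

theorem Exh_eq (a : Set ℕ) :
    Exh (supCnt (fun i : S.Idx a => i.1.2) (fun i => S.M i.1.1)) = {A | S.mem a A} := by
  ext A
  constructor
  · intro h ε hε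
    have h1 : ∀ᶠ k in atTop, supCnt (fun i : S.Idx a => i.1.2) (fun i => S.M i.1.1) (A \ Iio k)
        < ENNReal.ofReal ε :=
      (tendsto_order.1 h).2 _ (by simpa using hε)
    obtain ⟨k, hk⟩ := h1.exists
    obtain ⟨K, hK⟩ := ((Set.finite_Iio k).image S.blk).bddAbove
    refine ⟨K + 1, fun n hn hKn e he => ?_⟩
    have h2 : (cnt e (A \ Iio k) : ℝ≥0∞) / (S.M n) ≤ ENNReal.ofReal ε :=
      (le_iSup (fun i : S.Idx a => (cnt i.1.2 (A \ Iio k) : ℝ≥0∞) / (S.M i.1.1))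
        ⟨(n, e), hn, he⟩).trans hk.le
    rw [cnt_div_le (S.Mpos' n) _ hε.le] at h2
    have h3 : cnt e A = cnt e (A \ Iio k) := by
      apply cnt_congr
      intro x hx
      constructor
      · intro hxA
        refine ⟨hxA, fun hxk => ?_⟩
        have := hK ⟨x, hxk, rfl⟩
        have := S.Eblk n e he x hx
        omega
      · exact fun h => h.1
    rw [h3]
    exact h2
  · intro h
    change Tendsto _ _ _
    rw [ENNReal.tendsto_atTop_zero]
    intro ε hε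
    -- a real number below ε
    obtain ⟨r, hr0, hrε⟩ : ∃ r : ℝ, 0 < r ∧ ENNReal.ofReal r ≤ ε := by
      rcases eq_or_ne ε ∞ with rfl | hne
      · exact ⟨1, one_pos, le_top⟩
      · exact ⟨ε.toReal, ENNReal.toReal_pos hε.ne' hne, by rw [ENNReal.ofReal_toReal hne]⟩
    obtain ⟨K, hK⟩ := h r hr0
    obtain ⟨N, hN⟩ := (S.fin K).bddAbove
    refine ⟨N + 1, fun k hk => ?_⟩
    refine le_trans ?_ hrε
    apply iSup_le
    rintro ⟨⟨n, e⟩, hn, he⟩
    rw [cnt_div_le (S.Mpos' n) _ hr0.le]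
    rcases Nat.lt_or_ge n K with h1 | h1
    · have : cnt e (A \ Iio k) = 0 := by
        apply cnt_zero
        rintro x hx ⟨_, hx2⟩
        apply hx2
        have h3 := S.Eblk n e he x hx
        have h4 : x ∈ {x | S.blk x ≤ K} := by simp only [mem_ofPred_eq]; omega
        have := hN h4
        simp only [mem_Iio]; omega
      rw [this]
      have := (S.MposR n).le
      simp only [Nat.cast_zero]
      positivity
    · have := hK n hn h1 e he
      refine le_trans ?_ this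
      have h5 : cnt e (A \ Iio k) ≤ cnt e A := cnt_mono (fun x _ hx => hx.1)
      exact_mod_cast h5

theorem ideal_nonpath (a : Set ℕ) (ha : a.Infinite) : (S.ideal a ha).NonPathological := by
  refine ⟨supCnt (fun i : S.Idx a => i.1.2) (fun i => S.M i.1.1), ?_, ?_, ?_⟩
  · exact supCnt_lsc _ _ (fun i => S.Mpos' i.1.1)
  · exact supCnt_nonpath _ _
  · exact (S.Exh_eq a).symm

end BlockSys

end Pool.Agent.Helper57
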