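import Pool.Agent.helper57.NikodymDefs

set_option autoImplicit false

namespace Pool.Agent.Helper57

open Filter Topology Set
open scoped ENNReal

section count

open Classical in
/-- number of elements of `e` in `A` -/
noncomputable def cnt (e : Finset ℕ) (A : Set ℕ) : ℕ := (e.filter (fun x => x ∈ A)).card

theorem cnt_mono {e : Finset ℕ} {A B : Set ℕ} (h : ∀ x ∈ e, x ∈ A → x ∈ B) : cnt e A ≤ cnt e B := by
  classical
  apply Finset.card_le_card
  intro x hx
  rw [Finset.mem_filter] at hx ⊢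
  exact ⟨hx.1, h x hx.1 hx.2⟩

theorem cnt_le (e : Finset ℕ) (A : Set ℕ) : cnt e A ≤ e.card := by
  classical
  exact Finset.card_filter_le _ _

theorem cnt_congr {e : Finset ℕ} {A B : Set ℕ} (h : ∀ x ∈ e, (x ∈ A ↔ x ∈ B)) : cnt e A = cnt e B :=
  le_antisymm (cnt_mono fun x hx => (h x hx).1) (cnt_mono fun x hx => (h x hx).2)

theorem cnt_full {e : Finset ℕ} {A : Set ℕ} (h : ∀ x ∈ e, x ∈ A) : cnt e A = e.card := by
  classical
  unfold cnt
  rw [Finset.filter_true_of_mem h]

theorem cnt_zero {e : Finset ℕ} {A : Set ℕ} (h : ∀ x ∈ e, x ∉ A) : cnt e A = 0 := by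
  classical
  unfold cnt
  rw [Finset.filter_false_of_mem h]; rfl

theorem cnt_union (e : Finset ℕ) (A B : Set ℕ) : cnt e (A ∪ B) ≤ cnt e A + cnt e B := by
  classical
  unfold cnt
  refine (Finset.card_le_card ?_).trans (Finset.card_union_le _ _)
  intro x hx
  simp only [Finset.mem_filter, Finset.mem_union, Set.mem_union] at hx ⊢
  tauto

theorem cnt_disj_union {e : Finset ℕ} {A B : Set ℕ} (h : Disjoint A B) :
    cnt e (A ∪ B) = cnt e A + cnt e B := by
  classical
  unfold cnt
  rw [← Finset.card_union_of_disjoint]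
  · congr 1
    ext x
    simp only [Finset.mem_filter, Finset.mem_union, Set.mem_union]
    tauto
  · rw [Finset.disjoint_left]
    intro x hx hx'
    rw [Finset.mem_filter] at hx hx'
    exact Set.disjoint_left.1 h hx.2 hx'.2

theorem cnt_singleton (e : Finset ℕ) (x : ℕ) : cnt e {x} ≤ 1 := by
  classical
  unfold cnt
  rw [Finset.card_le_one]
  intro a ha b hb
  simp only [Finset.mem_filter, Set.mem_singleton_iff] at ha hb
  rw [ha.2, hb.2]

end count

section submeasure

variable {ι : Type} (E : ι → Finset ℕ) (M : ι → ℕ)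

/-- supremum of normalised counting measures -/
noncomputable def supCnt (A : Set ℕ) : ℝ≥0∞ := ⨆ i, (cnt (E i) A : ℝ≥0∞) / (M i)

theorem exists_bound (e : Finset ℕ) : ∃ N, ∀ x ∈ e, x < N := by
  refine ⟨e.sup id + 1, ?_⟩
  intro x hx
  exact Nat.lt_succ_of_le (Finset.le_sup (f := id) hx)

theorem supCnt_lsc (hM : ∀ i, 0 < M i) : IsLSCSubmeasure (supCnt E M) where
  empty := by
    unfold supCnt
    simp [cnt_zero]
  mono := by
    intro A B hAB
    apply iSup_mono
    intro i
    gcongr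
    exact_mod_cast cnt_mono (fun x _ hx => hAB hx)
  subadd := by
    intro A B
    apply iSup_le
    intro i
    have h1 : ((cnt (E i) (A ∪ B) : ℕ) : ℝ≥0∞) ≤ cnt (E i) A + cnt (E i) B := by
      exact_mod_cast cnt_union (E i) A B
    calc ((cnt (E i) (A ∪ B) : ℕ) : ℝ≥0∞) / M i ≤ (cnt (E i) A + cnt (E i) B) / M i := by gcongr
      _ = cnt (E i) A / M i + cnt (E i) B / M i := ENNReal.add_div
      _ ≤ _ := add_le_add (le_iSup (fun i => (cnt (E i) A : ℝ≥0∞) / (M i)) i)
        (le_iSup (fun i => (cnt (E i) B : ℝ≥0∞) / (M i)) i)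
  singleton := by
    intro n
    refine lt_of_le_of_lt (b := 1) ?_ (by simp)
    apply iSup_le
    intro i
    apply ENNReal.div_le_of_le_mul
    rw [one_mul]
    have h1 := cnt_singleton (E i) n
    have h2 := hM i
    exact_mod_cast h1.trans h2
  lsc := by
    intro A
    have hmono : Monotone (fun n => supCnt E M (A ∩ Iio n)) := by
      intro a b hab
      apply iSup_mono
      intro i
      gcongr
      exact cnt_mono (fun x _ hx => ⟨hx.1, lt_of_lt_of_le (mem_Iio.1 hx.2) hab⟩)
    have h := tendsto_atTop_iSup hmono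
    have heq : ⨆ n, supCnt E M (A ∩ Iio n) = supCnt E M A := by
      apply le_antisymm
      · apply iSup_le
        intro n
        apply iSup_mono
        intro i
        gcongr
        exact cnt_mono (fun x _ hx => hx.1)
      · apply iSup_le
        intro i
        obtain ⟨N, hN⟩ := exists_bound (E i)
        have : cnt (E i) A = cnt (E i) (A ∩ Iio N) :=
          cnt_congr (fun x hx => ⟨fun h => ⟨h, hN x hx⟩, fun h => h.1⟩)
        rw [this]
        refine le_trans ?_ (le_iSup (fun n => supCnt E M (A ∩ Iio n)) N)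
        exact le_iSup (fun i => (cnt (E i) (A ∩ Iio N) : ℝ≥0∞) / (M i)) i
    rwa [heq] at h

theorem supCnt_nonpath : NonPathologicalSubmeasure (supCnt E M) := by
  intro A
  apply le_antisymm
  · apply iSup_le
    intro i
    have hμ : IsFAMeasure (fun B => (cnt (E i) B : ℝ≥0∞) / (M i)) := by
      constructor
      · simp [cnt_zero]
      · intro B C hBC
        simp only [cnt_disj_union hBC, Nat.cast_add]
        exact ENNReal.add_div
    exact le_iSup (fun μ : {μ : Set ℕ → ℝ≥0∞ // IsFAMeasure μ ∧ ∀ B, μ B ≤ supCnt E M B} => μ.1 A)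
      ⟨fun B => (cnt (E i) B : ℝ≥0∞) / (M i), hμ,
        fun B => le_iSup (fun i => (cnt (E i) B : ℝ≥0∞) / (M i)) i⟩
  · apply iSup_le
    rintro ⟨μ, hμ, hle⟩
    exact hle A

theorem cnt_div_le {M : ℕ} (hM : 0 < M) (c : ℕ) {ε : ℝ} (hε : 0 ≤ ε) :
    (c : ℝ≥0∞) / M ≤ ENNReal.ofReal ε ↔ (c : ℝ) ≤ ε * M := by
  have hM' : (0 : ℝ) < M := by exact_mod_cast hM
  rw [ENNReal.div_le_iff (by exact_mod_cast hM.ne') (by simp)]
  rw [show ((c : ℕ) : ℝ≥0∞) = ENNReal.ofReal (c : ℝ) by simp,
    show ((M : ℕ) : ℝ≥0∞) = ENNReal.ofReal (M : ℝ) by simp, ← ENNReal.ofReal_mul hε,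
    ENNReal.ofReal_le_ofReal_iff (by positivity)]

end submeasure

end Pool.Agent.Helper57
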