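import Mathlib

set_option autoImplicit false

namespace Pool.Agent.Helper57

open Filter Topology Set
open scoped ENNReal

/-- An ideal on `ω`: a proper ideal of subsets of `ω` containing all finite sets. -/
structure OmegaIdeal : Type where
  /-- the members of the ideal -/
  sets : Set (Set ℕ)
  mono : ∀ A ∈ sets, ∀ B, B ⊆ A → B ∈ sets
  union : ∀ A ∈ sets, ∀ B ∈ sets, A ∪ B ∈ sets
  finite : ∀ A : Set ℕ, A.Finite → A ∈ sets
  proper : (univ : Set ℕ) ∉ sets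

/-- The Boolean algebra `I ∪ I*` of subsets of `ω`. -/
def OmegaIdeal.algebra (I : OmegaIdeal) : BooleanSubalgebra (Set ℕ) where
  carrier := {A | A ∈ I.sets ∨ Aᶜ ∈ I.sets}
  supClosed' := by
    rintro A (hA | hA) B (hB | hB)
    · exact Or.inl (I.union A hA B hB)
    · refine Or.inr (I.mono _ hB _ ?_)
      exact compl_subset_compl.2 subset_union_right
    · refine Or.inr (I.mono _ hA _ ?_)
      exact compl_subset_compl.2 subset_union_left
    · refine Or.inr (I.mono _ hA _ ?_)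
      exact compl_subset_compl.2 subset_union_left
  infClosed' := by
    rintro A (hA | hA) B (hB | hB)
    · exact Or.inl (I.mono _ hA _ inter_subset_left)
    · exact Or.inl (I.mono _ hA _ inter_subset_left)
    · exact Or.inl (I.mono _ hB _ inter_subset_right)
    · refine Or.inr ?_
      have := I.union _ hA _ hB
      rwa [← compl_inter] at this
  compl_mem' := by
    rintro A (hA | hA)
    · exact Or.inr (by simpa using hA)
    · exact Or.inl hA
  bot_mem' := Or.inl (I.finite _ Set.finite_empty)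

/-- Bounded finitely additive real valued measures on a Boolean algebra. -/
structure IsBddMeasure {𝒜 : Type*} [BooleanAlgebra 𝒜] (μ : 𝒜 → ℝ) : Prop where
  add : ∀ a b : 𝒜, Disjoint a b → μ (a ⊔ b) = μ a + μ b
  bdd : ∃ C : ℝ, ∀ a, |μ a| ≤ C

/-- The variation norm: the supremum of the sums `∑ |μ a|` over finite pairwise disjoint families. -/
noncomputable def variation {𝒜 : Type*} [BooleanAlgebra 𝒜] (μ : 𝒜 → ℝ) : ℝ≥0∞ :=
  ⨆ P : {P : Finset 𝒜 // (P : Set 𝒜).PairwiseDisjoint id}, ∑ a ∈ P.1, ENNReal.ofReal |μ a|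

/-- The Nikodym property of a Boolean algebra. -/
def NikodymProperty (𝒜 : Type*) [BooleanAlgebra 𝒜] : Prop :=
  ∀ μ : ℕ → 𝒜 → ℝ, (∀ n, IsBddMeasure (μ n)) →
    (∀ a, Tendsto (fun n => μ n a) atTop (𝓝 0)) →
    ∃ C : ℝ, ∀ n, variation (μ n) ≤ ENNReal.ofReal C

/-- Lower semicontinuous submeasures on `ω`. -/
structure IsLSCSubmeasure (φ : Set ℕ → ℝ≥0∞) : Prop where
  empty : φ ∅ = 0
  mono : ∀ A B, A ⊆ B → φ A ≤ φ B
  subadd : ∀ A B, φ (A ∪ B) ≤ φ A + φ B
  singleton : ∀ n, φ {n} < ∞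
  lsc : ∀ A, Tendsto (fun n => φ (A ∩ Iio n)) atTop (𝓝 (φ A))

/-- `Exh(φ)`. -/
def Exh (φ : Set ℕ → ℝ≥0∞) : Set (Set ℕ) :=
  {A | Tendsto (fun n => φ (A \ Iio n)) atTop (𝓝 0)}

/-- Finitely additive (nonnegative) measures on `P(ω)`. -/
def IsFAMeasure (μ : Set ℕ → ℝ≥0∞) : Prop :=
  μ ∅ = 0 ∧ ∀ A B, Disjoint A B → μ (A ∪ B) = μ A + μ B

/-- Non-pathological submeasures. -/
def NonPathologicalSubmeasure (φ : Set ℕ → ℝ≥0∞) : Prop :=
  ∀ A, φ A = ⨆ μ : {μ : Set ℕ → ℝ≥0∞ // IsFAMeasure μ ∧ ∀ B, μ B ≤ φ B}, μ.1 A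

/-- Non-pathological ideals. -/
def OmegaIdeal.NonPathological (I : OmegaIdeal) : Prop :=
  ∃ φ, IsLSCSubmeasure φ ∧ NonPathologicalSubmeasure φ ∧ I.sets = Exh φ

/-- Totally bounded ideals. -/
def OmegaIdeal.TotallyBounded (I : OmegaIdeal) : Prop :=
  ∀ ψ, IsLSCSubmeasure ψ → I.sets ⊆ Exh ψ → ψ univ < ∞

/-- The Katětov order. -/
def KatetovLE (I J : OmegaIdeal) : Prop :=
  ∃ f : ℕ → ℕ, ∀ A ∈ I.sets, f ⁻¹' A ∈ J.sets

end Pool.Agent.Helper57
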